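import Pool.Agent.Lib.MP_72e2e6_nt.Sm.C.SpecA

/-!
# MP_72e2e6_nt, `Sm`, block C: the pairings for `Ax3` (helper34)
-/

set_option autoImplicit false

namespace Pool.Agent.MP72S.C

/-- **AxE.** -/
theorem tAxE (h1 : S_WPe) (h2 : S_Dlt) (h3 : S_Gl1) (h4 : S_Glo) : S_AxE := by
  intro G N P R _ _ _ _ _ _ D hf hA hR hact htau hphi hq hd v₁ hv
  have hN : P2 N := ⟨hA.prim, hA.dvs, hA.four⟩
  have he : PV D.e := ⟨hA.e_add, hA.e_sym, hA.e_alt, hA.e_nd⟩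
  obtain ⟨E, hE⟩ := h1 N R hf D.e hN hR he
  obtain ⟨-, -, g3⟩ := h3 G N P R D hf E hA hR hE hact htau hphi hq hd
  have g4 := h4 G N P R D hf E hA hR hE hact htau hphi hq hd v₁ (hv E hE (g3 v₁))
  obtain ⟨-, -, -, -, d5⟩ := h2 N R G hf D.e E hN hR he hE
  exact ⟨E, hE.add, hE.alt, hE.anti, fun m σ a b ha hb => (d5 σ).1 (g4 σ) m a b ha hb,
    fun m a b _ ha hb => hE.two m a b ha hb, hE.one⟩

end Pool.Agent.MP72S.C
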