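import Pool.Agent.Lib.MP_72e2e6_nt.Sm.C.SpecC

/-!
# MP_72e2e6_nt, `Sm`, block C: module AxN (the axioms of `Ax` on `N`)
-/

set_option autoImplicit false

namespace Pool.Agent.MP72S.C

open Finset WeierstrassCurve Pool.Agent.MP72W

open scoped Classical

theorem tAxN (_hG : S_Grp) (hV : S_Vee) (hA : S_Acp) (hD : S_Dvn) (hS : S_Slf) (hC : S_Cts) :
    S_AxN := by
  intro K _ a L _ _ _ hyp hq hio
  obtain ⟨v1, v2, v3, v4, v5, v6, v7, v8, v9, v10, v11⟩ := hV K a L hyp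
  have htw : ∀ x : NN a L, 2 • x = 0 → pt x + pt x = 0 := fun x hx => by
    rw [← two_nsmul, ← pt_nsmul, hx, pt_zero]
  have hfo : ∀ x : NN a L, 4 • x = 0 → (pt x + pt x) + (pt x + pt x) = 0 := fun x hx => by
    rw [← two_nsmul, ← two_nsmul, ← mul_nsmul, ← pt_nsmul, hx, pt_zero]
  refine ⟨(hD K a L hyp hq).2, ⟨?_, ?_, ?_, ?_⟩, (hC K a L hyp).2.1, ?_, ?_⟩
  · intro x y z hx hy hz
    exact v6 _ _ _ (htw x hx) (htw y hy) (htw z hz)
  · intro x y _ _
    exact v7 _ _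
  · intro x _
    exact v8 _
  · intro x hx h
    apply pt_inj
    refine v11 (pt x) (htw x hx) fun y hy => ?_
    have hy2 : 2 ^ 1 • y = 0 := by rw [pow_one, two_nsmul, hy]
    exact h (mkN y ⟨1, hy2⟩) (pt_inj (by rw [pt_nsmul, pt_mkN, pt_zero, two_nsmul, hy]))
  · intro s x hx
    apply pt_inj
    rw [pt_smul]
    exact (hA K a L hyp s).2.2.2.2.2 _ (htw x hx)
  · intro s x y hx hy
    have h1 := hS K a L hyp hio s (pt x) (pt y) (hfo x hx) (hfo y hy)
    rw [← two_nsmul, ← two_nsmul] at h1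
    exact h1

end Pool.Agent.MP72S.C
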