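import Pool.Agent.Lib.MP_72e2e6_nt.Sm.C.SpecA

set_option autoImplicit false

namespace Pool.Agent.MP72S.C

open Finset

/-- Choosing halves. -/
private lemma bs1_halves {A : Type} [AddCommGroup A] (hd : ∀ x : A, ∃ y : A, 2 • y = x) (a : A)
    (ha : 2 • a = 0) : ∃ z : ℕ → A, z 0 = 0 ∧ z 1 = a ∧ ∀ n, 2 • z (n + 1) = z n := by
  choose f hf using hd
  let g : ℕ → A := fun n => Nat.rec a (fun _ x => f x) n
  refine ⟨fun n => match n with
    | 0 => 0
    | n + 1 => g n, rfl, rfl, ?_⟩
  intro n
  cases n with
  | zero => exact ha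
  | succ n => exact hf (g n)

private lemma bs1_kill {A : Type} [AddCommGroup A] (z : ℕ → A) (z0 : z 0 = 0)
    (zs : ∀ n, 2 • z (n + 1) = z n) : ∀ n, 2 ^ n • z n = 0 := by
  intro n
  induction n with
  | zero => rw [z0, nsmul_zero]
  | succ n ih => rw [pow_succ, mul_smul, zs, ih]

private lemma bs1_one {A : Type} [AddCommGroup A] (z : ℕ → A)
    (zs : ∀ n, 2 • z (n + 1) = z n) : ∀ n, 2 ^ n • z (n + 1) = z 1 := by
  intro n
  induction n with
  | zero => rw [pow_zero, one_nsmul]
  | succ n ih => rw [pow_succ, mul_smul, zs, ih]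

theorem tBs1 (h1 : S_Dga) : S_Bs1 := by
  intro R _ hf hP
  have h2f : 2 • hf = 0 := (hP.two hf).mpr (Or.inr rfl)
  refine ⟨?_, ?_⟩
  · obtain ⟨z, hz0, hz1, hz⟩ := bs1_halves hP.dvs hf h2f
    exact ⟨z, hz0, by rw [hz1]; exact hP.hf0, hz⟩
  · intro z hz
    have hz1 : z 1 = hf := by
      have h3 : 2 • z 1 = 0 := by rw [hz.zs 0, hz.z0]
      rcases (hP.two _).mp h3 with h4 | h4
      · exact absurd h4 hz.z1
      · exact h4
    have hk := bs1_kill z hz.z0 hz.zs
    have ho := bs1_one z hz.zs
    have hgen : ∀ n x, 2 ^ n • x = 0 → ∃ k : ℕ, x = k • z n := by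
      intro n
      induction n with
      | zero =>
        intro x hx
        refine ⟨0, ?_⟩
        rw [pow_zero, one_nsmul] at hx
        rw [hx, zero_nsmul]
      | succ n ih =>
        intro x hx
        obtain ⟨k, hk'⟩ := ih (2 • x) (by rw [← mul_smul, ← pow_succ, hx])
        have h5 : 2 • (x - k • z (n + 1)) = 0 := by
          rw [smul_sub, hk', smul_comm, hz.zs, sub_self]
        rcases (hP.two _).mp h5 with h6 | h6
        · exact ⟨k, sub_eq_zero.mp h6⟩
        · refine ⟨k + 2 ^ n, ?_⟩
          rw [add_nsmul, ho, hz1, ← h6]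
          abel
    have hdiv : ∀ (n : ℕ) (k : ℤ), k • z n = 0 ↔ (2 ^ n : ℤ) ∣ k := by
      intro n
      induction n with
      | zero =>
        intro k
        rw [hz.z0]
        simp
      | succ n ih =>
        intro k
        constructor
        · intro h5
          have h6 : k • z n = 0 := by
            rw [← hz.zs n, smul_comm, h5, smul_zero]
          obtain ⟨c, hc⟩ := (ih k).mp h6
          have h7 : c • z 1 = 0 := by
            rw [hc, mul_comm, mul_smul] at h5
            have h8 : ((2 : ℤ) ^ n) • z (n + 1) = z 1 := by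
              rw [← ho n]
              rw [← natCast_zsmul]
              push_cast
              rfl
            rwa [h8] at h5
          have h8 : Even c := by
            by_contra hodd
            rw [Int.not_even_iff_odd] at hodd
            obtain ⟨d, hd⟩ := hodd
            rw [hd, add_smul, one_smul, mul_comm, mul_smul] at h7
            have h9 : (2 : ℤ) • z 1 = 0 := by
              have := hk 1
              rw [pow_one] at this
              rw [← this, ← natCast_zsmul]
              rfl
            rw [h9, smul_zero, zero_add] at h7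
            exact hz.z1 h7
          obtain ⟨d, hd⟩ := h8
          exact ⟨d, by rw [hc, hd]; ring⟩
        · rintro ⟨c, hc⟩
          rw [hc, mul_comm, mul_smul]
          have h8 : ((2 : ℤ) ^ (n + 1)) • z (n + 1) = 0 := by
            rw [← hk (n + 1), ← natCast_zsmul]
            push_cast
            rfl
          rw [h8, smul_zero]
    refine ⟨hz1, hk, hgen, hdiv, ?_⟩
    intro x hx0 hxs
    have hxk := bs1_kill x hx0 hxs
    choose c hc using fun n => hgen n (x n) (hxk n)
    have hcc : ∀ n, c (n + 1) ≡ c n [MOD 2 ^ n] := by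
      intro n
      have h5 : ((c (n + 1) : ℤ) - c n) • z n = 0 := by
        rw [sub_smul, natCast_zsmul, natCast_zsmul, ← hc n, ← hxs n, hc (n + 1), smul_comm,
          hz.zs, sub_self]
      have h6 := (hdiv n _).mp h5
      have h7 : (c n : ℤ) ≡ c (n + 1) [ZMOD ((2 ^ n : ℕ) : ℤ)] := by
        rw [Int.modEq_iff_dvd]
        push_cast
        exact h6
      exact (Int.natCast_modEq_iff.mp h7).symm
    obtain ⟨α, hα⟩ := h1.2.2.1 c hcc
    refine ⟨α, fun n => ?_⟩
    have h5 : ((c n : ℤ) - dg n α) • z n = 0 := by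
      rw [hdiv]
      have h6 := (Int.natCast_modEq_iff.mpr (hα n)).dvd
      push_cast at h6
      exact h6
    rw [sub_smul, natCast_zsmul, natCast_zsmul, sub_eq_zero] at h5
    rw [hc n, h5]

end Pool.Agent.MP72S.C
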