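import Pool.Agent.Lib.MP_72e2e6_nt.Sm.C.SpecA

set_option autoImplicit false

namespace Pool.Agent.MP72S.C

open Finset

/-- Choosing halves. -/
private lemma bs2_halves {A : Type} [AddCommGroup A] (hd : ∀ x : A, ∃ y : A, 2 • y = x) (a : A)
    (ha : 2 • a = 0) : ∃ z : ℕ → A, z 0 = 0 ∧ z 1 = a ∧ ∀ n, 2 • z (n + 1) = z n := by
  choose f hf using hd
  let g : ℕ → A := fun n => Nat.rec a (fun _ x => f x) n
  refine ⟨fun n => match n with
    | 0 => 0
    | n + 1 => g n, rfl, rfl, ?_⟩
  intro n
  cases n with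
  | zero => exact ha
  | succ n => exact hf (g n)

private lemma bs2_kill {A : Type} [AddCommGroup A] (z : ℕ → A) (z0 : z 0 = 0)
    (zs : ∀ n, 2 • z (n + 1) = z n) : ∀ n, 2 ^ n • z n = 0 := by
  intro n
  induction n with
  | zero => rw [z0, nsmul_zero]
  | succ n ih => rw [pow_succ, mul_smul, zs, ih]

private lemma bs2_one {A : Type} [AddCommGroup A] (z : ℕ → A)
    (zs : ∀ n, 2 • z (n + 1) = z n) : ∀ n, 2 ^ n • z (n + 1) = z 1 := by
  intro n
  induction n with
  | zero => rw [pow_zero, one_nsmul]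
  | succ n ih => rw [pow_succ, mul_smul, zs, ih]

/-- The elements of order at most two. -/
private lemma bs2_four {A : Type} [AddCommGroup A] (hA : Nat.card {x : A // 2 • x = 0} = 4)
    {a b : A} (ha : 2 • a = 0) (hb : 2 • b = 0) (ha0 : a ≠ 0) (hb0 : b ≠ 0) (hab : a ≠ b) (x : A)
    (hx : 2 • x = 0) : x = 0 ∨ x = a ∨ x = b ∨ x = a + b := by
  classical
  have hfin : Finite {x : A // 2 • x = 0} := Nat.finite_of_card_ne_zero (by rw [hA]; norm_num)
  haveI := Fintype.ofFinite {x : A // 2 • x = 0}
  rw [Nat.card_eq_fintype_card] at hA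
  have hab' : a + b ≠ 0 := by
    intro h
    apply hab
    have h2 : a + a = 0 := by rw [← two_nsmul]; exact ha
    have : a + b = a + a := by rw [h, h2]
    exact (add_left_cancel this).symm
  by_contra hne
  push Not at hne
  obtain ⟨h0, h1, h2, h3⟩ := hne
  let v : Fin 5 → {x : A // 2 • x = 0} := ![⟨0, nsmul_zero 2⟩, ⟨a, ha⟩, ⟨b, hb⟩,
    ⟨a + b, by rw [nsmul_add, ha, hb, add_zero]⟩, ⟨x, hx⟩]
  have hinj : Function.Injective v := by
    intro i j hij
    have h4 : ((v i : {x : A // 2 • x = 0}) : A) = (v j : {x : A // 2 • x = 0}) := by rw [hij]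
    have ea : a + b ≠ a := by simpa using hb0
    have eb : a + b ≠ b := by simpa using ha0
    fin_cases i <;> fin_cases j <;> simp [v] at h4 ⊢ <;>
      first
      | exact absurd h4 ha0 | exact absurd h4 hb0 | exact absurd h4 hab | exact absurd h4 hab'
      | exact absurd h4 h0 | exact absurd h4 h1 | exact absurd h4 h2 | exact absurd h4 h3
      | exact absurd h4.symm ha0 | exact absurd h4.symm hb0 | exact absurd h4.symm hab
      | exact absurd h4.symm hab' | exact absurd h4.symm h0 | exact absurd h4.symm h1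
      | exact absurd h4.symm h2 | exact absurd h4.symm h3
      | exact absurd h4 ea | exact absurd h4 eb | exact absurd h4.symm ea
      | exact absurd h4.symm eb
      | exact absurd h4.1 ha0 | exact hb0 h4 | exact ha0 h4
  have h5 := Fintype.card_le_of_injective v hinj
  rw [hA, Fintype.card_fin] at h5
  omega

private lemma bs2_exists {A : Type} [AddCommGroup A] (hA : Nat.card {x : A // 2 • x = 0} = 4)
    (a : A) : ∃ b : A, 2 • b = 0 ∧ b ≠ 0 ∧ b ≠ a := by
  classical
  have hfin : Finite {x : A // 2 • x = 0} := Nat.finite_of_card_ne_zero (by rw [hA]; norm_num)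
  haveI := Fintype.ofFinite {x : A // 2 • x = 0}
  rw [Nat.card_eq_fintype_card] at hA
  by_contra hne
  push Not at hne
  let S : Finset A := {0, a}
  have h1 : Fintype.card {x : A // 2 • x = 0} ≤ Fintype.card {x : A // x ∈ S} := by
    refine Fintype.card_le_of_injective (fun x => ⟨x.1, ?_⟩) ?_
    · by_cases h0 : x.1 = 0
      · simp [S, h0]
      · simp [S, hne x.1 x.2 h0]
    · intro x y hxy
      have : x.1 = y.1 := congrArg (fun z : {x : A // x ∈ S} => z.1) hxy
      exact Subtype.ext this
  rw [hA, Fintype.card_coe] at h1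
  have h2 : S.card ≤ 2 := Finset.card_le_two
  omega

private lemma bs2_zkill {A : Type} [AddCommGroup A] {x : A} {n : ℕ} (h : 2 ^ n • x = 0) (c : ℤ) :
    ((2 : ℤ) ^ n * c) • x = 0 := by
  rw [mul_comm, mul_smul]
  have h8 : ((2 : ℤ) ^ n) • x = 0 := by
    rw [← h, ← natCast_zsmul]
    push_cast
    rfl
  rw [h8, smul_zero]

theorem tBs2 (h1 : S_Dga) : S_Bs2 := by
  intro N _ hP
  have hw : ∀ u : ℕ → N, u 0 = 0 → u 1 ≠ 0 → (∀ n, 2 • u (n + 1) = u n) →
      ∃ w : ℕ → N, Bas u w := by
    intro u u0 u1 us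
    obtain ⟨b, hb, hb0, hbu⟩ := bs2_exists hP.four (u 1)
    obtain ⟨w, w0, w1, ws⟩ := bs2_halves hP.dvs b hb
    exact ⟨w, u0, w0, u1, by rw [w1]; exact hb0, by rw [w1]; exact hbu.symm, us, ws⟩
  refine ⟨?_, hw, ?_⟩
  · obtain ⟨a, ha, ha0, _⟩ := bs2_exists hP.four (0 : N)
    obtain ⟨u, u0, u1, us⟩ := bs2_halves hP.dvs a ha
    obtain ⟨w, hB⟩ := hw u u0 (by rw [u1]; exact ha0) us
    exact ⟨u, w, hB⟩
  · intro u w hB
    have hku := bs2_kill u hB.u0 hB.us
    have hkw := bs2_kill w hB.w0 hB.ws
    have hou := bs2_one u hB.us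
    have how := bs2_one w hB.ws
    have hu2 : 2 • u 1 = 0 := by rw [hB.us 0, hB.u0]
    have hw2 : 2 • w 1 = 0 := by rw [hB.ws 0, hB.w0]
    have hV := bs2_four hP.four hu2 hw2 hB.u1 hB.w1 hB.uw
    have huw0 : u 1 + w 1 ≠ 0 := by
      intro h
      apply hB.uw
      have h2 : u 1 + u 1 = 0 := by rw [← two_nsmul]; exact hu2
      have : u 1 + w 1 = u 1 + u 1 := by rw [h, h2]
      exact (add_left_cancel this).symm
    have hgen : ∀ n x, 2 ^ n • x = 0 → ∃ k l : ℕ, x = k • u n + l • w n := by
      intro n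
      induction n with
      | zero =>
        intro x hx
        refine ⟨0, 0, ?_⟩
        rw [pow_zero, one_nsmul] at hx
        rw [hx, zero_nsmul, zero_nsmul, add_zero]
      | succ n ih =>
        intro x hx
        obtain ⟨k, l, hkl⟩ := ih (2 • x) (by rw [← mul_smul, ← pow_succ, hx])
        have h5 : 2 • (x - (k • u (n + 1) + l • w (n + 1))) = 0 := by
          rw [smul_sub, hkl, smul_add, smul_comm 2 k, smul_comm 2 l, hB.us, hB.ws, sub_self]
        rcases hV _ h5 with h6 | h6 | h6 | h6
        · exact ⟨k, l, sub_eq_zero.mp h6⟩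
        · refine ⟨k + 2 ^ n, l, ?_⟩
          rw [add_nsmul, hou, ← h6]
          abel
        · refine ⟨k, l + 2 ^ n, ?_⟩
          rw [add_nsmul, how, ← h6]
          abel
        · refine ⟨k + 2 ^ n, l + 2 ^ n, ?_⟩
          rw [add_nsmul, add_nsmul, hou, how]
          have h7 : x = u 1 + w 1 + (k • u (n + 1) + l • w (n + 1)) := by rw [← h6]; abel
          rw [h7]
          abel
    have hdiv : ∀ (n : ℕ) (k l : ℤ), k • u n + l • w n = 0 → (2 ^ n : ℤ) ∣ k ∧ (2 ^ n : ℤ) ∣ l := by
      intro n
      induction n with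
      | zero =>
        intro k l _
        simp
      | succ n ih =>
        intro k l h5
        have h6 : k • u n + l • w n = 0 := by
          rw [← hB.us n, ← hB.ws n, smul_comm k 2, smul_comm l 2, ← smul_add, h5, smul_zero]
        obtain ⟨⟨c, hc⟩, ⟨d, hd⟩⟩ := ih k l h6
        have hz1 : ((2 : ℤ) ^ n) • u (n + 1) = u 1 := by
          rw [← hou n, ← natCast_zsmul]
          push_cast
          rfl
        have hz2 : ((2 : ℤ) ^ n) • w (n + 1) = w 1 := by
          rw [← how n, ← natCast_zsmul]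
          push_cast
          rfl
        have h7 : c • u 1 + d • w 1 = 0 := by
          rw [hc, hd, mul_comm _ c, mul_comm _ d, mul_smul, mul_smul, hz1, hz2] at h5
          exact h5
        have hev : ∀ (c : ℤ) (x : N), 2 • x = 0 → c • x = if Even c then 0 else x := by
          intro c x hx
          split_ifs with hc
          · obtain ⟨e, he⟩ := hc
            rw [he, ← two_mul]
            have := bs2_zkill (n := 1) (x := x) (by rw [pow_one]; exact hx) e
            rwa [pow_one] at this
          · rw [Int.not_even_iff_odd] at hc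
            obtain ⟨e, he⟩ := hc
            rw [he, add_smul, one_smul]
            have := bs2_zkill (n := 1) (x := x) (by rw [pow_one]; exact hx) e
            rw [pow_one] at this
            rw [this, zero_add]
        rw [hev c _ hu2, hev d _ hw2] at h7
        have h8 : Even c ∧ Even d := by
          split_ifs at h7 with hc hd hd
          · exact ⟨hc, hd⟩
          · rw [zero_add] at h7
            exact absurd h7 hB.w1
          · rw [add_zero] at h7
            exact absurd h7 hB.u1
          · exact absurd h7 huw0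
        obtain ⟨⟨e, he⟩, ⟨f, hf⟩⟩ := h8
        exact ⟨⟨e, by rw [hc, he]; ring⟩, ⟨f, by rw [hd, hf]; ring⟩⟩
    refine ⟨fun n => ⟨hku n, hkw n⟩, hgen, hdiv, hV, ?_⟩
    intro x hx0 hxs
    have hxk := bs2_kill x hx0 hxs
    choose c d hcd using fun n => hgen n (x n) (hxk n)
    have hcc : ∀ n, c (n + 1) ≡ c n [MOD 2 ^ n] ∧ d (n + 1) ≡ d n [MOD 2 ^ n] := by
      intro n
      have h5 : ((c (n + 1) : ℤ) - c n) • u n + ((d (n + 1) : ℤ) - d n) • w n = 0 := by
        have h6 : x n = c (n + 1) • u n + d (n + 1) • w n := by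
          rw [← hxs n, hcd (n + 1), smul_add, smul_comm 2 (c (n + 1)), smul_comm 2 (d (n + 1)),
            hB.us, hB.ws]
        rw [sub_smul, sub_smul, natCast_zsmul, natCast_zsmul, natCast_zsmul, natCast_zsmul]
        have h7 : c (n + 1) • u n + d (n + 1) • w n = c n • u n + d n • w n := by
          rw [← h6, ← hcd n]
        have h8 : c (n + 1) • u n - c n • u n + (d (n + 1) • w n - d n • w n) =
            (c (n + 1) • u n + d (n + 1) • w n) - (c n • u n + d n • w n) := by abel
        rw [h8, h7, sub_self]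
      obtain ⟨h6, h7⟩ := hdiv n _ _ h5
      constructor
      · have h8 : (c n : ℤ) ≡ c (n + 1) [ZMOD ((2 ^ n : ℕ) : ℤ)] := by
          rw [Int.modEq_iff_dvd]
          push_cast
          exact h6
        exact (Int.natCast_modEq_iff.mp h8).symm
      · have h8 : (d n : ℤ) ≡ d (n + 1) [ZMOD ((2 ^ n : ℕ) : ℤ)] := by
          rw [Int.modEq_iff_dvd]
          push_cast
          exact h7
        exact (Int.natCast_modEq_iff.mp h8).symm
    obtain ⟨α, hα⟩ := h1.2.2.1 c fun n => (hcc n).1
    obtain ⟨β, hβ⟩ := h1.2.2.1 d fun n => (hcc n).2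
    refine ⟨α, β, fun n => ?_⟩
    have hcon : ∀ (y : N) (k l : ℕ), 2 ^ n • y = 0 → k ≡ l [MOD 2 ^ n] → k • y = l • y := by
      intro y k l hy hkl
      have h6 := (Int.natCast_modEq_iff.mpr hkl).dvd
      push_cast at h6
      obtain ⟨e, he⟩ := h6
      have h7 : ((l : ℤ) - k) • y = 0 := by
        rw [he]
        exact bs2_zkill hy e
      rw [sub_smul, natCast_zsmul, natCast_zsmul, sub_eq_zero] at h7
      exact h7.symm
    rw [hcd n, hcon _ _ _ (hku n) (hα n), hcon _ _ _ (hkw n) (hβ n)]

end Pool.Agent.MP72S.C
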