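import Pool.Agent.Lib.MP_72e2e6_nt.Sm.C.SpecC

/-!
# MP_72e2e6_nt, `Sm`, block C: module Cts (continuity of the action)
-/

set_option autoImplicit false

namespace Pool.Agent.MP72S.C

open Finset WeierstrassCurve Pool.Agent.MP72W

open scoped Classical

private theorem lc_of {K : Type} [Field K] {L : Type} [Field L] [Algebra K L]
    [Algebra.IsAlgebraic K L] {α : Type} (f : Gal(L/K) → α) (S : Finset L)
    (h : ∀ s t : Gal(L/K), (∀ z ∈ S, s z = t z) → f s = f t) : IsLocallyConstant f := by
  rw [IsLocallyConstant.iff_exists_open]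
  intro s
  have hfd : FiniteDimensional K (IntermediateField.adjoin K (S : Set L)) :=
    IntermediateField.finiteDimensional_adjoin
      fun x _ => (Algebra.IsAlgebraic.isAlgebraic x).isIntegral
  have ho := IntermediateField.fixingSubgroup_isOpen (IntermediateField.adjoin K (S : Set L))
  refine ⟨(fun t : Gal(L/K) => s⁻¹ * t) ⁻¹'
      ((IntermediateField.adjoin K (S : Set L)).fixingSubgroup : Set Gal(L/K)),
    ho.preimage (continuous_const_mul s⁻¹), ?_, ?_⟩
  · change s⁻¹ * s ∈ (IntermediateField.adjoin K (S : Set L)).fixingSubgroup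
    rw [inv_mul_cancel]
    exact one_mem _
  · intro t ht
    change s⁻¹ * t ∈ (IntermediateField.adjoin K (S : Set L)).fixingSubgroup at ht
    rw [IntermediateField.mem_fixingSubgroup_iff] at ht
    apply h
    intro z hz
    have h1 := ht z (IntermediateField.subset_adjoin K (S : Set L) hz)
    have h2 : s ((s⁻¹ * t) z) = s z := congrArg s h1
    rw [← AlgEquiv.mul_apply, mul_inv_cancel_left] at h2
    exact h2

theorem tCts (hG : S_Grp) (hA : S_Acp) : S_Cts := by
  intro K _ a L _ _ _ hyp
  obtain ⟨g1, g2, g3, g4, g5, g6, g7, g8, g9⟩ := hG K a L hyp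
  have h1 : ∀ P : PA a L, IsLocallyConstant fun s : Gal(L/K) => act a s P := by
    intro P
    rcases g1 P with rfl | ⟨x, y, hP⟩
    · refine lc_of _ ∅ fun s t _ => ?_
      change act a s 0 = act a t 0
      rw [map_zero, map_zero]
    · refine lc_of _ {x, y} fun s t hst => ?_
      have h2 := (hA K a L hyp s).1 P x y hP
      have h3 := (hA K a L hyp t).1 P x y hP
      rw [hst x (by simp), hst y (by simp)] at h2
      exact g4 _ _ _ _ h2 h3
  refine ⟨h1, ?_, ?_⟩
  · intro x
    have h2 := h1 (pt x)
    rw [IsLocallyConstant.iff_exists_open] at h2 ⊢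
    intro s
    obtain ⟨U, hU, hs, h3⟩ := h2 s
    exact ⟨U, hU, hs, fun t ht => pt_inj (h3 t ht)⟩
  · intro r
    refine lc_of _ {ul r} fun s t hst => ?_
    apply ul_inj
    rw [ul_smul, ul_smul]
    exact hst _ (by simp)

end Pool.Agent.MP72S.C
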