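import Pool.Agent.Lib.MP_72e2e6_nt.Sm.C.SpecA

/-!
# MP_72e2e6_nt, `Sm/C`: finite abelian `2`-groups
-/

set_option autoImplicit false

namespace Pool.Agent.MP72S.C

open Finset

private theorem cyg_exp (A : Type) [CommGroup A] [Finite A] (h : ∀ a : A, ∃ k : ℕ, a ^ 2 ^ k = 1) :
    ∃ K : ℕ, ∀ a : A, a ^ 2 ^ K = 1 := by
  classical
  have := Fintype.ofFinite A
  choose k hk using h
  refine ⟨univ.sup k, fun a => ?_⟩
  have h1 : k a ≤ univ.sup k := Finset.le_sup (mem_univ a)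
  obtain ⟨m, hm⟩ := Nat.exists_eq_add_of_le h1
  rw [hm, pow_add, pow_mul, hk a, one_pow]

/-- a nontrivial finite abelian group of exponent two has a nontrivial homomorphism to `ZMod 2` -/
private theorem cyg_dual {Q : Type} [CommGroup Q] (h : ∀ x : Q, x ^ 2 = 1) (x : Q) (hx : x ≠ 1) :
    ∃ F : Q → ZMod 2, (∀ a b, F (a * b) = F a + F b) ∧ F x ≠ 0 := by
  have h2 : ∀ y : Additive Q, 2 • y = 0 := fun y => h y.toMul
  let inst : Module (ZMod 2) (Additive Q) := AddCommGroup.zmodModule h2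
  have h3 : ¬ ∀ φ : Module.Dual (ZMod 2) (Additive Q), φ (Additive.ofMul x) = 0 := by
    rw [Module.forall_dual_apply_eq_zero_iff]
    intro h4
    exact hx (Additive.ofMul.injective h4)
  push Not at h3
  obtain ⟨φ, hφ⟩ := h3
  exact ⟨fun a => φ (Additive.ofMul a), fun a b => map_add φ (Additive.ofMul a) (Additive.ofMul b),
    hφ⟩

theorem tCyg : S_Cyg := by
  classical
  intro G A _ _ _ ψ g hA hc s
  obtain ⟨K, hK⟩ := cyg_exp A hA
  let B := ψ.range
  let b0 : B := ⟨ψ g, g, rfl⟩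
  let H : Subgroup B := Subgroup.zpowers b0 ⊔ (powMonoidHom 2 : B →* B).range
  have hsq : ∀ x : B ⧸ H, x ^ 2 = 1 := by
    intro x
    induction x using QuotientGroup.induction_on with
    | H x =>
      rw [← QuotientGroup.mk_pow, QuotientGroup.eq_one_iff]
      exact Subgroup.mem_sup_right ⟨x, rfl⟩
  have htop : ∀ b : B, b ∈ H := by
    intro b
    by_contra hb
    have hb' : (QuotientGroup.mk b : B ⧸ H) ≠ 1 := by
      rwa [Ne, QuotientGroup.eq_one_iff]
    obtain ⟨F, hF1, hF2⟩ := cyg_dual hsq _ hb'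
    have hF0 : F 1 = 0 := by
      have := hF1 1 1
      rw [mul_one] at this
      simpa using this
    let c : A → ZMod 2 := fun a => if h : a ∈ ψ.range then F (QuotientGroup.mk ⟨a, h⟩) else 0
    have hcv : ∀ t : G, c (ψ t) = F (QuotientGroup.mk ⟨ψ t, t, rfl⟩) := by
      intro t
      have : ψ t ∈ ψ.range := ⟨t, rfl⟩
      simp only [c, this, dif_pos]
    have h1 := hc c (by
      intro s t
      rw [hcv, hcv, hcv, ← hF1, ← QuotientGroup.mk_mul]
      congr 2
      exact Subtype.ext (map_mul ψ s t)) (by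
      rw [hcv]
      have : (QuotientGroup.mk (⟨ψ g, g, rfl⟩ : B) : B ⧸ H) = 1 := by
        rw [QuotientGroup.eq_one_iff]
        exact Subgroup.mem_sup_left (Subgroup.mem_zpowers b0)
      rw [this, hF0])
    obtain ⟨t, ht⟩ := b.2
    have h2 := h1 t
    rw [hcv] at h2
    apply hF2
    have h3 : b = ⟨ψ t, t, rfl⟩ := Subtype.ext ht.symm
    rw [h3]
    exact h2
  have hstep : ∀ b : B, ∃ (n : ℤ) (x : B), b = b0 ^ n * x ^ 2 := by
    intro b
    obtain ⟨y, hy, z, hz, hyz⟩ := Subgroup.mem_sup.mp (htop b)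
    obtain ⟨n, rfl⟩ := Subgroup.mem_zpowers_iff.mp hy
    obtain ⟨x, rfl⟩ := hz
    exact ⟨n, x, hyz.symm⟩
  have hall : ∀ (k : ℕ) (b : B), ∃ (n : ℤ) (x : B), b = b0 ^ n * x ^ 2 ^ k := by
    intro k
    induction k with
    | zero =>
      intro b
      exact ⟨0, b, by simp⟩
    | succ k ih =>
      intro b
      obtain ⟨n, x, hx⟩ := ih b
      obtain ⟨m, y, hy⟩ := hstep x
      refine ⟨n + m * 2 ^ k, y, ?_⟩
      rw [hx, hy, mul_pow, ← pow_mul, ← mul_assoc, pow_succ' 2 k]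
      congr 1
      rw [zpow_add, zpow_mul]
      congr 1
      exact_mod_cast (zpow_natCast (b0 ^ m) (2 ^ k)).symm
  obtain ⟨n, x, hx⟩ := hall K ⟨ψ s, s, rfl⟩
  have h1 : ψ s = ψ g ^ n := by
    have h2 := congrArg (Subtype.val) hx
    have h3 : ((b0 ^ n * x ^ 2 ^ K : B) : A) = ψ g ^ n * (x : A) ^ 2 ^ K := by
      push_cast
      rfl
    rw [h3, hK, mul_one] at h2
    exact h2
  have h2 : ψ s ∈ Subgroup.zpowers (ψ g) := by
    rw [h1]
    exact Subgroup.zpow_mem_zpowers _ _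
  rw [← mem_powers_iff_mem_zpowers] at h2
  obtain ⟨j, hj⟩ := h2
  exact ⟨j, hj.symm⟩

end Pool.Agent.MP72S.C
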