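import Pool.Agent.Lib.MP_72e2e6_nt.Sm.C.SpecA

set_option autoImplicit false

namespace Pool.Agent.MP72S.C

open Finset Filter Topology

private lemma dga_key (n : ℕ) (α : ℤ_[2]) :
    ((dg n α : ℕ) : ZMod (2 ^ n)) = PadicInt.toZModPow n α := by
  unfold dg
  have : NeZero (2 ^ n) := ⟨by positivity⟩
  exact ZMod.natCast_zmod_val _

private lemma dga_smulZ {A : Type} [AddCommGroup A] {n : ℕ} {x : A} (hx : 2 ^ n • x = 0) {k l : ℤ}
    (h : (k : ZMod (2 ^ n)) = l) : k • x = l • x := by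
  have h1 : ((2 ^ n : ℕ) : ℤ) ∣ k - l := by
    rw [← ZMod.intCast_zmod_eq_zero_iff_dvd]
    push_cast
    rw [h, sub_self]
  obtain ⟨c, hc⟩ := h1
  have h2 : k = l + c * ((2 ^ n : ℕ) : ℤ) := by linarith
  rw [h2, add_zsmul, mul_smul, natCast_zsmul, hx, smul_zero, add_zero]

private lemma dga_smul {A : Type} [AddCommGroup A] {n : ℕ} {x : A} (hx : 2 ^ n • x = 0) {k l : ℕ}
    (h : (k : ZMod (2 ^ n)) = l) : k • x = l • x := by
  have := dga_smulZ hx (k := (k : ℤ)) (l := (l : ℤ)) (by push_cast; exact h)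
  rwa [natCast_zsmul, natCast_zsmul] at this

private lemma dga_lim (c : ℕ → ℕ) (hc : ∀ n, c (n + 1) ≡ c n [MOD 2 ^ n]) :
    ∃ δ : ℤ_[2], ∀ n, dg n δ ≡ c n [MOD 2 ^ n] := by
  have hmono : ∀ n k, c (n + k) ≡ c n [MOD 2 ^ n] := by
    intro n k
    induction k with
    | zero => exact Nat.ModEq.refl _
    | succ k ih =>
      have h1 := (hc (n + k)).of_dvd (pow_dvd_pow 2 (Nat.le_add_right n k))
      exact (show c (n + (k + 1)) ≡ c (n + k) [MOD 2 ^ n] from h1).trans ih
  have hnorm : ∀ n m, n ≤ m → ‖(c m : ℤ_[2]) - (c n : ℤ_[2])‖ ≤ ((2 : ℕ) : ℝ) ^ (-(n : ℤ)) := by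
    intro n m hnm
    obtain ⟨k, rfl⟩ := Nat.exists_eq_add_of_le hnm
    rw [PadicInt.norm_le_pow_iff_mem_span_pow, ← PadicInt.ker_toZModPow, RingHom.mem_ker, map_sub,
      map_natCast, map_natCast, sub_eq_zero]
    exact (ZMod.natCast_eq_natCast_iff _ _ _).mpr (hmono n k)
  have hcau : CauchySeq fun n => (c n : ℤ_[2]) := by
    refine cauchySeq_of_le_geometric (1 / 2) 1 (by norm_num) (fun n => ?_)
    rw [dist_comm, dist_eq_norm]
    refine (hnorm n (n + 1) (Nat.le_succ n)).trans (le_of_eq ?_)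
    rw [zpow_neg, zpow_natCast, one_mul, one_div, inv_pow]
    norm_num
  obtain ⟨δ, hδ⟩ := cauchySeq_tendsto_of_complete hcau
  refine ⟨δ, fun n => ?_⟩
  rw [← ZMod.natCast_eq_natCast_iff, dga_key]
  have h1 : ‖δ - (c n : ℤ_[2])‖ ≤ ((2 : ℕ) : ℝ) ^ (-(n : ℤ)) := by
    refine le_of_tendsto ((hδ.sub_const (c n : ℤ_[2])).norm) ?_
    filter_upwards [eventually_ge_atTop n] with m hm
    exact hnorm n m hm
  rw [PadicInt.norm_le_pow_iff_mem_span_pow, ← PadicInt.ker_toZModPow, RingHom.mem_ker, map_sub,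
    map_natCast, sub_eq_zero] at h1
  exact h1

theorem tDga : S_Dga := by
  refine ⟨?_, ?_, dga_lim, ?_⟩
  · intro A _ n x hx α β
    refine ⟨?_, ?_, ?_, ?_, ?_, ?_⟩
    · rw [← add_nsmul]
      apply dga_smul hx
      push_cast
      rw [dga_key, dga_key, dga_key, map_add]
    · rw [smul_smul]
      apply dga_smul hx
      push_cast
      rw [dga_key, dga_key, dga_key, map_mul]
    · intro k
      apply dga_smul hx
      rw [dga_key, map_natCast]
    · intro k
      rw [← natCast_zsmul]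
      apply dga_smulZ hx
      push_cast
      rw [dga_key, map_intCast]
    · have h : dg n 1 • x = 1 • x := by
        apply dga_smul hx
        rw [dga_key, map_one, Nat.cast_one]
      rw [h, one_nsmul]
    · intro m hm
      apply dga_smul hx
      rw [dga_key]
      unfold dg
      rw [ZMod.natCast_val, PadicInt.cast_toZModPow n m hm]
  · intro α β h
    apply PadicInt.ext_of_toZModPow.mp
    intro n
    rw [← dga_key, ← dga_key]
    exact (ZMod.natCast_eq_natCast_iff _ _ _).mpr (h n)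
  · intro n α
    unfold dg
    have : NeZero (2 ^ n) := ⟨by positivity⟩
    exact ZMod.val_lt _

end Pool.Agent.MP72S.C
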