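import Pool.Agent.Lib.MP_72e2e6_nt.Sm.C.SpecA

/-!
# MP_72e2e6_nt, `Sm`, block C: the multiplier is `1` modulo four (helper34)
-/

set_option autoImplicit false

namespace Pool.Agent.MP72S.C

/-- **Dl4.** -/
theorem tDl4 (h1 : S_Dga) (h2 : S_Bs2) (h3 : S_WPb) (_h4 : S_Dlt) : S_Dl4 := by
  intro N R G _ _ _ _ _ hf e E hN hR he hE s ht hs hr δ hδ
  obtain ⟨⟨u, w, hB⟩, -, hb⟩ := h2 N hN
  obtain ⟨b1, -, -, -, -⟩ := hb u w hB
  obtain ⟨w1, -, w3, w4, w5⟩ := h3 N R hf e E hN hR he hE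
  obtain ⟨-, w6, -⟩ := w5 u w hB
  have hx : 2 ^ 2 • u 2 = 0 := (b1 2).1
  have hy : 2 ^ 2 • w 2 = 0 := (b1 2).2
  obtain ⟨x, hxe⟩ : ∃ x, x = u 2 := ⟨_, rfl⟩
  obtain ⟨y, hye⟩ : ∃ y, y = w 2 := ⟨_, rfl⟩
  rw [← hxe] at hx
  rw [← hye] at hy
  have h4' : ∀ z : N, 2 ^ 2 • z = 0 → 4 • z = 0 := fun z hz => by
    simpa using hz
  have h22 : ∀ z : N, 2 ^ 2 • z = 0 → 2 • (2 • z) = 0 := fun z hz => by
    rw [smul_smul]
    simpa using hz
  -- the differences have order at most two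
  have key : ∀ z : N, 2 ^ 2 • z = 0 → 2 • (s • z - z) = 0 := by
    intro z hz
    have h5 := ht (2 • z) (h22 z hz)
    have h6 : 2 • (s • z) = s • (2 • z) := by rw [two_nsmul, two_nsmul, smul_add]
    rw [smul_sub, h6, h5, sub_self]
  have up : ∀ z : N, 2 • z = 0 → 2 ^ 2 • z = 0 := by
    intro z hz
    rw [show (2 ^ 2 : ℕ) = 2 * 2 by norm_num, mul_smul, hz, smul_zero]
  obtain ⟨x', hx'⟩ : ∃ x', x' = s • x - x := ⟨_, rfl⟩
  obtain ⟨y', hy'⟩ : ∃ y', y' = s • y - y := ⟨_, rfl⟩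
  have kx : 2 • x' = 0 := hx' ▸ key x hx
  have ky : 2 • y' = 0 := hy' ▸ key y hy
  have sx : s • x = x + x' := by rw [hx']; abel
  have sy : s • y = y + y' := by rw [hy']; abel
  have p1 : 2 ^ 1 • x' = 0 := by simpa using kx
  have p2 : 2 ^ 1 • y' = 0 := by simpa using ky
  have e1 : E 2 x' y = E 1 x' (2 • y) := w3 1 x' y p1 (by simpa using hy)
  have e2 : E 2 x y' = E 1 (2 • x) y' := hE.two 1 x y' (by simpa using hx) p2
  have e3 : E 2 x' y' = 0 := by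
    have h5 : E 2 x' y' = E 1 x' (2 • y') := w3 1 x' y' p1 (by simpa using up y' ky)
    rw [h5, ky]
    have h6 := w1 1 0 0 x' (by simp) (by simp) p1
    rw [add_zero] at h6
    exact left_eq_add.1 h6
  have e4 : E 1 x' (2 • y) + E 1 (2 • x) y' = 0 := by
    rw [hE.one x' (2 • y) kx (h22 y hy), hE.one (2 • x) y' (h22 x hx) ky, hx', hy',
      hs x y (h4' x hx) (h4' y hy)]
    split_ifs
    · simp
    · rw [← two_nsmul]
      exact (hR.two hf).2 (Or.inr rfl)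
  have sum : E 2 (s • x) (s • y) = E 2 x y := by
    rw [sx, sy, hE.add 2 x x' (y + y') hx (up x' kx) (by rw [smul_add, hy, up y' ky, add_zero]),
      w1 2 y y' x hy (up y' ky) hx, w1 2 y y' x' hy (up y' ky) (up x' kx), e1, e2, e3, add_zero]
    have h5 : E 2 x y + E 1 (2 • x) y' + E 1 x' (2 • y) =
        E 2 x y + (E 1 x' (2 • y) + E 1 (2 • x) y') := by abel
    rw [h5, e4, add_zero]
  have h5 := hδ 2 x y hx hy
  have h6 : 2 ^ 2 • E 2 x y = 0 := w4 2 x y hx hy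
  rw [sum, hr _ (by simpa using h6), hxe, hye] at h5
  have h7 : (((dg 2 δ : ℕ) : ℤ) - 1) • E 2 (u 2) (w 2) = 0 := by
    rw [sub_smul, natCast_zsmul, one_smul, ← h5, sub_self]
  have h8 := (w6 2 _).1 h7
  have h9 := h1.2.2.2 2 δ
  have h10 : dg 2 δ < 4 := by simpa using h9
  have h11 : (4 : ℤ) ∣ (dg 2 δ : ℤ) - 1 := by simpa using h8
  omega

end Pool.Agent.MP72S.C
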