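import Pool.Agent.Lib.MP_72e2e6_nt.Sm.C.SpecA

/-!
# MP_72e2e6_nt, `Sm/C`: the multiplier on inertia
-/

set_option autoImplicit false

namespace Pool.Agent.MP72S.C

open Finset

private theorem dtt_ne {δ : ℤ_[2]} (h : dg 2 δ = 1) : δ ≠ 0 := by
  rintro rfl
  unfold dg at h
  rw [map_zero, ZMod.val_zero] at h
  exact zero_ne_one h

theorem tDtt (_h1 : S_Dga) (h2 : S_Tfr) (h3 : S_Dlt) : S_Dtt := by
  intro N R G _ _ _ _ _ hf e E hN hR he hE hdg t f q hq hrel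
  obtain ⟨d1, d2, d3, -, d5⟩ := h3 N R G hf e E hN hR he hE
  obtain ⟨δ, hδ⟩ := d1 t
  obtain ⟨φ, hφ⟩ := d1 f
  have hone : IsDl E (1 : G) 1 := by
    rw [d5]
    intro m x y _ _
    rw [one_smul, one_smul, one_smul]
  have hpow : ∀ k : ℕ, IsDl E (t ^ k) (δ ^ k) := by
    intro k
    induction k with
    | zero => rw [pow_zero, pow_zero]; exact hone
    | succ k ih => rw [pow_succ, pow_succ]; exact d3 _ _ _ _ ih hδ
  have e1 := d3 _ _ _ _ hφ hδ
  have e2 := d3 _ _ _ _ (hpow q) hφ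
  rw [hrel] at e1
  have e3 := d2 _ _ _ e1 e2
  have hφ0 := dtt_ne (hdg f φ hφ)
  have hδ0 := dtt_ne (hdg t δ hδ)
  have e4 : δ = δ ^ q := by
    apply mul_left_cancel₀ hφ0
    rw [e3, mul_comm]
  have e5 : δ ^ (q - 1) = 1 := by
    apply mul_left_cancel₀ hδ0
    rw [mul_one, ← pow_succ', Nat.sub_add_cancel hq.le]
    exact e4.symm
  have e6 := h2 δ (hdg t δ hδ) (q - 1) (by omega) e5
  rw [← e6]
  exact hδ

end Pool.Agent.MP72S.C
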