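import Pool.Agent.Lib.MP_72e2e6_nt.Sm.C.SpecC

/-!
# MP_72e2e6_nt, `Sm`, block C: module Dvn (divisibility; the group `N` has rank two)
-/

set_option autoImplicit false

namespace Pool.Agent.MP72S.C

open Finset WeierstrassCurve Pool.Agent.MP72W

open scoped Classical

theorem tDvn (hG : S_Grp) (hV : S_Vee) (hH : S_Hal) : S_Dvn := by
  intro K _ a L _ _ hyp hq
  obtain ⟨g1, g2, g3, g4, g5, g6, g7, g8, g9⟩ := hG K a L hyp
  obtain ⟨v1, v2, v3, v4, v5, v6, v7, v8, v9, v10, v11⟩ := hV K a L hyp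
  have hdv : ∀ P : PA a L, ∃ Q : PA a L, Q + Q = P := by
    intro P
    rcases g1 P with rfl | ⟨x, y, hP⟩
    · exact ⟨0, add_zero 0⟩
    · choose r hr using fun i : Fin 3 => hq (x - al a L i)
      have hy := (g2 P x y hP).2.2.2
      have h1 : (r 0 * r 1 * r 2) ^ 2 = y ^ 2 := by
        rw [hy, mul_pow, mul_pow, hr, hr, hr]
      rcases sq_eq_sq_iff_eq_or_eq_neg.1 h1 with h2 | h2
      · obtain ⟨Q, -, h3, -⟩ := hH K a L hyp P x y hP r hr h2
        exact ⟨Q, h3⟩
      · have h4 : ∀ i, (fun i => - r i) i ^ 2 = x - al a L i := by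
          intro i
          change (- r i) ^ 2 = _
          rw [neg_sq, hr]
        have h5 : (fun i => - r i) 0 * (fun i => - r i) 1 * (fun i => - r i) 2 = y := by
          change (- r 0) * (- r 1) * (- r 2) = y
          linear_combination -h2
        obtain ⟨Q, -, h3, -⟩ := hH K a L hyp P x y hP (fun i => - r i) h4 h5
        exact ⟨Q, h3⟩
  refine ⟨hdv, ?_, ?_, ?_⟩
  · intro x
    obtain ⟨n, hn⟩ := pt_mem x
    exact ⟨n, pt_inj (by rw [pt_nsmul, hn, pt_zero])⟩
  · intro x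
    obtain ⟨Q, hQ⟩ := hdv (pt x)
    obtain ⟨n, hn⟩ := pt_mem x
    have hQn : ∃ n : ℕ, 2 ^ n • Q = 0 := ⟨n + 1, by
      rw [pow_succ, mul_nsmul', two_nsmul, hQ, hn]⟩
    refine ⟨mkN Q hQn, pt_inj ?_⟩
    rw [pt_nsmul, pt_mkN, two_nsmul, hQ]
  · have hee : ∀ i, ∃ n : ℕ, 2 ^ n • (ee a i : PA a L) = 0 := fun i => ⟨1, by
      rw [pow_one, two_nsmul]
      exact (v2 _).2 (Or.inr ⟨i, rfl⟩)⟩
    let F : Option (Fin 3) → {x : NN a L // 2 • x = 0} := fun o =>
      match o with
      | none => ⟨0, smul_zero _⟩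
      | some i => ⟨mkN (ee a i) (hee i), pt_inj (by
          rw [pt_nsmul, pt_mkN, two_nsmul, pt_zero]
          exact (v2 _).2 (Or.inr ⟨i, rfl⟩))⟩
    have hF : Function.Bijective F := by
      constructor
      · rintro (_ | i) (_ | j) h
        · rfl
        · exact absurd (congrArg (fun z : {x : NN a L // 2 • x = 0} => pt z.1) h).symm (v3 j)
        · exact absurd (congrArg (fun z : {x : NN a L // 2 • x = 0} => pt z.1) h) (v3 i)
        · have h1 : (ee a i : PA a L) = ee a j :=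
            congrArg (fun z : {x : NN a L // 2 • x = 0} => pt z.1) h
          rw [v4 i j h1]
      · rintro ⟨x, hx⟩
        have h1 : pt x + pt x = 0 := by
          rw [← two_nsmul, ← pt_nsmul, hx, pt_zero]
        rcases (v2 (pt x)).1 h1 with h2 | ⟨i, h2⟩
        · exact ⟨none, Subtype.ext (pt_inj h2.symm)⟩
        · exact ⟨some i, Subtype.ext (pt_inj h2.symm)⟩
    rw [← Nat.card_congr (Equiv.ofBijective F hF), Nat.card_eq_fintype_card]
    rfl

end Pool.Agent.MP72S.C
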