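import Pool.Agent.Lib.MP_72e2e6_nt.Sm.C.SpecA

/-!
# MP_72e2e6_nt, `Sm`, block C: roots of unity of order four are fixed, `δ = 1` modulo four and on inertia (helper34)
-/

set_option autoImplicit false

namespace Pool.Agent.MP72S.C

/-- **Gl1.** -/
theorem tGl1 (_h1 : S_Dga) (_h2 : S_Tfr) (h3 : S_Bs1) (_h4 : S_Dlt) (h5 : S_Dl4) (h6 : S_Dtt) :
    S_Gl1 := by
  classical
  intro G N P R _ _ _ _ _ _ D hf E hA hR hE hact htau hphi hq hd
  have hN : P2 N := ⟨hA.prim, hA.dvs, hA.four⟩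
  have he : PV D.e := ⟨hA.e_add, hA.e_sym, hA.e_alt, hA.e_nd⟩
  obtain ⟨⟨z, hz⟩, hb⟩ := h3 R hf hR
  obtain ⟨b1, b2, b3, -, -⟩ := hb z hz
  have hhf : 2 • hf = 0 := (hR.two hf).2 (Or.inr rfl)
  have z2 : 2 • z 2 = hf := by
    rw [← b1]
    exact hz.zs 1
  have z4 : 4 • z 2 = 0 := by simpa using b2 2
  have two_smul' : ∀ (σ : G) (r : R), 2 • (σ • r) = σ • (2 • r) := fun σ r => by
    rw [two_nsmul, two_nsmul, smul_add]
  have sf : ∀ σ : G, σ • hf = hf := by
    intro σ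
    have e1 : 2 • (σ • hf) = 0 := by rw [two_smul', hhf, smul_zero]
    rcases (hR.two _).1 e1 with e2 | e2
    · exact absurd ((smul_eq_zero_iff_eq σ).1 e2) hR.hf0
    · exact e2
  have sz : ∀ σ : G, σ • z 2 = z 2 ∨ σ • z 2 = z 2 + hf := by
    intro σ
    have e1 : 2 • (σ • z 2 - z 2) = 0 := by
      rw [smul_sub, two_smul', z2, sf, sub_self]
    rcases (hR.two _).1 e1 with e2 | e2
    · exact Or.inl (sub_eq_zero.1 e2)
    · right
      rw [← e2]
      abel
  have hne : z 2 + hf ≠ z 2 := fun e => hR.hf0 (left_eq_add.1 e.symm)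
  have hdd : z 2 + hf + hf = z 2 := by
    rw [add_assoc, ← two_nsmul, hhf, add_zero]
  -- the character
  obtain ⟨f, hfd⟩ : ∃ f : G → ZMod 2, ∀ σ, f σ = if σ • z 2 = z 2 then 0 else 1 :=
    ⟨_, fun _ => rfl⟩
  have hch : IsCh f := by
    refine ⟨?_, ?_⟩
    · have e1 : f = (fun r : R => if r = z 2 then (0 : ZMod 2) else 1) ∘ fun σ : G => σ • z 2 := by
        funext σ
        exact hfd σ
      rw [e1]
      exact (hact (z 2)).comp _
    · intro σ τ
      rw [hfd, hfd, hfd, mul_smul]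
      rcases sz τ with e1 | e1
      · rw [e1, if_pos rfl, add_zero]
      · rw [e1, if_neg hne, smul_add, sf]
        rcases sz σ with e2 | e2
        · rw [e2, if_neg hne, if_pos rfl, zero_add]
        · rw [e2, hdd, if_pos rfl, if_neg hne]
          decide
  have hz2 : ∀ σ : G, σ • z 2 = z 2 := by
    intro σ
    have e1 := hA.uni f hch (fun v => by rw [hfd, htau, if_pos rfl]) (by
      rw [hfd, hphi, if_pos]
      have e2 := hA.q4 D.inf
      have e3 : D.nq D.inf = D.nq D.inf / 4 * 4 + 1 := by omega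
      rw [e3, add_smul, mul_smul, z4, smul_zero, zero_add, one_smul]) σ
    rw [hfd] at e1
    by_contra e2
    rw [if_neg e2] at e1
    exact absurd e1 (by decide)
  have c1 : ∀ (σ : G) (r : R), 4 • r = 0 → σ • r = r := by
    intro σ r hr
    obtain ⟨k, hk⟩ := b3 2 r (by simpa using hr)
    have e1 : σ • (k • z 2) = k • (σ • z 2) :=
      map_nsmul (DistribSMul.toAddMonoidHom R σ) k (z 2)
    rw [hk, e1, hz2]
  have c2 : ∀ (σ : G) (δ : ℤ_[2]), IsDl E σ δ → dg 2 δ = 1 := fun σ δ hδ =>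
    h5 N R G hf D.e E hN hR he hE σ (hA.tri σ) (hA.sa σ) (c1 σ) δ hδ
  refine ⟨c1, c2, fun v => ?_⟩
  obtain ⟨d, hd1, hd2⟩ := hd v
  exact h6 N R G hf D.e E hN hR he hE c2 (D.tau v) (D.phi v) (D.nq v)
    (by rw [hd2]; exact Nat.one_lt_pow (by omega) hq) (hA.rel v)

end Pool.Agent.MP72S.C
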