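import Pool.Agent.Lib.MP_72e2e6_nt.Sm.C.SpecA

/-!
# MP_72e2e6_nt, `Sm`, block C: the global argument
-/

set_option autoImplicit false

namespace Pool.Agent.MP72S.C

open Topology

private theorem tz_eq {n : ℕ} {α β : ℤ_[2]} (h : dg n α ≡ dg n β [MOD 2 ^ n]) :
    PadicInt.toZModPow n α = PadicInt.toZModPow n β := by
  have h1 := (ZMod.natCast_eq_natCast_iff _ _ _).mpr h
  rwa [dg, dg, ZMod.natCast_zmod_val, ZMod.natCast_zmod_val] at h1

private theorem unit_pow {n : ℕ} (x : (ZMod (2 ^ n))ˣ) : x ^ 2 ^ n = 1 := by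
  have h : Nat.totient (2 ^ n) ∣ 2 ^ n := by
    cases n with
    | zero => simp
    | succ n =>
      rw [Nat.totient_prime_pow_succ Nat.prime_two]
      exact ⟨2, by norm_num [pow_succ]⟩
  have h2 : ∀ m : ℕ, Nat.totient (2 ^ n) ∣ m → x ^ m = 1 := by
    rintro m ⟨k, rfl⟩
    rw [pow_mul, ZMod.pow_totient, one_pow]
  exact h2 _ h

private theorem pow_modEq {n : ℕ} (x : (ZMod (2 ^ n))ˣ) {i j : ℕ} (h : i ≡ j [MOD 2 ^ n]) :
    x ^ i = x ^ j := by
  have h1 : orderOf x ∣ 2 ^ n := orderOf_dvd_of_pow_eq_one (unit_pow x)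
  exact pow_eq_pow_iff_modEq.mpr (h.of_dvd h1)

theorem tGlo (h1 : S_Dga) (h2 : S_Tfr) (h3 : S_Bs1) (h4 : S_Bs2) (h5 : S_WPb) (h6 : S_Dlt)
    (h7 : S_Gl1) (h8 : S_Cyg) (h9 : S_Lte) : S_Glo := by
  intro G N P R _ _ _ _ _ _ D hf E hax hR hE hact htau hphi hq hd v₁ hv1
  have hN : P2 N := ⟨hax.prim, hax.dvs, hax.four⟩
  have he : PV D.e := ⟨hax.e_add, hax.e_sym, hax.e_alt, hax.e_nd⟩
  obtain ⟨hga, hgu, _, _⟩ := h1
  obtain ⟨_, g2, g3⟩ := h7 G N P R D hf E hax hR hE hact htau hphi hq hd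
  obtain ⟨d1, d2, d3, d4, d5⟩ := h6 N R G hf D.e E hN hR he hE
  obtain ⟨⟨u, w, hb⟩, _, hbb⟩ := h4 N hN
  obtain ⟨hkb, _⟩ := hbb u w hb
  obtain ⟨_, _, _, hkill, hbas⟩ := h5 N R hf D.e E hN hR he hE
  obtain ⟨z, hzdef⟩ : ∃ z : ℕ → R, z = fun m => E m (u m) (w m) := ⟨_, rfl⟩
  have hz : Ba1 z := by rw [hzdef]; exact (hbas u w hb).2.2
  have hzE : ∀ m, z m = E m (u m) (w m) := fun m => by rw [hzdef]
  obtain ⟨_, hzz⟩ := h3 R hf hR
  obtain ⟨_, hz2, _, hzk, hzc⟩ := hzz z hz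
  choose δ hδ using d1
  have κex : ∀ s : G, ∃ κ : ℤ_[2], ∀ n, s • z n = dg n κ • z n := fun s =>
    hzc (fun n => s • z n) (by rw [hz.z0, smul_zero]) (fun n => by rw [smul_comm, hz.zs])
  choose κ hκ using κex
  -- comparison of multiples of `z n`
  have cmp : ∀ (n : ℕ) (a b : ℕ), a • z n = b • z n → a ≡ b [MOD 2 ^ n] := by
    intro n a b hab
    refine Nat.modEq_iff_dvd.mpr ?_
    have : ((b : ℤ) - a) • z n = 0 := by
      rw [sub_smul, natCast_zsmul, natCast_zsmul, hab, sub_self]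
    rw [hzk] at this
    exact_mod_cast this
  have κu : ∀ (s : G) (α : ℤ_[2]), (∀ n, s • z n = dg n α • z n) → κ s = α := fun s α h =>
    hgu _ _ fun n => cmp n _ _ (by rw [← hκ s n, h n])
  have κm : ∀ s t : G, κ (s * t) = κ s * κ t := fun s t => by
    refine κu _ _ fun n => ?_
    rw [(hga R n (z n) (hz2 n) (κ s) (κ t)).2.1, mul_smul, hκ t n, smul_comm s, hκ s n,
      smul_comm]
  have κ1 : κ 1 = 1 := κu _ _ fun n => by
    rw [(hga R n (z n) (hz2 n) 0 0).2.2.2.2.1, one_smul]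
  have κtau : ∀ v, κ (D.tau v) = 1 := fun v => κu _ _ fun n => by
    rw [(hga R n (z n) (hz2 n) 0 0).2.2.2.2.1, htau]
  have κphi : ∀ v, κ (D.phi v) = (D.nq v : ℤ_[2]) := fun v => κu _ _ fun n => by
    rw [(hga R n (z n) (hz2 n) 0 0).2.2.1, hphi]
  have δm : ∀ s t : G, δ (s * t) = δ s * δ t := fun s t =>
    d2 _ _ _ (hδ _) (d3 _ _ _ _ (hδ s) (hδ t))
  have δ1 : δ 1 = 1 := d2 _ _ _ (hδ _) ((d5 1).mpr fun m x y _ _ => by
    rw [one_smul, one_smul, one_smul])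
  have δtau : ∀ v, δ (D.tau v) = 1 := fun v => d2 _ _ _ (hδ _) (g3 v)
  have δv1 : δ (D.phi v₁) = 1 := d2 _ _ _ (hδ _) hv1
  -- the main congruence
  have main : ∀ (n M : ℕ) (s : G), ∃ j : ℕ,
      PadicInt.toZModPow n (δ s) = PadicInt.toZModPow n (δ (D.phi D.inf)) ^ j ∧
      PadicInt.toZModPow M (κ s) = PadicInt.toZModPow M (κ (D.phi D.inf)) ^ j := by
    intro n M s
    let ψ1 : G →* ZMod (2 ^ n) :=
      { toFun := fun s => PadicInt.toZModPow n (δ s)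
        map_one' := by rw [δ1, map_one]
        map_mul' := fun s t => by rw [δm, map_mul] }
    let ψ2 : G →* ZMod (2 ^ M) :=
      { toFun := fun s => PadicInt.toZModPow M (κ s)
        map_one' := by rw [κ1, map_one]
        map_mul' := fun s t => by rw [κm, map_mul] }
    let ψ : G →* (ZMod (2 ^ n))ˣ × (ZMod (2 ^ M))ˣ :=
      (MonoidHom.toHomUnits ψ1).prod (MonoidHom.toHomUnits ψ2)
    have hψ1 : ∀ s, ((ψ s).1 : ZMod (2 ^ n)) = PadicInt.toZModPow n (δ s) := fun s => rfl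
    have hψ2 : ∀ s, ((ψ s).2 : ZMod (2 ^ M)) = PadicInt.toZModPow M (κ s) := fun s => rfl
    have hext : ∀ s t, PadicInt.toZModPow n (δ s) = PadicInt.toZModPow n (δ t) →
        PadicInt.toZModPow M (κ s) = PadicInt.toZModPow M (κ t) → ψ s = ψ t := by
      intro s t e1 e2
      refine Prod.ext (Units.ext ?_) (Units.ext ?_)
      · rw [hψ1, hψ1, e1]
      · rw [hψ2, hψ2, e2]
    have hlc : IsLocallyConstant ψ := by
      rw [IsLocallyConstant.iff_eventually_eq]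
      intro s
      have a1 := (IsLocallyConstant.iff_eventually_eq _).mp (hax.act (u n)) s
      have a2 := (IsLocallyConstant.iff_eventually_eq _).mp (hax.act (w n)) s
      have a3 := (IsLocallyConstant.iff_eventually_eq _).mp (hact (z n)) s
      have a4 := (IsLocallyConstant.iff_eventually_eq _).mp (hact (z M)) s
      filter_upwards [a1, a2, a3, a4] with t b1 b2 b3 b4
      refine hext t s (tz_eq ?_) (tz_eq (cmp M _ _ (by rw [← hκ, ← hκ, b4])))
      have c1 := hδ t n (u n) (w n) (hkb n).1 (hkb n).2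
      have c2 := hδ s n (u n) (w n) (hkb n).1 (hkb n).2
      rw [b1, b2, ← hzE, b3, c2, ← hzE] at c1
      refine cmp n _ _ ?_
      have c3 := congrArg (fun r => s⁻¹ • r) c1
      rw [smul_comm, inv_smul_smul, smul_comm, inv_smul_smul] at c3
      exact c3.symm
    have h := h8 G ((ZMod (2 ^ n))ˣ × (ZMod (2 ^ M))ˣ) ψ (D.phi D.inf) ?_ ?_ s
    · obtain ⟨j, hj⟩ := h
      refine ⟨j, ?_, ?_⟩
      · rw [← hψ1, ← hψ1, hj, Prod.pow_fst, Units.val_pow_eq_pow_val]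
      · rw [← hψ2, ← hψ2, hj, Prod.pow_snd, Units.val_pow_eq_pow_val]
    · intro a
      refine ⟨n + M, ?_⟩
      refine Prod.ext ?_ ?_
      · rw [Prod.pow_fst, pow_add, pow_mul, unit_pow, one_pow, Prod.fst_one]
      · rw [Prod.pow_snd, pow_add, mul_comm, pow_mul, unit_pow, one_pow, Prod.snd_one]
    · intro c hc hc0
      have hch : IsCh fun s => c (ψ s) := ⟨hlc.comp c, hc⟩
      have hc1 : c (ψ 1) = 0 := by
        have := hc 1 1
        rw [one_mul] at this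
        exact left_eq_add.mp this
      refine hax.uni (fun s => c (ψ s)) hch (fun v => ?_) hc0
      have : ψ (D.tau v) = ψ 1 := hext _ _ (by rw [δtau, δ1]) (by rw [κtau, κ1])
      rw [this, hc1]
  -- the unit `w`
  have hw : ∀ n : ℕ, ∃ x : (ZMod (2 ^ n))ˣ,
      (x : ZMod (2 ^ n)) = PadicInt.toZModPow n (δ (D.phi D.inf)) := by
    intro n
    have hinv : δ (D.phi D.inf) * δ (D.phi D.inf)⁻¹ = 1 := by rw [← δm, mul_inv_cancel, δ1]
    exact ⟨Units.mkOfMulEqOne _ (PadicInt.toZModPow n (δ (D.phi D.inf)⁻¹))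
      (by rw [← map_mul, hinv, map_one]), rfl⟩
  obtain ⟨c, hc⟩ := h9 (D.nq D.inf) (hax.q4 _) hq
  obtain ⟨d, hd1, hdq⟩ := hd v₁
  have hwd : δ (D.phi D.inf) ^ d = 1 := by
    refine PadicInt.ext_of_toZModPow.mp fun n => ?_
    obtain ⟨j, j1, j2⟩ := main n (n + c) (D.phi v₁)
    rw [κphi, κphi, hdq, ← map_pow, ← Nat.cast_pow, map_natCast, map_natCast,
      ZMod.natCast_eq_natCast_iff] at j2
    have j3 := hc n _ _ j2
    obtain ⟨x, hx⟩ := hw n
    rw [map_pow, map_one, ← hx, ← Units.val_pow_eq_pow_val, pow_modEq x j3,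
      Units.val_pow_eq_pow_val, hx, ← j1, δv1, map_one]
  have hw1 : δ (D.phi D.inf) = 1 := h2 _ (g2 _ _ (hδ _)) d hd1 hwd
  intro σ
  have : δ σ = 1 := by
    refine PadicInt.ext_of_toZModPow.mp fun n => ?_
    obtain ⟨j, j1, _⟩ := main n 0 σ
    rw [j1, hw1, map_one, one_pow]
  rw [← this]
  exact hδ σ

end Pool.Agent.MP72S.C
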