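import Pool.Agent.Lib.MP_72e2e6_nt.Sm.C.SpecC

/-! # MP_72e2e6_nt, `Sm`, block C: good places, inertia acts trivially -/

set_option autoImplicit false

namespace Pool.Agent.MP72S.C

open Finset WeierstrassCurve Pool.Agent.MP72W

open scoped Classical

theorem tGoo (hG : S_Grp) (hV : S_Vee) (hR : S_Rrq) (hA : S_Acp) (hP : S_Ppr) : S_Goo := by
  intro K _ a L _ _ k _ t f q ν res hyp hp hgood
  obtain ⟨g1, g2, -, g4, -⟩ := hG K a L hyp
  obtain ⟨v1, v2, -⟩ := hV K a L hyp
  obtain ⟨a1, -, a3, a4, -, a6⟩ := hA K a L hyp t
  obtain ⟨-, p2, p3, -, p5, -, -, -, -, -, -, -, -, p14, p15⟩ := hP K L k t f q ν res hp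
  have hfixa : ∀ i, t (al a L i) = al a L i := fun i => t.commutes (a i)
  have main : ∀ n : ℕ, ∀ P : PA a L, 2 ^ n • P = 0 →
      act a t P = P ∧ (P + P ≠ 0 → ∀ i, ν (px P - al a L i) = 0) := by
    intro n
    induction n with
    | zero =>
      intro P hPn
      have h0 : P = 0 := by simpa using hPn
      rw [h0]
      exact ⟨map_zero _, fun h => absurd (add_zero 0) h⟩
    | succ n ih =>
      intro P hPn
      by_cases h2 : P + P = 0
      · exact ⟨a6 P h2, fun h => absurd h2 h⟩
      obtain ⟨ih1, ih2⟩ := ih (P + P) (by rw [← two_nsmul, ← mul_nsmul', ← pow_succ]; exact hPn)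
      obtain ⟨-, -, r3, -, r5, r6, r7, -⟩ := hR K a L hyp P h2
      have hpx : t (px (P + P)) = px (P + P) := by rw [← (a3 (P + P)).1, ih1]
      have hcase : ∀ i, px (P + P) - al a L i = 0 ∨ ν (px (P + P) - al a L i) = 0 := by
        intro i
        by_cases h4 : (P + P) + (P + P) = 0
        · rcases (v2 _).1 h4 with h | ⟨j, hj⟩
          · exact absurd h h2
          · have e : px (P + P) = al a L j := by rw [hj]; exact (g2 _ _ _ (v1 j)).2.1
            rw [e]
            by_cases hij : j = i
            · left; rw [hij, sub_self]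
            · right; exact hgood j i hij
        · right; exact ih2 h4 i
      have hr0 : ∀ i, 0 ≤ ν (rr P i) := by
        intro i
        apply p14
        rw [r3]
        rcases hcase i with h | h
        · rw [h, (hp.top 0).2 rfl]; exact le_top
        · exact h.ge
      have hrt : ∀ i, t (rr P i) = rr P i := by
        intro i
        rcases hcase i with h | h
        · have h5 : rr P i = 0 := by
            have := r3 i
            rw [h] at this
            exact pow_eq_zero_iff (two_ne_zero) |>.1 this
          rw [h5, map_zero]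
        · have h5 := hp.sq (px (P + P) - al a L i) (rr P i) (r3 i)
            (by rw [map_sub, hpx, hfixa]) 0 (by rw [h]; simp)
          simpa using h5
      have hsum : ∀ i j, i ≠ j → ν (rr P i + rr P j) = 0 := by
        intro i j hij
        refine (p15 (rr P i + rr P j) (rr P i - rr P j) ?_ (p5 _ _ (hr0 i) (hr0 j)).1
          (p5 _ _ (hr0 i) (hr0 j)).2.1).1
        have e : (rr P i + rr P j) * (rr P i - rr P j) = al a L j - al a L i := by
          linear_combination r3 i - r3 j
        rw [e]
        exact hgood j i (Ne.symm hij)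
      refine ⟨?_, fun _ i => ?_⟩
      · have hP0 : P ≠ 0 := by rintro rfl; exact h2 (add_zero 0)
        obtain ⟨x, y, hxy⟩ := (g1 P).resolve_left hP0
        obtain ⟨-, hx, hy, -⟩ := g2 _ _ _ hxy
        have ex : t x = x := by
          rw [← hx, r6]
          simp only [map_add, map_mul, hrt, hpx]
        have ey : t y = y := by
          rw [← hy, r7]
          simp only [map_add, map_mul, hrt]
        have h6 := a1 P x y hxy
        rw [ex, ey] at h6
        exact g4 _ _ _ _ h6 hxy
      · rw [r5 i]
        exact p3 _ _ (hsum _ _ (by fin_cases i <;> decide)) (hsum _ _ (by fin_cases i <;> decide))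
  intro x
  obtain ⟨n, hn⟩ := pt_mem x
  exact pt_inj ((pt_smul t x).trans (main n _ hn).1)

end Pool.Agent.MP72S.C
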