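import Pool.Agent.Lib.MP_72e2e6_nt.Sm.C.SpecC

/-!
# MP_72e2e6_nt, `Sm`, block C: module Grp (the group law)
-/

set_option autoImplicit false

namespace Pool.Agent.MP72S.C

open Finset WeierstrassCurve Pool.Agent.MP72W

open scoped Classical

namespace Grp

private theorem xy_of {L : Type} [Field L] {W : WeierstrassCurve.Affine L} {P : W.Point}
    {a b x y : L} {h : W.Nonsingular a b} (hP : P = .some a b h) (hx : a = x) (hy : b = y) :
    XY P x y := by
  subst hx hy
  exact ⟨h, hP⟩

end Grp

open Grp in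
theorem tGrp : S_Grp := by
  intro K _ a L _ _ hyp
  obtain ⟨h2, hinj⟩ := hyp
  have hal : ∀ i j, al a L i = al a L j → i = j := fun i j h =>
    hinj ((algebraMap K L).injective h)
  have h01 : al a L 0 - al a L 1 ≠ 0 := sub_ne_zero.2 fun h => absurd (hal _ _ h) (by decide)
  have h02 : al a L 0 - al a L 2 ≠ 0 := sub_ne_zero.2 fun h => absurd (hal _ _ h) (by decide)
  have h12 : al a L 1 - al a L 2 ≠ 0 := sub_ne_zero.2 fun h => absurd (hal _ _ h) (by decide)
  have ha1 : ((Wa a)⁄L).toAffine.a₁ = 0 := map_zero (algebraMap K L)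
  have ha3 : ((Wa a)⁄L).toAffine.a₃ = 0 := map_zero (algebraMap K L)
  have ha2 : ((Wa a)⁄L).toAffine.a₂ = -(al a L 0 + al a L 1 + al a L 2) := by
    change algebraMap K L (-(a 0 + a 1 + a 2)) = _
    rw [map_neg, map_add, map_add]; rfl
  have ha4 : ((Wa a)⁄L).toAffine.a₄ = al a L 0 * al a L 1 + al a L 0 * al a L 2 +
      al a L 1 * al a L 2 := by
    change algebraMap K L (a 0 * a 1 + a 0 * a 2 + a 1 * a 2) = _
    rw [map_add, map_add, map_mul, map_mul, map_mul]; rfl
  have ha6 : ((Wa a)⁄L).toAffine.a₆ = -(al a L 0 * al a L 1 * al a L 2) := by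
    change algebraMap K L (-(a 0 * a 1 * a 2)) = _
    rw [map_neg, map_mul, map_mul]; rfl
  generalize hα0 : al a L 0 = α0 at *
  generalize hα1 : al a L 1 = α1 at *
  generalize hα2 : al a L 2 = α2 at *
  have hnegY : ∀ x y, ((Wa a)⁄L).toAffine.negY x y = -y := by
    intro x y
    rw [Affine.negY, ha1, ha3]
    ring
  have heq : ∀ x y, ((Wa a)⁄L).toAffine.Equation x y ↔
      y ^ 2 = (x - α0) * (x - α1) * (x - α2) := by
    intro x y
    rw [Affine.equation_iff, ha1, ha3, ha4, ha2, ha6]
    constructor <;> intro h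
    · linear_combination h
    · linear_combination h
  have hns : ∀ x y, ((Wa a)⁄L).toAffine.Equation x y →
      ((Wa a)⁄L).toAffine.Nonsingular x y := by
    intro x y h
    rw [Affine.nonsingular_iff]
    refine ⟨h, ?_⟩
    by_contra hcon
    push Not at hcon
    obtain ⟨h3, h4⟩ := hcon
    rw [ha1, ha4, ha2] at h3
    rw [ha1, ha3] at h4
    have hy2 : 2 * y = 0 := by linear_combination h4
    have hy : y = 0 := by
      rcases mul_eq_zero.1 hy2 with h5 | h5
      · exact absurd h5 h2
      · exact h5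
    have hf : (x - α0) * (x - α1) + (x - α0) * (x - α2) + (x - α1) * (x - α2) = 0 := by
      linear_combination -h3
    rw [heq, hy] at h
    have h5 : (x - α0) * (x - α1) * (x - α2) = 0 := by rw [← h]; ring
    rcases mul_eq_zero.1 h5 with h6 | h6
    · rcases mul_eq_zero.1 h6 with h7 | h7
      · have : (α0 - α1) * (α0 - α2) = 0 := by
          have hx : x = α0 := by linear_combination h7
          rw [hx] at hf
          linear_combination hf
        rcases mul_eq_zero.1 this with h8 | h8
        · exact h01 h8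
        · exact h02 h8
      · have : (α0 - α1) * (α1 - α2) = 0 := by
          have hx : x = α1 := by linear_combination h7
          rw [hx] at hf
          linear_combination -hf
        rcases mul_eq_zero.1 this with h8 | h8
        · exact h01 h8
        · exact h12 h8
    · have : (α0 - α2) * (α1 - α2) = 0 := by
        have hx : x = α2 := by linear_combination h6
        rw [hx] at hf
        linear_combination hf
      rcases mul_eq_zero.1 this with h8 | h8
      · exact h02 h8
      · exact h12 h8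
  have hadd : ∀ {x y x' y' : L} (h : ((Wa a)⁄L).toAffine.Nonsingular x y)
      (h' : ((Wa a)⁄L).toAffine.Nonsingular x' y')
      (hxy : ¬ (x = x' ∧ y = ((Wa a)⁄L).toAffine.negY x' y')) (l X : L),
      ((Wa a)⁄L).toAffine.slope x x' y y' = l → X = l ^ 2 + (α0 + α1 + α2) - x - x' →
      XY (Affine.Point.some x y h + Affine.Point.some x' y' h') X (l * (x - X) - y) := by
    intro x y x' y' h h' hxy l X hl hX
    have eX : ((Wa a)⁄L).toAffine.addX x x' (((Wa a)⁄L).toAffine.slope x x' y y') = X := by
      rw [Affine.addX, ha1, ha2, hl, hX]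
      ring
    refine xy_of (Affine.Point.add_some hxy) eX ?_
    rw [Affine.addY, hnegY, Affine.negAddY, eX, hl]
    ring
  refine ⟨?_, ?_, ?_, ?_, ?_, ?_, ?_, ?_, ?_⟩
  · rintro (_ | ⟨x, y, h⟩)
    · exact Or.inl rfl
    · exact Or.inr ⟨x, y, h, rfl⟩
  · rintro P x y ⟨h, rfl⟩
    exact ⟨Affine.Point.some_ne_zero h, rfl, rfl, (heq x y).1 h.1⟩
  · intro x y h
    exact ⟨.some x y (hns x y ((heq x y).2 h)), _, rfl⟩
  · rintro P Q x y ⟨h, rfl⟩ ⟨h', rfl⟩
    rfl
  · rintro P x y ⟨h, rfl⟩
    exact xy_of (Affine.Point.neg_some h) rfl (hnegY x y)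
  · rintro (_ | ⟨x, y, h⟩) (_ | ⟨x', y', h'⟩) hP hQ hpx
    · exact absurd rfl hP
    · exact absurd rfl hP
    · exact absurd rfl hQ
    · change x = x' at hpx
      rcases Affine.Point.X_eq_iff (h₁ := h') (h₂ := h) |>.1 hpx.symm with h3 | h3
      · exact Or.inl h3
      · exact Or.inr h3
  · rintro P Q x y x' y' l X ⟨h, rfl⟩ ⟨h', rfl⟩ hx hl hX
    refine hadd h h' (fun hh => hx hh.1) l X ?_ hX
    rw [Affine.slope_of_X_ne hx, div_eq_iff (sub_ne_zero.2 hx), hl]
  · rintro P x y l X ⟨h, rfl⟩ hy hl hX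
    have hyne : y ≠ ((Wa a)⁄L).toAffine.negY x y := by
      rw [hnegY]
      intro h3
      have h4 : 2 * y = 0 := by linear_combination h3
      rcases mul_eq_zero.1 h4 with h5 | h5
      · exact h2 h5
      · exact hy h5
    refine hadd h h (fun hh => hyne hh.2) l X ?_ ?_
    · rw [Affine.slope_of_Y_ne rfl hyne, hnegY, ha1, ha2, ha4]
      have h5 : y - -y ≠ 0 := by
        intro h6
        apply hyne
        rw [hnegY]
        linear_combination h6
      rw [div_eq_iff h5]
      linear_combination -hl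
    · rw [hX]; ring
  · rintro P x ⟨h, rfl⟩
    refine Affine.Point.add_self_of_Y_eq ?_
    rw [hnegY, neg_zero]

end Pool.Agent.MP72S.C
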