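import Pool.Agent.Lib.MP_72e2e6_nt.Sm.C.SpecC

/-!
# MP_72e2e6_nt, `Sm`, block C: module Hal (halving)
-/

set_option autoImplicit false

namespace Pool.Agent.MP72S.C

open Finset WeierstrassCurve Pool.Agent.MP72W

open scoped Classical

theorem tHal (h1 : S_Grp) : S_Hal := by
  intro K _ a L _ _ hyp P x y hP r hr hy
  obtain ⟨-, g2, g3, g4, -, -, -, g8, -⟩ := h1 K a L hyp
  obtain ⟨h2, hinj⟩ := hyp
  have hal : ∀ i j, al a L i = al a L j → i = j := fun i j h =>
    hinj ((algebraMap K L).injective h)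
  have hne : ∀ i j, i ≠ j → r i + r j ≠ 0 := by
    intro i j hij h
    apply hij
    apply hal
    have h3 : r i ^ 2 = r j ^ 2 := by linear_combination (r i - r j) * h
    rw [hr, hr] at h3
    linear_combination -h3
  have r0 := hr 0
  have r1 := hr 1
  have r2 := hr 2
  have n01 := hne 0 1 (by decide)
  have n02 := hne 0 2 (by decide)
  have n12 := hne 1 2 (by decide)
  have a0 : al a L 0 = x - r 0 ^ 2 := by rw [r0]; ring
  have a1 : al a L 1 = x - r 1 ^ 2 := by rw [r1]; ring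
  have a2 : al a L 2 = x - r 2 ^ 2 := by rw [r2]; ring
  obtain ⟨Q, hQ⟩ := g3 (x + (r 0 * r 1 + r 0 * r 2 + r 1 * r 2))
    ((r 0 + r 1) * (r 0 + r 2) * (r 1 + r 2)) (by
      rw [a0, a1, a2]
      ring)
  obtain ⟨-, hpx, hpy, -⟩ := g2 Q _ _ hQ
  have d0 : px Q - al a L 0 = (r 0 + r 1) * (r 0 + r 2) := by rw [hpx, a0]; ring
  have d1 : px Q - al a L 1 = (r 1 + r 2) * (r 1 + r 0) := by rw [hpx, a1]; ring
  have d2 : px Q - al a L 2 = (r 2 + r 0) * (r 2 + r 1) := by rw [hpx, a2]; ring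
  have n10 : r 1 + r 0 ≠ 0 := by rwa [add_comm]
  have n20 : r 2 + r 0 ≠ 0 := by rwa [add_comm]
  have n21 : r 2 + r 1 ≠ 0 := by rwa [add_comm]
  have q0 : py Q / (px Q - al a L 0) = r 1 + r 2 := by
    rw [d0, hpy, div_eq_iff (mul_ne_zero n01 n02)]; ring
  have q1 : py Q / (px Q - al a L 1) = r 2 + r 0 := by
    rw [d1, hpy, div_eq_iff (mul_ne_zero n12 n10)]; ring
  have q2 : py Q / (px Q - al a L 2) = r 0 + r 1 := by
    rw [d2, hpy, div_eq_iff (mul_ne_zero n20 n21)]; ring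
  refine ⟨Q, hQ, ?_, ?_, ?_⟩
  · have h3 := g8 Q _ _ (r 0 + r 1 + r 2) x hQ (mul_ne_zero (mul_ne_zero n01 n02) n12)
      (by rw [a0, a1, a2]; ring) (by rw [a0, a1, a2]; ring)
    apply g4 _ _ x y _ hP
    have h4 : (r 0 + r 1 + r 2) * (x + (r 0 * r 1 + r 0 * r 2 + r 1 * r 2) - x) -
        (r 0 + r 1) * (r 0 + r 2) * (r 1 + r 2) = y := by
      rw [← hy]; ring
    rw [h4] at h3
    exact h3
  · funext i
    fin_cases i
    · change (py Q / (px Q - al a L 1) + py Q / (px Q - al a L 2) -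
        py Q / (px Q - al a L 0)) / 2 = r 0
      rw [q0, q1, q2, div_eq_iff h2]; ring
    · change (py Q / (px Q - al a L 2) + py Q / (px Q - al a L 0) -
        py Q / (px Q - al a L 1)) / 2 = r 1
      rw [q0, q1, q2, div_eq_iff h2]; ring
    · change (py Q / (px Q - al a L 0) + py Q / (px Q - al a L 1) -
        py Q / (px Q - al a L 2)) / 2 = r 2
      rw [q0, q1, q2, div_eq_iff h2]; ring
  · intro i
    fin_cases i
    · exact d0
    · exact d1
    · exact d2

end Pool.Agent.MP72S.C
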