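import Pool.Agent.Lib.MP_72e2e6_nt.Sm.C.SpecC

/-!
# MP_72e2e6_nt, `Sm`, block C: module Int (the torsion points are integral)
-/

set_option autoImplicit false

namespace Pool.Agent.MP72S.C

open Finset WeierstrassCurve Pool.Agent.MP72W

open scoped Classical

theorem tInt (h1 : S_Grp) (h2 : S_Vee) (h3 : S_Rrq) (h4 : S_Ppr) : S_Int := by
  intro K _ a L _ _ k _ t f q ν res hyp hpl hint
  obtain ⟨g1, g2, -, -, -, -, -, -, -⟩ := h1 K a L hyp
  obtain ⟨v1, v2, -⟩ := h2 K a L hyp
  obtain ⟨-, -, -, -, p5, -, -, -, -, -, -, -, -, p14, -⟩ := h4 K L k t f q ν res hpl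
  have key : ∀ (n : ℕ) (P : PA a L), 2 ^ n • P = 0 → P ≠ 0 →
      ∀ i, 0 ≤ ν (px P - al a L i) := by
    intro n
    induction n with
    | zero =>
      intro P hP hne
      rw [pow_zero, one_nsmul] at hP
      exact absurd hP hne
    | succ n ih =>
      intro P hP hne i
      by_cases hPP : P + P = 0
      · obtain ⟨j, hj⟩ := ((v2 P).1 hPP).resolve_left hne
        have h := (g2 _ _ _ (v1 j)).2.1
        rw [hj, h]
        exact hint j i
      · have hn : 2 ^ n • (P + P) = 0 := by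
          rw [← two_nsmul, ← mul_nsmul', ← pow_succ]
          exact hP
        have hr := ih (P + P) hn hPP
        obtain ⟨-, -, r3, -, r5, -⟩ := h3 K a L hyp P hPP
        have hri : ∀ i, 0 ≤ ν (rr P i) := by
          intro i
          apply p14
          rw [r3 i]
          exact hr i
        rw [r5 i]
        exact (p5 _ _ (p5 _ _ (hri i) (hri (i + 1))).1 (p5 _ _ (hri i) (hri (i + 2))).1).2.2
  intro P hP hne
  obtain ⟨n, hn⟩ := hP
  have hx := key n P hn hne
  refine ⟨hx, ?_⟩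
  rcases g1 P with h | ⟨x, y, h⟩
  · exact absurd h hne
  · obtain ⟨-, e1, e2', e3⟩ := g2 _ _ _ h
    apply p14
    rw [e2', e3, ← e1]
    exact (p5 _ _ (p5 _ _ (hx 0) (hx 1)).2.2 (hx 2)).2.2

end Pool.Agent.MP72S.C
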