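import Pool.Agent.Lib.MP_72e2e6_nt.Sm.C.SpecC

/-!
# MP_72e2e6_nt, `Sm`, block C, module `LMl`: multiplicative places
-/

set_option autoImplicit false

namespace Pool.Agent.MP72S.C

open WeierstrassCurve Pool.Agent.MP72W

open scoped Classical

private theorem pt_two {K : Type} [Field K] {a : Fin 3 → K} {L : Type} [Field L] [Algebra K L]
    {x : NN a L} (h : 2 • x = 0) : pt x + pt x = 0 := by
  have h1 : pt (2 • x) = 0 := by rw [h, pt_zero]
  rwa [pt_nsmul, two_nsmul] at h1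

private theorem pt_zsmul {K : Type} [Field K] {a : Fin 3 → K} {L : Type} [Field L]
    [Algebra K L] (n : ℤ) (x : NN a L) : pt (n • x) = n • pt x := by
  cases n with
  | ofNat n => rw [Int.ofNat_eq_natCast, natCast_zsmul, natCast_zsmul, pt_nsmul]
  | negSucc n => rw [negSucc_zsmul, negSucc_zsmul, pt_neg, pt_nsmul]

private theorem pvN (h1 : S_Vee) {K : Type} [Field K] (a : Fin 3 → K) (L : Type) [Field L]
    [Algebra K L] (hH : Hyp a L) : PV (eN : NN a L → NN a L → ZMod 2) := by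
  obtain ⟨-, -, -, -, -, v6, v7, v8, -, -, v11⟩ := h1 K a L hH
  refine ⟨?_, ?_, ?_, ?_⟩
  · intro x y z hx hy hz
    exact v6 (pt x) (pt y) (pt z) (pt_two hx) (pt_two hy) (pt_two hz)
  · intro x y _ _
    exact v7 (pt x) (pt y)
  · intro x _
    exact v8 (pt x)
  · intro x hx h
    refine pt_inj ?_
    rw [pt_zero]
    refine v11 (pt x) (pt_two hx) ?_
    intro y hy
    have hm : ∃ n : ℕ, 2 ^ n • y = 0 := ⟨1, by rw [pow_one, two_nsmul, hy]⟩
    refine h (mkN y hm) ?_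
    refine pt_inj ?_
    rw [pt_nsmul, pt_mkN, two_nsmul, hy, pt_zero]

theorem tLMl (h1 : S_Vee) (h2 : S_Dvn) (h3 : S_RUp) (h4 : S_Ppr) (h5 : S_Usg) (h6 : S_Uhf)
    (h7 : S_Uac) (h8 : S_Tnt) (h9 : S_Lin) : S_LMl := by
  intro K _ a L _ _ k _ t f q ν res hH hQ hP hM E hE ht
  obtain ⟨u0, uadd, uneg, ue, -, -, -⟩ := h5 K a L k t f q ν res hH hP hM
  obtain ⟨at1, ε, hε, af⟩ := h7 K a L k t f q ν res hH hQ hP hM
  let U : AddSubgroup (NN a L) :=
    { carrier := {x | Us a ν (pt x)}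
      zero_mem' := u0
      add_mem' := fun {x y} hx hy => uadd (pt x) (pt y) hx hy
      neg_mem' := fun {x} hx => uneg (pt x) hx }
  have hru := (h4 K L k t f q ν res hP).2.2.2.2.2.2.2.2.2.2.2.1
  refine h9 (NN a L) (RU L) Gal(L/K) (hfU L) eN E (h2 K a L hH hQ).2 (h3 L hH.1 hQ)
    (pvN h1 a L hH) hE t f q hP.q1 hP.rel U ?_ ?_ ?_ ε hε ?_
    (h8 K a L k t f q ν res hH hQ hP hM) (fun r => (hru r).1) (fun r => (hru r).2) ht
  · intro x hx
    obtain ⟨Q, hQU, hQ2⟩ := h6 K a L k t f q ν res hH hQ hP hM (pt x) hx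
    refine ⟨mkN Q hQU.1, hQU, pt_inj ?_⟩
    rw [pt_nsmul, pt_mkN, two_nsmul, hQ2]
  · obtain ⟨v1, v2, v3, -⟩ := h1 K a L hH
    refine ⟨mkN (ee a 2) ue.1, ue, ?_, ?_⟩
    · intro h
      refine v3 2 ?_
      rw [← pt_zero, ← h, pt_mkN]
    · refine pt_inj ?_
      rw [pt_nsmul, pt_mkN, two_nsmul, pt_zero]
      exact (v2 _).2 (Or.inr ⟨2, rfl⟩)
  · intro x hx
    exact pt_inj (at1 (pt x) hx)
  · intro x hx
    refine pt_inj ?_
    rw [pt_smul, pt_zsmul]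
    exact af (pt x) hx

end Pool.Agent.MP72S.C
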