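import Pool.Agent.Lib.MP_72e2e6_nt.Sm.C.SpecA

/-!
# MP_72e2e6_nt, `Sm/C`: powers of `q ≡ 1` modulo four
-/

set_option autoImplicit false

namespace Pool.Agent.MP72S.C

open Finset

private theorem lte_key (q : ℕ) (hq : q % 4 = 1) (h1 : 1 < q) (n m : ℕ)
    (h : (2 : ℤ) ^ (n + multiplicity (2 : ℤ) ((q : ℤ) - 1)) ∣ (q : ℤ) ^ m - 1) :
    (2 : ℤ) ^ n ∣ (m : ℤ) := by
  have hfin : FiniteMultiplicity (2 : ℤ) ((q : ℤ) - 1) := by
    rw [Int.finiteMultiplicity_iff]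
    refine ⟨by decide, ?_⟩
    omega
  have h4 : (4 : ℤ) ∣ (q : ℤ) - 1 := by omega
  have h2 : ¬ (2 : ℤ) ∣ (q : ℤ) := by omega
  have h3 := Int.two_pow_sub_pow' (y := 1) m h4 h2
  rw [one_pow] at h3
  rw [pow_dvd_iff_le_emultiplicity, h3, hfin.emultiplicity_eq_multiplicity] at h
  rw [pow_dvd_iff_le_emultiplicity]
  push_cast at h
  rw [add_comm (n : ℕ∞)] at h
  exact (ENat.add_le_add_iff_left (ENat.natCast_ne_top _)).mp h

private theorem lte_le (q : ℕ) (hq : q % 4 = 1) (h1 : 1 < q) (n i m : ℕ)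
    (h : q ^ i ≡ q ^ (i + m) [MOD 2 ^ (n + multiplicity (2 : ℤ) ((q : ℤ) - 1))]) :
    i ≡ i + m [MOD 2 ^ n] := by
  rw [Nat.modEq_iff_dvd] at h ⊢
  push_cast at h ⊢
  have e1 : (q : ℤ) ^ (i + m) - (q : ℤ) ^ i = (q : ℤ) ^ i * ((q : ℤ) ^ m - 1) := by
    rw [pow_add]
    ring
  rw [e1] at h
  have hcop : IsCoprime ((2 : ℤ) ^ (n + multiplicity (2 : ℤ) ((q : ℤ) - 1))) ((q : ℤ) ^ i) := by
    apply IsCoprime.pow
    rw [Int.isCoprime_iff_gcd_eq_one]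
    have h5 : Int.gcd 2 (q : ℤ) = Nat.gcd 2 q := rfl
    rw [h5, Nat.coprime_two_left.mpr]
    exact Nat.odd_iff.mpr (by omega)
  have h6 := lte_key q hq h1 n m (hcop.dvd_of_dvd_mul_left h)
  have e2 : (i : ℤ) + m - i = m := by ring
  rw [e2]
  exact h6

theorem tLte : S_Lte := by
  intro q hq h1
  refine ⟨multiplicity (2 : ℤ) ((q : ℤ) - 1), ?_⟩
  intro n i j h
  rcases Nat.le_total i j with hij | hij
  · obtain ⟨m, rfl⟩ := Nat.exists_eq_add_of_le hij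
    exact lte_le q hq h1 n i m h
  · obtain ⟨m, rfl⟩ := Nat.exists_eq_add_of_le hij
    exact (lte_le q hq h1 n j m h.symm).symm

end Pool.Agent.MP72S.C
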