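import Pool.Agent.Lib.MP_72e2e6_nt.Sm.C.SpecC

/-! # MP_72e2e6_nt, `Sm`, block C: places with `ν (α i - α j) > ν (α i - α k)` -/

set_option autoImplicit false

namespace Pool.Agent.MP72S.C

open Finset WeierstrassCurve Pool.Agent.MP72W

open scoped Classical

private theorem mls_perm (i j l : Fin 3) (h1 : i ≠ j) (h2 : i ≠ l) (h3 : j ≠ l) :
    ∃ π : Equiv.Perm (Fin 3), π 0 = i ∧ π 1 = j ∧ π 2 = l := by
  have hinj : Function.Injective ![i, j, l] := by
    intro x y hxy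
    fin_cases x <;> fin_cases y <;> first | rfl | (exfalso; revert hxy; simp; tauto) | skip
  exact ⟨Equiv.ofBijective _ (Finite.injective_iff_bijective.1 hinj), rfl, rfl, rfl⟩

section

variable {K : Type} [Field K] {L : Type} [Field L] [Algebra K L] {a a' : Fin 3 → K}

private theorem mls_N (φ : PA a L ≃+ PA a' L) : ∃ Φ : NN a L ≃+ NN a' L, ∀ x, pt (Φ x) = φ (pt x) := by
  have h1 : ∀ x : NN a L, ∃ n : ℕ, 2 ^ n • φ (pt x) = 0 := by
    intro x
    obtain ⟨n, hn⟩ := pt_mem x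
    exact ⟨n, by rw [← map_nsmul, hn, map_zero]⟩
  have h2 : ∀ x : NN a' L, ∃ n : ℕ, 2 ^ n • φ.symm (pt x) = 0 := by
    intro x
    obtain ⟨n, hn⟩ := pt_mem x
    exact ⟨n, by rw [← map_nsmul, hn, map_zero]⟩
  refine ⟨⟨⟨fun x => mkN (φ (pt x)) (h1 x), fun x => mkN (φ.symm (pt x)) (h2 x), fun x => ?_,
    fun x => ?_⟩, fun x y => ?_⟩, fun x => rfl⟩
  · apply pt_inj
    rw [pt_mkN, pt_mkN, AddEquiv.symm_apply_apply]
  · apply pt_inj
    rw [pt_mkN, pt_mkN, AddEquiv.apply_symm_apply]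
  · apply pt_inj
    show φ (pt (x + y)) = φ (pt x) + φ (pt y)
    rw [pt_add, map_add]

private theorem mls_neg {N R : Type} [AddCommGroup N] [AddCommGroup R] {e : N → N → ZMod 2} {hf : R}
    {E : ℕ → N → N → R} (h : WP e hf E) {m : ℕ} {u v : N} (hu : 2 ^ m • u = 0) (hv : 2 ^ m • v = 0) :
    E m (-u) (-v) = E m u v := by
  have hz : ∀ c, 2 ^ m • c = 0 → E m 0 c = 0 := by
    intro c hc
    have := h.add m 0 0 c (smul_zero _) (smul_zero _) hc
    rw [add_zero] at this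
    exact left_eq_add.1 this
  have hn : ∀ u c, 2 ^ m • u = 0 → 2 ^ m • c = 0 → E m (-u) c = -E m u c := by
    intro u c hu hc
    have := h.add m u (-u) c hu (by rw [smul_neg, hu, neg_zero]) hc
    rw [add_neg_cancel, hz c hc] at this
    exact (neg_eq_of_add_eq_zero_right this.symm).symm
  have hv' : 2 ^ m • (-v) = 0 := by rw [smul_neg, hv, neg_zero]
  rw [hn u (-v) hu hv', h.anti m u (-v) hu hv', neg_neg, hn v u hv hu, h.anti m v u hv hu, neg_neg]

private theorem mls_WP (Φ : NN a L ≃+ NN a' L) (he : ∀ x y, eN (Φ x) (Φ y) = eN x y)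
    {E : ℕ → NN a L → NN a L → RU L} (h : WP eN (hfU L) E) :
    WP eN (hfU L) (fun m x y => E m (Φ.symm x) (Φ.symm y)) := by
  have hk : ∀ (n : ℕ) (x : NN a' L), n • x = 0 → n • Φ.symm x = 0 := by
    intro n x hx
    rw [← map_nsmul, hx, map_zero]
  refine ⟨?_, ?_, ?_, ?_, ?_, ?_⟩
  · intro m x y z hx hy hz
    show E m (Φ.symm (x + y)) (Φ.symm z) = _
    rw [map_add]
    exact h.add m _ _ _ (hk _ _ hx) (hk _ _ hy) (hk _ _ hz)
  · intro m x hx
    exact h.alt m _ (hk _ _ hx)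
  · intro m x y hx hy
    exact h.anti m _ _ (hk _ _ hx) (hk _ _ hy)
  · intro m x hx hxy
    have h1 : Φ.symm x = 0 := by
      apply h.nd m _ (hk _ _ hx)
      intro b hb
      have h2 := hxy (Φ b) (by rw [← map_nsmul, hb, map_zero])
      simpa using h2
    exact (AddEquiv.map_eq_zero_iff Φ.symm).1 h1
  · intro m x y hx hy
    have h1 := h.two m _ _ (hk _ _ hx) (hk _ _ hy)
    show E (m + 1) (Φ.symm x) (Φ.symm y) = E m (Φ.symm (2 • x)) (Φ.symm y)
    rw [h1, map_nsmul]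
  · intro x y hx hy
    have h1 := h.one _ _ (hk _ _ hx) (hk _ _ hy)
    show E 1 (Φ.symm x) (Φ.symm y) = _
    rw [h1]
    have h2 : eN (Φ.symm x) (Φ.symm y) = eN x y := by
      rw [← he]; simp
    rw [h2]

private theorem mls_Dl (Φ : NN a L ≃+ NN a' L) {E : ℕ → NN a L → NN a L → RU L}
    (h : WP eN (hfU L) E) (s : Gal(L/K))
    (hs : (∀ x, s • Φ x = Φ (s • x)) ∨ (∀ x, s • Φ x = -Φ (s • x))) :
    IsDl (fun m x y => E m (Φ.symm x) (Φ.symm y)) s 1 ↔ IsDl E s 1 := by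
  have key : ∀ m (x y : NN a L), 2 ^ m • x = 0 → 2 ^ m • y = 0 →
      E m (Φ.symm (s • Φ x)) (Φ.symm (s • Φ y)) = E m (s • x) (s • y) := by
    intro m x y hx hy
    have hsx : 2 ^ m • (s • x) = 0 := 
      (map_nsmul (DistribSMul.toAddMonoidHom (NN a L) s) (2 ^ m) x).symm.trans
        (by rw [hx]; exact map_zero _)
    have hsy : 2 ^ m • (s • y) = 0 := 
      (map_nsmul (DistribSMul.toAddMonoidHom (NN a L) s) (2 ^ m) y).symm.trans
        (by rw [hy]; exact map_zero _)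
    rcases hs with hs | hs
    · rw [hs, hs, AddEquiv.symm_apply_apply, AddEquiv.symm_apply_apply]
    · rw [hs, hs, map_neg, map_neg, AddEquiv.symm_apply_apply, AddEquiv.symm_apply_apply]
      exact mls_neg h hsx hsy
  constructor
  · intro hd m x y hx hy
    have h1 := hd m (Φ x) (Φ y) (by rw [← map_nsmul, hx, map_zero]) (by rw [← map_nsmul, hy, map_zero])
    simp only [AddEquiv.symm_apply_apply] at h1
    rw [← h1, key m x y hx hy]
  · intro hd m x y hx hy
    have hx' : 2 ^ m • Φ.symm x = 0 := by rw [← map_nsmul, hx, map_zero]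
    have hy' : 2 ^ m • Φ.symm y = 0 := by rw [← map_nsmul, hy, map_zero]
    have h1 := hd m (Φ.symm x) (Φ.symm y) hx' hy'
    have h2 := key m _ _ hx' hy'
    simp only [AddEquiv.apply_symm_apply] at h2
    show E m (Φ.symm (s • x)) (Φ.symm (s • y)) = _
    rw [h2, h1]

end

theorem tMlS (_hV : S_Vee) (hP : S_Ppr) (hT : S_Twi) (hL : S_LMl) : S_MlS := by
  intro K _ a L _ _ k _ t f q ν res hyp hQC hp i j l hij hil hjl hlt E hE hDt
  obtain ⟨p1, p2, -, -, -, -, -, -, -, -, -, -, -, -, -⟩ := hP K L k t f q ν res hp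
  obtain ⟨π, hπ0, hπ1, hπ2⟩ := mls_perm i j l hij hil hjl
  have hli : a l - a i ≠ 0 := by
    intro h
    exact hil ((hyp.2 (sub_eq_zero.1 h)).symm)
  set D : K := (a l - a i)⁻¹ with hD
  have hD0 : D ≠ 0 := inv_ne_zero hli
  set b : K := -(D * a i) with hb
  obtain ⟨δ, hδ⟩ := hQC (algebraMap K L D)
  obtain ⟨a', ha', hyp', φ, hφ3⟩ : ∃ a' : Fin 3 → K, (∀ m, a' m = D * a (π m) + b) ∧ Hyp a' L ∧
      ∃ φ : PA a L ≃+ PA a' L, ∀ s : Gal(L/K), (s δ = δ ∨ s δ = -δ) ∧
        (s δ = δ → ∀ P, act a' s (φ P) = φ (act a s P)) ∧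
        (s δ = -δ → ∀ P, act a' s (φ P) = - φ (act a s P)) := by
    obtain ⟨h1, φ, -, -, h4⟩ := hT K a L hyp D b hD0 δ hδ π
    exact ⟨_, fun _ => rfl, h1, φ, h4⟩
  obtain ⟨Φ, hΦ⟩ := mls_N φ
  have he : ∀ x y, eN (Φ x) (Φ y) = eN x y := by
    intro x y
    show e2 (pt (Φ x)) (pt (Φ y)) = e2 (pt x) (pt y)
    rw [hΦ, hΦ]
    unfold e2
    simp only [AddEquiv.map_eq_zero_iff, EmbeddingLike.apply_eq_iff_eq]
  have hs : ∀ s : Gal(L/K), (∀ x, s • Φ x = Φ (s • x)) ∨ (∀ x, s • Φ x = -Φ (s • x)) := by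
    intro s
    obtain ⟨h1, h2, h3⟩ := hφ3 s
    rcases h1 with h1 | h1
    · left
      intro x
      apply pt_inj
      rw [pt_smul, hΦ, hΦ, pt_smul]
      exact h2 h1 _
    · right
      intro x
      apply pt_inj
      rw [pt_smul, pt_neg, hΦ, hΦ, pt_smul]
      exact h3 h1 _
  have hDne : ν (algebraMap K L D) ≠ ⊤ := by
    rw [Ne, hp.top]
    exact (map_ne_zero _).2 hD0
  have hal : ∀ m n, al a' L m - al a' L n = algebraMap K L D * (al a L (π m) - al a L (π n)) := by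
    intro m n
    simp only [al, ha', map_add, map_mul]
    ring
  have hDl : ν (algebraMap K L D) + ν (al a L i - al a L l) = 0 := by
    rw [← hp.mul]
    have e : algebraMap K L D * (al a L i - al a L l) = -1 := by
      simp only [al]
      rw [← map_sub, ← map_mul, hD]
      have : (a l - a i)⁻¹ * (a i - a l) = -1 := by
        field_simp
        ring
      rw [this, map_neg, map_one]
    rw [e, p2, p1]
  have hM : Mlt a' ν := by
    constructor
    · rw [hal, hπ0, hπ1, hp.mul, ← hDl]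
      exact WithTop.add_lt_add_left hDne hlt
    · rw [hal, hπ0, hπ2, hp.mul, hDl]
  have hmain := hL K a' L k t f q ν res hyp' hQC hp hM _ (mls_WP Φ he hE)
    ((mls_Dl Φ hE t (hs t)).2 hDt)
  exact (mls_Dl Φ hE f (hs f)).1 hmain

end Pool.Agent.MP72S.C
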