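import Pool.Agent.Lib.MP_72e2e6_nt.Sm.C.SpecC

/-!
# MP_72e2e6_nt, `Sm`, block C: module Msg (the action on the points of order four)
-/

set_option autoImplicit false

namespace Pool.Agent.MP72S.C

open Finset WeierstrassCurve Pool.Agent.MP72W

open scoped Classical

private theorem fin3 : ∀ k j : Fin 3, ¬ k = j → j = k + 1 ∨ j = k + 2 := by decide

theorem tMsg (hG : S_Grp) (hV : S_Vee) (hR : S_Rrq) (hA : S_Acp) : S_Msg := by
  intro K _ a L _ _ hyp s x i j hij hx
  obtain ⟨g1, g2, g3, g4, g5, g6, g7, g8, g9⟩ := hG K a L hyp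
  obtain ⟨v1, v2, v3, v4, v5, v6, v7, v8, v9, v10, v11⟩ := hV K a L hyp
  obtain ⟨a1, a2, a3, a4, a5, a6⟩ := hA K a L hyp s
  have h2 : x + x ≠ 0 := by rw [hx]; exact v3 i
  obtain ⟨r1, r2, r3, r4, r5, r6, r7, r8, r9⟩ := hR K a L hyp x h2
  have hal : al a L i ≠ al a L j := fun h => hij (hyp.2 ((algebraMap K L).injective h))
  have hsq : rr x j ^ 2 = al a L i - al a L j := by
    rw [r3 j, hx, (g2 _ _ _ (v1 i)).2.1]
  have hne : rr x j ≠ 0 := by
    intro h
    rw [h] at hsq
    apply hal
    linear_combination -hsq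
  have htt : (act a s x - x) + (act a s x - x) = 0 := by
    have h3 : act a s x + act a s x = x + x := by rw [← map_add, hx, a4]
    have h4 : (act a s x - x) + (act a s x - x) = (act a s x + act a s x) - (x + x) := by abel
    rw [h4, h3, sub_self]
  refine ⟨htt, hsq, hne, ?_⟩
  have hsx : s (rr x j) = rr (x + (act a s x - x)) j := by
    rw [add_sub_cancel, a5]
  rcases (v2 _).1 htt with h3 | ⟨k, h3⟩
  · rw [h3, v7, v10, if_pos]
    rw [hsx, h3, add_zero]
  · by_cases hkj : k = j
    · subst hkj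
      rw [h3, v9, if_pos rfl, if_pos]
      rw [hsx, h3]
      exact (r9 k).1
    · have h4 : rr (x + ee a k) j = - rr x j := by
        have h5 : j = k + 1 ∨ j = k + 2 := fin3 k j hkj
        rcases h5 with rfl | rfl
        · exact (r9 k).2.1
        · exact (r9 k).2.2
      rw [h3, v9, if_neg hkj, if_neg]
      rw [hsx, h3, h4]
      intro h5
      have h6 : 2 * rr x j = 0 := by linear_combination -h5
      rcases mul_eq_zero.1 h6 with h7 | h7
      · exact hyp.1 h7
      · exact hne h7

end Pool.Agent.MP72S.C
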