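import Pool.Agent.Lib.MP_72e2e6_nt.Sm.C.SpecC

/-!
# MP_72e2e6_nt, `Sm`, block C, module `Nis`: existence of a place of multiplicative reduction
-/

set_option autoImplicit false

namespace Pool.Agent.MP72S.C

open Polynomial UniqueFactorizationMonoid

private theorem nf_le {F : Type} [Field F] (x y : F[X]) (hx : x ≠ 0) (hy : y ≠ 0)
    (h : ∀ P : F[X], P.Monic → Irreducible P → multiplicity P x ≤ multiplicity P y) :
    x ∣ y := by
  classical
  rw [dvd_iff_normalizedFactors_le_normalizedFactors hx hy, Multiset.le_iff_count]
  intro P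
  by_cases hP : P ∈ normalizedFactors x
  · have hirr : Irreducible P := irreducible_of_normalized_factor P hP
    have hnorm : normalize P = P := normalize_normalized_factor P hP
    have hmon : P.Monic := by
      rw [← hnorm]
      exact Polynomial.monic_normalize hirr.ne_zero
    have h1 := h P hmon hirr
    have hfx : FiniteMultiplicity P x := FiniteMultiplicity.of_not_isUnit hirr.not_isUnit hx
    have hfy : FiniteMultiplicity P y := FiniteMultiplicity.of_not_isUnit hirr.not_isUnit hy
    have h2 := emultiplicity_eq_count_normalizedFactors hirr hx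
    have h3 := emultiplicity_eq_count_normalizedFactors hirr hy
    rw [hnorm] at h2 h3
    rw [hfx.emultiplicity_eq_multiplicity] at h2
    rw [hfy.emultiplicity_eq_multiplicity] at h3
    have h4 : multiplicity P x = (normalizedFactors x).count P := by exact_mod_cast h2
    have h5 : multiplicity P y = (normalizedFactors y).count P := by exact_mod_cast h3
    omega
  · rw [Multiset.count_eq_zero_of_notMem hP]
    exact Nat.zero_le _

theorem tNis : S_Nis := by
  intro F _ a ha hn
  by_contra hcon
  push Not at hcon
  have h01 : a 0 - a 1 ≠ 0 := sub_ne_zero.2 fun h => by simpa using ha h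
  have h02 : a 0 - a 2 ≠ 0 := sub_ne_zero.2 fun h => by simpa using ha h
  have d1 : (a 0 - a 1) ∣ (a 0 - a 2) := nf_le _ _ h01 h02 fun P hP hI =>
    hcon P 0 1 2 hP hI (by decide) (by decide) (by decide)
  have d2 : (a 0 - a 2) ∣ (a 0 - a 1) := nf_le _ _ h02 h01 fun P hP hI =>
    hcon P 0 2 1 hP hI (by decide) (by decide) (by decide)
  obtain ⟨u, hu⟩ := associated_of_dvd_dvd d2 d1
  obtain ⟨c, -, hc⟩ := Polynomial.isUnit_iff.1 u.isUnit
  refine hn 0 1 2 (by decide) (by decide) (by decide) c (a 0 - a 2) ?_
  rw [← hu, ← hc]
  ring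

end Pool.Agent.MP72S.C
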