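import Pool.Agent.Lib.MP_72e2e6_nt.Sm.C.SpecC

/-!
# MP_72e2e6_nt, `Sm`, block C, module `Ppr`: properties of places
-/

set_option autoImplicit false

namespace Pool.Agent.MP72S.C

/-! ### arithmetic of `WithTop ℚ` -/

private theorem wdbl {u : WithTop ℚ} (h : u + u = 0) : u = 0 := by
  induction u using WithTop.recTopCoe with
  | top => simp at h
  | coe c =>
    norm_cast at h ⊢
    linarith

private theorem wone {u : WithTop ℚ} (hu : u ≠ ⊤) (h : u = u + u) : u = 0 := by
  lift u to ℚ using hu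
  norm_cast at h ⊢
  linarith

private theorem wdblnn {u : WithTop ℚ} (h : 0 ≤ u + u) : 0 ≤ u := by
  induction u using WithTop.recTopCoe with
  | top => exact le_top
  | coe c =>
    norm_cast at h ⊢
    linarith

private theorem wadd0 {u w : WithTop ℚ} (h : u + w = 0) (hu : 0 ≤ u) (hw : 0 ≤ w) :
    u = 0 ∧ w = 0 := by
  induction u using WithTop.recTopCoe with
  | top => simp at h
  | coe c =>
    induction w using WithTop.recTopCoe with
    | top => simp at h
    | coe d =>
      norm_cast at h hu hw ⊢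
      exact ⟨by linarith, by linarith⟩

section

variable {K : Type} [Field K] {L : Type} [Field L] [Algebra K L] {k : Type} [Field k]
  {t f : Gal(L/K)} {q : ℕ} {ν : L → WithTop ℚ} {res : L → k}

private theorem pone (hP : Plc t f q ν res) : ν 1 = 0 := by
  refine wone ?_ ?_
  · rw [Ne, hP.top]
    exact one_ne_zero
  · rw [← hP.mul, mul_one]

private theorem pnegone (hP : Plc t f q ν res) : ν (-1) = 0 := by
  refine wdbl ?_
  rw [← hP.mul, neg_mul_neg, mul_one, pone hP]

private theorem pneg (hP : Plc t f q ν res) (x : L) : ν (-x) = ν x := by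
  rw [← neg_one_mul, hP.mul, pnegone hP, zero_add]

private theorem pinv (hP : Plc t f q ν res) (x : L) (hx : ν x = 0) : ν x⁻¹ = 0 := by
  have h0 : x ≠ 0 := by
    intro h
    rw [(hP.top x).2 h] at hx
    simp at hx
  have h1 : ν (x * x⁻¹) = 0 := by rw [mul_inv_cancel₀ h0, pone hP]
  rw [hP.mul, hx, zero_add] at h1
  exact h1

private theorem pnn (hP : Plc t f q ν res) (x y : L) (hx : 0 ≤ ν x) (hy : 0 ≤ ν y) :
    0 ≤ ν (x + y) ∧ 0 ≤ ν (x - y) ∧ 0 ≤ ν (x * y) := by
  refine ⟨(le_min hx hy).trans (hP.add x y), ?_, ?_⟩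
  · rw [sub_eq_add_neg]
    refine (le_min hx ?_).trans (hP.add x (-y))
    rw [pneg hP]
    exact hy
  · rw [hP.mul]
    exact add_nonneg hx hy

private theorem plt (hP : Plc t f q ν res) (x y : L) (h : ν x < ν y) : ν (x + y) = ν x := by
  have h1 : ν x ≤ ν (x + y) := by
    have := hP.add x y
    rwa [min_eq_left h.le] at this
  have h2 : min (ν (x + y)) (ν y) ≤ ν x := by
    have := hP.add (x + y) (-y)
    rwa [pneg hP, add_neg_cancel_right] at this
  rcases min_le_iff.1 h2 with h3 | h3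
  · exact le_antisymm h3 h1
  · exact absurd h (not_lt.2 h3)

private theorem rzero (hP : Plc t f q ν res) : res 0 = 0 := by
  have h0 : ν 0 = ⊤ := (hP.top 0).2 rfl
  rw [hP.r0 0 (by rw [h0]; exact le_top), h0]
  exact WithTop.coe_lt_top 0

private theorem rneg (hP : Plc t f q ν res) (x : L) (hx : 0 ≤ ν x) : res (-x) = - res x := by
  have h := hP.radd x (-x) hx (by rw [pneg hP]; exact hx)
  rw [add_neg_cancel, rzero hP] at h
  linear_combination -h

private theorem rinv (hP : Plc t f q ν res) (x : L) (hx : ν x = 0) :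
    res x⁻¹ = (res x)⁻¹ ∧ res x ≠ 0 := by
  have h0 : x ≠ 0 := by
    intro h
    rw [(hP.top x).2 h] at hx
    simp at hx
  have hr : res x ≠ 0 := by
    intro h
    have := (hP.r0 x hx.ge).1 h
    rw [hx] at this
    exact lt_irrefl _ this
  refine ⟨?_, hr⟩
  have h1 := hP.rmul x x⁻¹ hx.ge (pinv hP x hx).ge
  rw [mul_inv_cancel₀ h0, hP.r1] at h1
  exact eq_inv_of_mul_eq_one_right h1.symm

private theorem rfr (hP : Plc t f q ν res) (x y : L) (hx : 0 ≤ ν x) (hy : 0 ≤ ν y) :
    (res x + res y) ^ q = res x ^ q + res y ^ q := by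
  have h1 := hP.rf (x + y) (pnn hP x y hx hy).1
  rw [hP.radd x y hx hy, map_add, hP.radd (f x) (f y) (by rw [hP.nf]; exact hx)
    (by rw [hP.nf]; exact hy), hP.rf x hx, hP.rf y hy] at h1
  exact h1.symm

private theorem rfrs (hP : Plc t f q ν res) (x y : L) (hx : 0 ≤ ν x) (hy : 0 ≤ ν y) :
    (res x - res y) ^ q = res x ^ q - res y ^ q := by
  have h1 := hP.rf (x - y) (pnn hP x y hx hy).2.1
  have hfx : 0 ≤ ν (f x) := by rw [hP.nf]; exact hx
  have hfy : 0 ≤ ν (f y) := by rw [hP.nf]; exact hy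
  have h2 : res (x - y) = res x - res y := by
    rw [sub_eq_add_neg, hP.radd x (-y) hx (by rw [pneg hP]; exact hy), rneg hP y hy,
      sub_eq_add_neg]
  have h3 : res (f x - f y) = res (f x) - res (f y) := by
    rw [sub_eq_add_neg, hP.radd (f x) (-(f y)) hfx (by rw [pneg hP]; exact hfy),
      rneg hP (f y) hfy, sub_eq_add_neg]
  rw [h2, map_sub, h3, hP.rf x hx, hP.rf y hy] at h1
  exact h1.symm

private theorem rtwo (hP : Plc t f q ν res) : (2 : k) ≠ 0 := by
  have h1 : res 2 = 2 := by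
    rw [← one_add_one_eq_two, hP.radd 1 1 (pone hP).ge (pone hP).ge, hP.r1,
      one_add_one_eq_two]
  intro h
  rw [h] at h1
  have h2 := (hP.r0 2 hP.two.ge).1 h1
  rw [hP.two] at h2
  exact lt_irrefl _ h2

private theorem ul_nsmul' (n : ℕ) (r : RU L) : ul (n • r) = ul r ^ n := by
  induction n with
  | zero => rw [zero_nsmul, ul_zero, pow_zero]
  | succ n ih => rw [succ_nsmul, ul_add, ih, pow_succ]

private theorem psq (hP : Plc t f q ν res) (x : L) : ν (x ^ 2) = ν x + ν x := by
  rw [pow_two, hP.mul]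

private theorem nul (hP : Plc t f q ν res) (n : ℕ) (r : RU L) (h : 2 ^ n • r = 0) :
    ν (ul r) = 0 := by
  induction n generalizing r with
  | zero =>
    rw [pow_zero, one_nsmul] at h
    rw [h, ul_zero, pone hP]
  | succ n ih =>
    rw [pow_succ, mul_nsmul'] at h
    have h1 := ih (2 • r) h
    rw [ul_nsmul', psq hP] at h1
    exact wdbl h1

private theorem ru_prim (r : RU L) : ∃ n : ℕ, 2 ^ n • r = 0 := by
  obtain ⟨n, hn⟩ := uv_mem r
  exact ⟨n, uv_inj (by rw [uv_nsmul, hn, uv_zero])⟩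

private theorem inj0 (hP : Plc t f q ν res) (n : ℕ) (r : RU L) (h : 2 ^ n • r = 0)
    (hr : res (ul r) = 1) : r = 0 := by
  induction n generalizing r with
  | zero => rwa [pow_zero, one_nsmul] at h
  | succ n ih =>
    have hν := nul hP (n + 1) r h
    rw [pow_succ, mul_nsmul'] at h
    have h1 : 2 • r = 0 := by
      refine ih (2 • r) h ?_
      rw [ul_nsmul', pow_two, hP.rmul _ _ hν.ge hν.ge, hr, mul_one]
    have h2 : ul r * ul r = 1 := by rw [← pow_two, ← ul_nsmul', h1, ul_zero]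
    rcases mul_self_eq_one_iff.1 h2 with h3 | h3
    · exact ul_inj (by rw [h3, ul_zero])
    · exfalso
      rw [h3, rneg hP 1 (pone hP).ge, hP.r1] at hr
      refine rtwo hP ?_
      linear_combination -hr

private theorem inj (hP : Plc t f q ν res) (r s : RU L) (h : res (ul r) = res (ul s)) :
    r = s := by
  obtain ⟨n, hn⟩ := ru_prim (r - s)
  obtain ⟨m, hm⟩ := ru_prim s
  have h1 : ul (r - s) * ul s = ul r := by rw [← ul_add, sub_add_cancel]
  have hd := nul hP n _ hn
  have hs := nul hP m _ hm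
  have h2 := hP.rmul _ _ hd.ge hs.ge
  rw [h1, h] at h2
  have h3 : res (ul (r - s)) = 1 := by
    refine mul_right_cancel₀ (rinv hP _ hs).2 ?_
    rw [one_mul]
    exact h2.symm
  exact sub_eq_zero.1 (inj0 hP n _ hn h3)

private theorem rpow (hP : Plc t f q ν res) (x : L) (hx : 0 ≤ ν x) (n : ℕ) :
    0 ≤ ν (x ^ n) ∧ res (x ^ n) = res x ^ n := by
  induction n with
  | zero => exact ⟨by rw [pow_zero, pone hP], by rw [pow_zero, pow_zero, hP.r1]⟩
  | succ n ih =>
    refine ⟨?_, ?_⟩
    · rw [pow_succ]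
      exact (pnn hP _ _ ih.1 hx).2.2
    · rw [pow_succ, hP.rmul _ _ ih.1 hx, ih.2, pow_succ]

end

theorem tPpr : S_Ppr := by
  intro K _ L _ _ k _ t f q ν res hP
  refine ⟨pone hP, pneg hP, ?_, pinv hP, pnn hP, ?_, ?_, rneg hP, rinv hP, ?_, rtwo hP, ?_,
    ?_, ?_, ?_⟩
  · intro x y hx hy
    rw [hP.mul, hx, hy, add_zero]
  · intro x y h
    have h1 : ν (x - y) = ν x := by
      rw [sub_eq_add_neg]
      exact plt hP x (-y) (by rw [pneg hP]; exact h)
    refine ⟨plt hP x y h, h1, ?_⟩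
    rw [← neg_sub, pneg hP]
    exact h1
  · intro c hc
    refine hP.int _ (by rw [AlgEquiv.commutes]) ?_
    rw [Ne, FaithfulSMul.algebraMap_eq_zero_iff]
    exact hc
  · intro x y hx hy
    exact ⟨rfr hP x y hx hy, rfrs hP x y hx hy⟩
  · intro r
    obtain ⟨n, hn⟩ := ru_prim r
    have hr := nul hP n r hn
    refine ⟨inj hP _ _ ?_, inj hP _ _ ?_⟩
    · rw [ul_smul, hP.rt _ hr.ge]
    · rw [ul_smul, hP.rf _ hr.ge, ul_nsmul', (rpow hP _ hr.ge q).2]
  · intro x hx
    rw [psq hP] at hx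
    exact wdbl hx
  · intro x hx
    rw [psq hP] at hx
    exact wdblnn hx
  · intro x y h hx hy
    rw [hP.mul] at h
    exact wadd0 h hx hy

end Pool.Agent.MP72S.C
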