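import Pool.Agent.Lib.MP_72e2e6_nt.Sm.C.SpecC

/-!
# MP_72e2e6_nt, `Sm`, block C, module Prd (the product formula)
-/

set_option autoImplicit false

namespace Pool.Agent.MP72S.C

open WeierstrassCurve Pool.Agent.MP72W

open scoped Classical

/-- the product formula for `P`, `Q` -/
private theorem prd_alg {L : Type} [Field L] {a b c x y x' y' l l' : L} (hx : x ≠ x')
    (h : y ^ 2 = (x - a) * (x - b) * (x - c)) (h' : y' ^ 2 = (x' - a) * (x' - b) * (x' - c))
    (hl : l * (x - x') = y - y') (hl' : l' * (x - x') = y - -y') :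
    (l ^ 2 + (a + b + c) - x - x' - a) * (l' ^ 2 + (a + b + c) - x - x' - a) * (x - x') ^ 2 =
      ((x - a) * (x' - a) - (a - b) * (a - c)) ^ 2 := by
  have hne : x - x' ≠ 0 := sub_ne_zero.2 hx
  have e1 : l ^ 2 * (x - x') ^ 2 = (y - y') ^ 2 := by rw [← mul_pow, hl]
  have e2 : l' ^ 2 * (x - x') ^ 2 = (y + y') ^ 2 := by rw [← mul_pow, hl', sub_neg_eq_add]
  have key : ((l ^ 2 + (a + b + c) - x - x' - a) * (x - x') ^ 2) *
      ((l' ^ 2 + (a + b + c) - x - x' - a) * (x - x') ^ 2) =
      (((x - a) * (x' - a) - (a - b) * (a - c)) * (x - x')) ^ 2 := by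
    have e3 : (l ^ 2 + (a + b + c) - x - x' - a) * (x - x') ^ 2 =
        (y - y') ^ 2 + (b + c - x - x') * (x - x') ^ 2 := by linear_combination e1
    have e4 : (l' ^ 2 + (a + b + c) - x - x' - a) * (x - x') ^ 2 =
        (y + y') ^ 2 + (b + c - x - x') * (x - x') ^ 2 := by linear_combination e2
    rw [e3, e4]
    have e5 : (y - y') ^ 2 + (b + c - x - x') * (x - x') ^ 2 =
        ((x - a) * (x - b) * (x - c) + (x' - a) * (x' - b) * (x' - c) +
          (b + c - x - x') * (x - x') ^ 2) - 2 * (y * y') := by linear_combination h + h'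
    have e6 : (y + y') ^ 2 + (b + c - x - x') * (x - x') ^ 2 =
        ((x - a) * (x - b) * (x - c) + (x' - a) * (x' - b) * (x' - c) +
          (b + c - x - x') * (x - x') ^ 2) + 2 * (y * y') := by linear_combination h + h'
    have e7 : (y * y') ^ 2 = ((x - a) * (x - b) * (x - c)) * ((x' - a) * (x' - b) * (x' - c)) := by
      rw [mul_pow, h, h']
    rw [e5, e6]
    linear_combination (-4) * e7
  have h5 : (x - x') ^ 2 ≠ 0 := pow_ne_zero 2 hne
  apply mul_right_cancel₀ h5
  linear_combination key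

theorem tPrd (hG : S_Grp) (_hV : S_Vee) : S_Prd := by
  intro K _ a L _ _ hH
  obtain ⟨g1, g2, g3, g4, g5, g6, g7, g8, g9⟩ := hG K a L hH
  have hsum : ∀ i : Fin 3, al a L 0 + al a L 1 + al a L 2 =
      al a L i + al a L (i + 1) + al a L (i + 2) := by
    intro i
    fin_cases i
    · rfl
    · change al a L 0 + al a L 1 + al a L 2 = al a L 1 + al a L 2 + al a L 0
      ring
    · change al a L 0 + al a L 1 + al a L 2 = al a L 2 + al a L 0 + al a L 1
      ring
  have hprod : ∀ (i : Fin 3) (x : L), (x - al a L 0) * (x - al a L 1) * (x - al a L 2) =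
      (x - al a L i) * (x - al a L (i + 1)) * (x - al a L (i + 2)) := by
    intro i x
    fin_cases i
    · rfl
    · change (x - al a L 0) * (x - al a L 1) * (x - al a L 2) =
        (x - al a L 1) * (x - al a L 2) * (x - al a L 0)
      ring
    · change (x - al a L 0) * (x - al a L 1) * (x - al a L 2) =
        (x - al a L 2) * (x - al a L 0) * (x - al a L 1)
      ring
  refine ⟨?_, ?_⟩
  · intro P Q i hP hQ hx
    obtain ⟨x, y, hxy⟩ := (g1 P).resolve_left hP
    obtain ⟨x', y', hxy'⟩ := (g1 Q).resolve_left hQ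
    obtain ⟨_, p1, p2, p3⟩ := g2 P x y hxy
    obtain ⟨_, q1, q2, q3⟩ := g2 Q x' y' hxy'
    rw [p1, q1] at hx ⊢
    have hne : x - x' ≠ 0 := sub_ne_zero.2 hx
    have hl : ((y - y') / (x - x')) * (x - x') = y - y' := div_mul_cancel₀ _ hne
    have hl' : ((y - -y') / (x - x')) * (x - x') = y - -y' := div_mul_cancel₀ _ hne
    obtain ⟨_, r1, _, _⟩ := g2 _ _ _ (g7 P Q x y x' y' _ _ hxy hxy' hx hl rfl)
    obtain ⟨_, r2, _, _⟩ := g2 _ _ _ (g7 P (-Q) x y x' (-y') _ _ hxy (g5 Q x' y' hxy') hx hl' rfl)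
    rw [sub_eq_add_neg P Q, r1, r2, hsum i]
    exact prd_alg hx (by rw [p3, hprod i]) (by rw [q3, hprod i]) hl hl'
  · intro P i hP
    have hP0 : P ≠ 0 := by
      rintro rfl
      exact hP (add_zero 0)
    obtain ⟨x, y, hxy⟩ := (g1 P).resolve_left hP0
    obtain ⟨_, p1, p2, p3⟩ := g2 P x y hxy
    have hy : y ≠ 0 := by
      rintro rfl
      exact hP (g9 P x hxy)
    have h2y : 2 * y ≠ 0 := mul_ne_zero hH.1 hy
    obtain ⟨l, hl⟩ : ∃ l : L, 2 * l * y = (x - al a L 0) * (x - al a L 1) +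
        (x - al a L 0) * (x - al a L 2) + (x - al a L 1) * (x - al a L 2) := by
      refine ⟨((x - al a L 0) * (x - al a L 1) + (x - al a L 0) * (x - al a L 2) +
        (x - al a L 1) * (x - al a L 2)) / (2 * y), ?_⟩
      rw [mul_right_comm, mul_div_cancel₀ _ h2y]
    obtain ⟨_, r1, _, _⟩ := g2 _ _ _ (g8 P x y l _ hxy hy hl rfl)
    rw [r1, p1, p2]
    have hl' : 2 * l * y = (x - al a L i) * (x - al a L (i + 1)) +
        (x - al a L i) * (x - al a L (i + 2)) + (x - al a L (i + 1)) * (x - al a L (i + 2)) := by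
      rw [hl]
      fin_cases i
      · rfl
      · change _ = (x - al a L 1) * (x - al a L 2) +
          (x - al a L 1) * (x - al a L 0) + (x - al a L 2) * (x - al a L 0)
        ring
      · change _ = (x - al a L 2) * (x - al a L 0) +
          (x - al a L 2) * (x - al a L 1) + (x - al a L 0) * (x - al a L 1)
        ring
    have hy2 : y ^ 2 = (x - al a L i) * (x - al a L (i + 1)) * (x - al a L (i + 2)) := by
      rw [p3, hprod i]
    rw [hsum i]
    have e1 : (2 * l * y) ^ 2 = ((x - al a L i) * (x - al a L (i + 1)) +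
        (x - al a L i) * (x - al a L (i + 2)) +
        (x - al a L (i + 1)) * (x - al a L (i + 2))) ^ 2 := by rw [hl']
    linear_combination e1 + 4 * (al a L (i + 1) + al a L (i + 2) - 2 * x) * hy2

end Pool.Agent.MP72S.C
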