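import Pool.Agent.Lib.MP_72e2e6_nt.Sm.C.SpecC

/-!
# MP_72e2e6_nt, `Sm`, block C: module RUp (the roots of unity of `2`-power order)
-/

set_option autoImplicit false

namespace Pool.Agent.MP72S.C

open Finset WeierstrassCurve Pool.Agent.MP72W

open scoped Classical

theorem tRUp : S_RUp := by
  intro L _ h2 hQ
  have hul2 : ∀ x : RU L, ul (2 • x) = ul x ^ 2 := by
    intro x
    rw [two_nsmul, ul_add, sq]
  have hhf : ul (hfU L) = -1 := rfl
  refine ⟨?_, ?_, ?_, ?_⟩
  · intro x
    obtain ⟨k, hk⟩ := uv_mem x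
    exact ⟨k, uv_inj (by rw [uv_nsmul, hk, uv_zero])⟩
  · intro x
    obtain ⟨n, hn⟩ := uv_mem x
    obtain ⟨y, hy⟩ := hQ (ul x)
    have hx0 : ul x ≠ 0 := Units.ne_zero _
    have hy0 : y ≠ 0 := by
      rintro rfl
      apply hx0
      rw [← hy]
      ring
    have hu : (Units.mk0 y hy0) ^ 2 = Additive.toMul (uv x) := by
      apply Units.ext
      rw [Units.val_pow_eq_pow_val, Units.val_mk0, hy]
      rfl
    have hu' : 2 • Additive.ofMul (Units.mk0 y hy0) = uv x := by
      rw [← ofMul_pow, hu, ofMul_toMul]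
    refine ⟨mkU (Additive.ofMul (Units.mk0 y hy0)) ⟨n + 1, ?_⟩, ?_⟩
    · rw [pow_succ, mul_nsmul', hu', hn]
    · apply uv_inj
      rw [uv_nsmul, uv_mkU, hu']
  · intro h
    have h3 : ul (hfU L) = ul (0 : RU L) := by rw [h]
    rw [hhf, ul_zero] at h3
    apply h2
    linear_combination -h3
  · intro x
    constructor
    · intro hx
      have h3 : ul x ^ 2 = 1 := by rw [← hul2, hx, ul_zero]
      have h4 : (ul x - 1) * (ul x + 1) = 0 := by linear_combination h3
      rcases mul_eq_zero.1 h4 with h5 | h5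
      · left
        apply ul_inj
        rw [ul_zero]
        exact sub_eq_zero.1 h5
      · right
        apply ul_inj
        rw [hhf]
        exact eq_neg_of_add_eq_zero_left h5
    · rintro (h | h)
      · rw [h, smul_zero]
      · apply ul_inj
        rw [hul2, h, hhf, ul_zero]
        ring

end Pool.Agent.MP72S.C
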