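import Pool.Agent.Lib.MP_72e2e6_nt.Sm.C.SpecC

/-!
# MP_72e2e6_nt, `Sm`, block C, module Rrq (the square roots belonging to a half)
-/

set_option autoImplicit false

namespace Pool.Agent.MP72S.C

open WeierstrassCurve Pool.Agent.MP72W

open scoped Classical

/-- the algebra of the half `(X, Y)`: `p = Y / (X - a)`, etc. -/
private theorem rrq_alg {L : Type} [Field L] {a b c X Y : L} (hY : Y ≠ 0)
    (h : Y ^ 2 = (X - a) * (X - b) * (X - c)) :
    X - a ≠ 0 ∧ X - b ≠ 0 ∧ X - c ≠ 0 ∧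
    (Y / (X - a)) * (Y / (X - b)) = X - c ∧ (Y / (X - a)) * (Y / (X - c)) = X - b ∧
    (Y / (X - b)) * (Y / (X - c)) = X - a ∧
    (Y / (X - a)) * (Y / (X - b)) * (Y / (X - c)) = Y := by
  have hY2 : Y ^ 2 ≠ 0 := pow_ne_zero 2 hY
  have ha : X - a ≠ 0 := fun h' => hY2 (by rw [h, h', zero_mul, zero_mul])
  have hb : X - b ≠ 0 := fun h' => hY2 (by rw [h, h', mul_zero, zero_mul])
  have hc : X - c ≠ 0 := fun h' => hY2 (by rw [h, h', mul_zero])
  refine ⟨ha, hb, hc, ?_, ?_, ?_, ?_⟩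
  · rw [div_mul_div_comm, div_eq_iff (mul_ne_zero ha hb)]
    linear_combination h
  · rw [div_mul_div_comm, div_eq_iff (mul_ne_zero ha hc)]
    linear_combination h
  · rw [div_mul_div_comm, div_eq_iff (mul_ne_zero hb hc)]
    linear_combination h
  · rw [div_mul_div_comm, div_mul_div_comm, div_eq_iff (mul_ne_zero (mul_ne_zero ha hb) hc)]
    linear_combination Y * h

private theorem rrq_main {K : Type} [Field K] {a : Fin 3 → K} {L : Type} [Field L] [Algebra K L]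
    (hG : S_Grp) (hH : Hyp a L) {Q : PA a L} (hQQ : Q + Q ≠ 0) :
    py Q ≠ 0 ∧ (∀ i, px Q ≠ al a L i) ∧ (∀ i, rr Q i ^ 2 = px (Q + Q) - al a L i) ∧
    rr Q 0 * rr Q 1 * rr Q 2 = py (Q + Q) ∧
    (∀ i, px Q - al a L i = (rr Q i + rr Q (i + 1)) * (rr Q i + rr Q (i + 2))) ∧
    px Q = px (Q + Q) + (rr Q 0 * rr Q 1 + rr Q 0 * rr Q 2 + rr Q 1 * rr Q 2) ∧
    py Q = (rr Q 0 + rr Q 1) * (rr Q 0 + rr Q 2) * (rr Q 1 + rr Q 2) ∧
    ∃ x y : L, XY (Q + Q) x y := by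
  obtain ⟨g1, g2, g3, g4, g5, g6, g7, g8, g9⟩ := hG K a L hH
  have h2 := hH.1
  have hQ0 : Q ≠ 0 := by
    rintro rfl
    exact hQQ (add_zero 0)
  obtain ⟨X, Y, hXY⟩ := (g1 Q).resolve_left hQ0
  obtain ⟨_, p1, p2, p3⟩ := g2 Q X Y hXY
  have hY : Y ≠ 0 := by
    rintro rfl
    exact hQQ (g9 Q X hXY)
  obtain ⟨n0, n1, n2, m01, m02, m12, m⟩ := rrq_alg hY p3
  obtain ⟨s0, hs0⟩ : ∃ s, s = Y / (X - al a L 0) := ⟨_, rfl⟩
  obtain ⟨s1, hs1⟩ : ∃ s, s = Y / (X - al a L 1) := ⟨_, rfl⟩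
  obtain ⟨s2, hs2⟩ : ∃ s, s = Y / (X - al a L 2) := ⟨_, rfl⟩
  rw [← hs0, ← hs1] at m01
  rw [← hs0, ← hs2] at m02
  rw [← hs1, ← hs2] at m12
  rw [← hs0, ← hs1, ← hs2] at m
  have r0 : rr Q 0 = (s1 + s2 - s0) / 2 := by
    change (py Q / (px Q - al a L 1) + py Q / (px Q - al a L 2) - py Q / (px Q - al a L 0)) / 2 = _
    rw [p1, p2, hs0, hs1, hs2]
  have r1 : rr Q 1 = (s2 + s0 - s1) / 2 := by
    change (py Q / (px Q - al a L 2) + py Q / (px Q - al a L 0) - py Q / (px Q - al a L 1)) / 2 = _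
    rw [p1, p2, hs0, hs1, hs2]
  have r2 : rr Q 2 = (s0 + s1 - s2) / 2 := by
    change (py Q / (px Q - al a L 0) + py Q / (px Q - al a L 1) - py Q / (px Q - al a L 2)) / 2 = _
    rw [p1, p2, hs0, hs1, hs2]
  have t01 : rr Q 0 + rr Q 1 = s2 := by
    rw [r0, r1]
    field_simp
    ring
  have t02 : rr Q 0 + rr Q 2 = s1 := by
    rw [r0, r2]
    field_simp
    ring
  have t12 : rr Q 1 + rr Q 2 = s0 := by
    rw [r1, r2]
    field_simp
    ring
  -- the slope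
  obtain ⟨l, hl⟩ : ∃ l : L, l = (s0 + s1 + s2) / 2 := ⟨_, rfl⟩
  have hl2 : 2 * l = s0 + s1 + s2 := by
    rw [hl]
    field_simp
  have hls : 2 * l * Y = (X - al a L 0) * (X - al a L 1) + (X - al a L 0) * (X - al a L 2) +
      (X - al a L 1) * (X - al a L 2) := by
    rw [hl2, ← m, ← m01, ← m02, ← m12]
    ring
  have hdbl := g8 Q X Y l _ hXY hY hls rfl
  obtain ⟨_, q1, q2, q3⟩ := g2 _ _ _ hdbl
  obtain ⟨x, hx⟩ : ∃ x, x = l ^ 2 + (al a L 0 + al a L 1 + al a L 2) - 2 * X := ⟨_, rfl⟩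
  rw [← hx] at q1 q2 hdbl
  have e0 : rr Q 0 ^ 2 = x - al a L 0 := by
    rw [r0, hx, hl]
    field_simp
    linear_combination (-4) * m01 + (-4) * m02 
  have e1 : rr Q 1 ^ 2 = x - al a L 1 := by
    rw [r1, hx, hl]
    field_simp
    linear_combination (-4) * m01 + (-4) * m12
  have e2' : rr Q 2 ^ 2 = x - al a L 2 := by
    rw [r2, hx, hl]
    field_simp
    linear_combination (-4) * m02 + (-4) * m12
  have eall : ∀ i, rr Q i ^ 2 = x - al a L i := by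
    intro i
    fin_cases i
    · exact e0
    · exact e1
    · exact e2'
  have eX : X = x + (rr Q 0 * rr Q 1 + rr Q 0 * rr Q 2 + rr Q 1 * rr Q 2) := by
    have h3 : X - al a L 0 = (rr Q 0 + rr Q 1) * (rr Q 0 + rr Q 2) := by rw [t01, t02, ← m12]; ring
    linear_combination h3 + e0
  have eY : Y = (rr Q 0 + rr Q 1) * (rr Q 0 + rr Q 2) * (rr Q 1 + rr Q 2) := by
    rw [t01, t02, t12, ← m]
    ring
  have el : l = rr Q 0 + rr Q 1 + rr Q 2 := by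
    rw [r0, r1, r2, hl]
    field_simp
    ring
  have ep : rr Q 0 * rr Q 1 * rr Q 2 = py (Q + Q) := by
    rw [q2, el]
    linear_combination (-(rr Q 0 + rr Q 1 + rr Q 2)) * eX + eY
  refine ⟨by rw [p2]; exact hY, ?_, ?_, ep, ?_, ?_, ?_, _, _, hdbl⟩
  · intro i
    rw [p1]
    fin_cases i
    · exact sub_ne_zero.1 n0
    · exact sub_ne_zero.1 n1
    · exact sub_ne_zero.1 n2
  · intro i
    rw [q1]
    exact eall i
  · intro i
    rw [p1]
    fin_cases i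
    · change X - al a L 0 = (rr Q 0 + rr Q 1) * (rr Q 0 + rr Q 2)
      rw [t01, t02, ← m12]
      ring
    · change X - al a L 1 = (rr Q 1 + rr Q 2) * (rr Q 1 + rr Q 0)
      rw [t12, add_comm (rr Q 1) (rr Q 0), t01, ← m02]
    · change X - al a L 2 = (rr Q 2 + rr Q 0) * (rr Q 2 + rr Q 1)
      rw [add_comm (rr Q 2) (rr Q 0), t02, add_comm (rr Q 2) (rr Q 1), t12, ← m01]
      ring
  · rw [p1, q1]
    exact eX
  · rw [p2]
    exact eY

private theorem rrq_shift {L : Type} [Field L] {A0 A1 A2 r0 r1 r2 x X Y l : L}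
    (_ : r0 ^ 2 = x - A0) (h1 : r1 ^ 2 = x - A1) (h2 : r2 ^ 2 = x - A2)
    (hX : X = x + (r0 * r1 + r0 * r2 + r1 * r2)) (hY : Y = (r0 + r1) * (r0 + r2) * (r1 + r2))
    (hl : l = r1 + r2) :
    l ^ 2 + (A0 + A1 + A2) - X - A0 = x + (r0 * -r1 + r0 * -r2 + -r1 * -r2) ∧
    l * (X - (l ^ 2 + (A0 + A1 + A2) - X - A0)) - Y = (r0 + -r1) * (r0 + -r2) * (-r1 + -r2) := by
  have e : l ^ 2 + (A0 + A1 + A2) - X - A0 = x + (r0 * -r1 + r0 * -r2 + -r1 * -r2) := by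
    rw [hl, hX]
    linear_combination h1 + h2
  refine ⟨e, ?_⟩
  rw [e, hl, hX, hY]
  ring

theorem tRrq (hG : S_Grp) (hV : S_Vee) (hH' : S_Hal) : S_Rrq := by
  intro K _ a L _ _ hH Q hQQ
  obtain ⟨g1, g2, g3, g4, g5, g6, g7, g8, g9⟩ := hG K a L hH
  obtain ⟨v1, v2, v3, v4, v5, v6, v7, v8, v9, v10, v11⟩ := hV K a L hH
  obtain ⟨a1, a2, a3, a4, a5, a6, a7, x, y, hxy⟩ := rrq_main hG hH hQQ
  obtain ⟨_, b1, b2, _⟩ := g2 _ _ _ hxy
  have hQ0 : Q ≠ 0 := by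
    rintro rfl
    exact hQQ (add_zero 0)
  obtain ⟨X, Y, hXY⟩ := (g1 Q).resolve_left hQ0
  obtain ⟨_, p1, p2, p3⟩ := g2 Q X Y hXY
  refine ⟨a1, a2, a3, a4, a5, a6, a7, ?_, ?_⟩
  · intro Q' hQ' hr
    have hQQ' : Q' + Q' ≠ 0 := by
      rw [hQ']
      exact hQQ
    obtain ⟨c1, c2, c3, c4, c5, c6, c7, _⟩ := rrq_main hG hH hQQ'
    have hQ'0 : Q' ≠ 0 := by
      rintro rfl
      exact hQQ' (add_zero 0)
    obtain ⟨X', Y', hXY'⟩ := (g1 Q').resolve_left hQ'0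
    obtain ⟨_, p1', p2', _⟩ := g2 Q' X' Y' hXY'
    rw [hr, hQ', ← a6, p1, p1'] at c6
    rw [hr, ← a7, p2, p2'] at c7
    rw [c6, c7] at hXY'
    exact g4 Q' Q X Y hXY' hXY
  · -- the four halves
    have key : ∀ (i : Fin 3) (r : Fin 3 → L), (∀ j, r j ^ 2 = rr Q j ^ 2) →
        r 0 * r 1 * r 2 = rr Q 0 * rr Q 1 * rr Q 2 →
        (py Q / (px Q - al a L i)) ^ 2 + (al a L 0 + al a L 1 + al a L 2) - px Q - al a L i =
          px (Q + Q) + (r 0 * r 1 + r 0 * r 2 + r 1 * r 2) →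
        (py Q / (px Q - al a L i)) * (px Q - ((py Q / (px Q - al a L i)) ^ 2 +
          (al a L 0 + al a L 1 + al a L 2) - px Q - al a L i)) - py Q =
          (r 0 + r 1) * (r 0 + r 2) * (r 1 + r 2) → rr (Q + ee a i) = r := by
      intro i r hr hp hX hY
      obtain ⟨Q', d1, _, d3, _⟩ := hH' K a L hH (Q + Q) x y hxy r
        (fun j => by rw [hr j, a3 j, b1]) (by rw [hp, a4, b2])
      have hne : X - al a L i ≠ 0 := by
        rw [← p1]
        exact sub_ne_zero.2 (a2 i)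
      have hx : X ≠ al a L i := sub_ne_zero.1 hne
      have hl : (Y / (X - al a L i)) * (X - al a L i) = Y - 0 := by
        rw [div_mul_cancel₀ _ hne, sub_zero]
      have h7 := g7 Q (ee a i) X Y (al a L i) 0 _ _ hXY (v1 i) hx hl rfl
      rw [p1, p2] at hX hY
      rw [hY, hX, b1] at h7
      rw [← d3, g4 _ _ _ _ h7 d1]
    have hs : ∀ i, py Q / (px Q - al a L i) = rr Q (i + 1) + rr Q (i + 2) := by
      intro i
      have h1 := a5 i
      have h2 : px Q - al a L i ≠ 0 := sub_ne_zero.2 (a2 i)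
      rw [div_eq_iff h2, h1, a7]
      fin_cases i
      · change _ = (rr Q 1 + rr Q 2) * ((rr Q 0 + rr Q 1) * (rr Q 0 + rr Q 2))
        ring
      · change _ = (rr Q 2 + rr Q 0) * ((rr Q 1 + rr Q 2) * (rr Q 1 + rr Q 0))
        ring
      · change _ = (rr Q 0 + rr Q 1) * ((rr Q 2 + rr Q 0) * (rr Q 2 + rr Q 1))
        ring
    intro i
    fin_cases i
    · obtain ⟨f1, f2⟩ := rrq_shift (a3 0) (a3 1) (a3 2) a6 a7 (hs 0)
      have h := key 0 ![rr Q 0, -rr Q 1, -rr Q 2] (fun j => by fin_cases j <;> simp)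
        (by simp) f1 f2
      change rr (Q + ee a 0) 0 = rr Q 0 ∧ rr (Q + ee a 0) 1 = -rr Q 1 ∧
        rr (Q + ee a 0) 2 = -rr Q 2
      rw [h]
      exact ⟨rfl, rfl, rfl⟩
    · obtain ⟨f1, f2⟩ := rrq_shift (a3 1) (a3 2) (a3 0)
        (show px Q = px (Q + Q) + (rr Q 1 * rr Q 2 + rr Q 1 * rr Q 0 + rr Q 2 * rr Q 0) by
          rw [a6]; ring)
        (show py Q = (rr Q 1 + rr Q 2) * (rr Q 1 + rr Q 0) * (rr Q 2 + rr Q 0) by
          rw [a7]; ring) (hs 1)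
      have e1 : al a L 0 + al a L 1 + al a L 2 = al a L 1 + al a L 2 + al a L 0 := by ring
      have h := key 1 ![-rr Q 0, rr Q 1, -rr Q 2] (fun j => by fin_cases j <;> simp)
        (by simp) (by
          rw [e1, f1]
          change _ = px (Q + Q) + (-rr Q 0 * rr Q 1 + -rr Q 0 * -rr Q 2 + rr Q 1 * -rr Q 2)
          ring) (by
          rw [e1, f2]
          change _ = (-rr Q 0 + rr Q 1) * (-rr Q 0 + -rr Q 2) * (rr Q 1 + -rr Q 2)
          ring)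
      change rr (Q + ee a 1) 1 = rr Q 1 ∧ rr (Q + ee a 1) 2 = -rr Q 2 ∧
        rr (Q + ee a 1) 0 = -rr Q 0
      rw [h]
      exact ⟨rfl, rfl, rfl⟩
    · obtain ⟨f1, f2⟩ := rrq_shift (a3 2) (a3 0) (a3 1)
        (show px Q = px (Q + Q) + (rr Q 2 * rr Q 0 + rr Q 2 * rr Q 1 + rr Q 0 * rr Q 1) by
          rw [a6]; ring)
        (show py Q = (rr Q 2 + rr Q 0) * (rr Q 2 + rr Q 1) * (rr Q 0 + rr Q 1) by
          rw [a7]; ring) (hs 2)
      have e1 : al a L 0 + al a L 1 + al a L 2 = al a L 2 + al a L 0 + al a L 1 := by ring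
      have h := key 2 ![-rr Q 0, -rr Q 1, rr Q 2] (fun j => by fin_cases j <;> simp)
        (by simp) (by
          rw [e1, f1]
          change _ = px (Q + Q) + (-rr Q 0 * -rr Q 1 + -rr Q 0 * rr Q 2 + -rr Q 1 * rr Q 2)
          ring) (by
          rw [e1, f2]
          change _ = (-rr Q 0 + -rr Q 1) * (-rr Q 0 + rr Q 2) * (-rr Q 1 + rr Q 2)
          ring)
      change rr (Q + ee a 2) 2 = rr Q 2 ∧ rr (Q + ee a 2) 0 = -rr Q 0 ∧
        rr (Q + ee a 2) 1 = -rr Q 1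
      rw [h]
      exact ⟨rfl, rfl, rfl⟩

end Pool.Agent.MP72S.C
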