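import Pool.Agent.Lib.MP_72e2e6_nt.Sm.C.SpecC

/-!
# MP_72e2e6_nt, `Sm`, block C: module Slf (self-adjointness)
-/

set_option autoImplicit false

namespace Pool.Agent.MP72S.C

open Finset WeierstrassCurve Pool.Agent.MP72W

open scoped Classical

theorem tSlf (hV : S_Vee) (hA : S_Acp) (hM : S_Msg) : S_Slf := by
  intro K _ a L _ _ hyp hio s x y hx hy
  obtain ⟨ι, hι⟩ := hio
  obtain ⟨v1, v2, v3, v4, v5, v6, v7, v8, v9, v10, v11⟩ := hV K a L hyp
  obtain ⟨a1, a2, a3, a4, a5, a6⟩ := hA K a L hyp s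
  rcases (v2 _).1 hx with hx' | ⟨i, hx'⟩
  · rw [a6 x hx', sub_self, hx', v7, v10, v7, v10]
  rcases (v2 _).1 hy with hy' | ⟨j, hy'⟩
  · rw [a6 y hy', sub_self, hy', v10, v10]
  rw [hx', hy']
  by_cases hij : i = j
  · subst hij
    have h1 : (x - y) + (x - y) = 0 := by
      have h2 : (x - y) + (x - y) = (x + x) - (y + y) := by abel
      rw [h2, hx', hy', sub_self]
    have h3 := a6 _ h1
    rw [map_sub] at h3
    have h4 : act a s x - x = act a s y - y := by
      have h5 : act a s x - x = (act a s x - act a s y) - (x - y) + (act a s y - y) := by abel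
      rw [h5, h3, sub_self, zero_add]
    rw [h4, v7]
  · obtain ⟨-, m2, m3, m4⟩ := hM K a L hyp s x i j hij hx'
    obtain ⟨-, n2, n3, n4⟩ := hM K a L hyp s y j i (fun h => hij h.symm) hy'
    rw [m4, v7, n4]
    have hsi : s (algebraMap K L ι) = algebraMap K L ι := s.commutes ι
    have hi2 : (algebraMap K L ι) ^ 2 = -1 := by
      rw [← map_pow, hι, map_neg, map_one]
    have hi0 : algebraMap K L ι ≠ 0 := by
      intro h
      rw [h] at hi2
      have h3 : (1 : L) = 0 := by linear_combination hi2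
      exact one_ne_zero h3
    have h1 : rr y i ^ 2 = (algebraMap K L ι * rr x j) ^ 2 := by
      rw [n2, mul_pow, hi2, m2]
      ring
    have h2 : s (rr x j) = rr x j ↔ s (rr y i) = rr y i := by
      rcases sq_eq_sq_iff_eq_or_eq_neg.1 h1 with h3 | h3
      · rw [h3, map_mul, hsi]
        exact ⟨fun h => by rw [h], fun h => mul_left_cancel₀ hi0 h⟩
      · rw [h3, map_neg, map_mul, hsi, neg_inj]
        exact ⟨fun h => by rw [h], fun h => mul_left_cancel₀ hi0 h⟩
    by_cases h4 : s (rr x j) = rr x j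
    · rw [if_pos h4, if_pos (h2.1 h4)]
    · rw [if_neg h4, if_neg (fun h => h4 (h2.2 h))]

end Pool.Agent.MP72S.C
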