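import Pool.Agent.Lib.MP_72e2e6_nt.Sm.C.SpecA

set_option autoImplicit false

namespace Pool.Agent.MP72S.C

open Finset

private lemma tfr_two (x : ℤ_[2]) (h : PadicInt.toZModPow 2 x = 1) (hx : x ^ 2 = 1) : x = 1 := by
  have h1 : (x - 1) * (x + 1) = 0 := by
    have : (x - 1) * (x + 1) = x ^ 2 - 1 := by ring
    rw [this, hx, sub_self]
  rcases mul_eq_zero.mp h1 with h2 | h2
  · exact sub_eq_zero.mp h2
  · exfalso
    have h3 : x = -1 := eq_neg_of_add_eq_zero_left h2
    rw [h3, map_neg, map_one] at h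
    exact absurd h (by decide)

private lemma tfr_odd (x : ℤ_[2]) (h : PadicInt.toZModPow 2 x = 1) (m : ℕ) (hm : Odd m)
    (hx : x ^ m = 1) : x = 1 := by
  have h1 : (∑ i ∈ range m, x ^ i) * (x - 1) = 0 := by
    rw [geom_sum_mul, hx, sub_self]
  rcases mul_eq_zero.mp h1 with h2 | h2
  · exfalso
    have h3 := congrArg (PadicInt.toZModPow 2) h2
    rw [map_sum, map_zero] at h3
    simp only [map_pow, h, one_pow, sum_const, card_range, nsmul_eq_mul, mul_one] at h3
    have h4 : (2 ^ 2 : ℕ) ∣ m := (ZMod.natCast_eq_zero_iff m (2 ^ 2)).mp h3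
    rcases hm with ⟨k, hk⟩
    omega
  · exact sub_eq_zero.mp h2

private lemma tfr_pow (a : ℕ) : ∀ x : ℤ_[2], PadicInt.toZModPow 2 x = 1 → x ^ (2 ^ a) = 1 →
    x = 1 := by
  induction a with
  | zero =>
    intro x _ hx
    simpa using hx
  | succ a ih =>
    intro x h hx
    apply ih x h
    apply tfr_two
    · rw [map_pow, h, one_pow]
    · rw [← pow_mul, ← pow_succ]
      exact hx

theorem tTfr (_h1 : S_Dga) : S_Tfr := by
  intro δ hδ k hk hk1
  have h : PadicInt.toZModPow 2 δ = 1 := by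
    have h2 : ((dg 2 δ : ℕ) : ZMod (2 ^ 2)) = PadicInt.toZModPow 2 δ := by
      unfold dg
      have : NeZero (2 ^ 2) := ⟨by positivity⟩
      exact ZMod.natCast_zmod_val _
    rw [← h2, hδ, Nat.cast_one]
  obtain ⟨a, m, hm, rfl⟩ := Nat.exists_eq_two_pow_mul_odd (n := k) (by omega)
  apply tfr_pow a δ h
  apply tfr_odd _ _ m hm
  · rw [← pow_mul]
    exact hk1
  · rw [map_pow, h, one_pow]

end Pool.Agent.MP72S.C
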