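import Pool.Agent.Lib.MP_72e2e6_nt.Sm.C.SpecC

/-! # MP_72e2e6_nt, `Sm`, block C: inertia does not act trivially -/

set_option autoImplicit false

namespace Pool.Agent.MP72S.C

open Finset WeierstrassCurve Pool.Agent.MP72W

open scoped Classical

private theorem tnt_sq {K : Type} [Field K] {a : Fin 3 → K} {L : Type} [Field L] [Algebra K L]
    (hQC : QC L) {x y : L} (h : y ^ 2 = (x - al a L 0) * (x - al a L 1) * (x - al a L 2)) :
    ∃ r : Fin 3 → L, (∀ i, r i ^ 2 = x - al a L i) ∧ r 0 * r 1 * r 2 = y := by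
  choose r hr using fun i => hQC (x - al a L i)
  have h1 : (r 0 * r 1 * r 2) ^ 2 = y ^ 2 := by
    rw [h, mul_pow, mul_pow, hr, hr, hr]
  rcases sq_eq_sq_iff_eq_or_eq_neg.1 h1 with e | e
  · exact ⟨r, hr, e⟩
  · exact ⟨fun i => -r i, fun i => by rw [neg_sq, hr], by linear_combination -e⟩

private theorem tnt_or {K : Type} [Field K] {L : Type} [Field L] [Algebra K L] {k : Type} [Field k]
    {t f : Gal(L/K)} {q : ℕ} {ν : L → WithTop ℚ} {res : L → k} (hp : Plc t f q ν res)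
    (hn : ∀ x, ν (-x) = ν x) {u v : L} (h : ν u = ν v) : ν (u + v) = ν u ∨ ν (u - v) = ν u := by
  have h1 : ν u ≤ ν (u + v) := by simpa [← h] using hp.add u v
  have h2 : ν u ≤ ν (u - v) := by
    have := hp.add u (-v)
    rw [hn, ← h, min_self, ← sub_eq_add_neg] at this
    exact this
  have h3 := hp.add (u + v) (u - v)
  have h4 : ν ((u + v) + (u - v)) = ν u := by
    have : (u + v) + (u - v) = 2 * u := by ring
    rw [this, hp.mul, hp.two, zero_add]
  rw [h4] at h3
  rcases min_le_iff.1 h3 with h5 | h5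
  · exact Or.inl (le_antisymm h5 h1)
  · exact Or.inr (le_antisymm h5 h2)

private theorem tnt_half {K : Type} [Field K] {L : Type} [Field L] [Algebra K L] {k : Type} [Field k]
    {t f : Gal(L/K)} {q : ℕ} {ν : L → WithTop ℚ} {res : L → k} (hp : Plc t f q ν res)
    {r : L} {n : ℚ} (h : ν (r ^ 2) = (n : WithTop ℚ)) : ∃ c : ℚ, ν r = (c : WithTop ℚ) ∧ c + c = n := by
  rw [pow_two, hp.mul] at h
  by_cases ht : ν r = ⊤
  · rw [ht, WithTop.top_add] at h
    exact absurd h WithTop.top_ne_coe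
  · obtain ⟨c, hc⟩ := WithTop.ne_top_iff_exists.1 ht
    rw [← hc, ← WithTop.coe_add] at h
    exact ⟨c, hc.symm, WithTop.coe_inj.1 h⟩

private theorem tnt_px {K : Type} [Field K] {a : Fin 3 → K} {L : Type} [Field L] [Algebra K L]
    (s : Gal(L/K)) (P : PA a L) : px (act a s P) = s (px P) := by
  cases P with
  | zero => exact (map_zero s).symm
  | some x y h => rfl

theorem tTnt (hG : S_Grp) (hV : S_Vee) (hH : S_Hal) (_hA : S_Acp) (_hD : S_Dvn) (hP : S_Ppr) :
    S_Tnt := by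
  intro K _ a L _ _ k _ t f q ν res hyp hQC hp hM
  by_contra hcon
  push Not at hcon
  obtain ⟨g1, g2, -⟩ := hG K a L hyp
  obtain ⟨v1, v2, v3, -⟩ := hV K a L hyp
  obtain ⟨-, p2, p3, -, p5, p6, -, -, -, -, -, -, p13, p14, p15⟩ := hP K L k t f q ν res hp
  obtain ⟨h01, h02⟩ := hM
  have hfix : ∀ P : PA a L, (∃ n : ℕ, 2 ^ n • P = 0) → t (px P) = px P := by
    intro P hPt
    have h1 := congrArg pt (hcon (mkN P hPt))
    rw [pt_smul, pt_mkN] at h1
    rw [← tnt_px, h1]
  have hint : ∀ P : PA a L, (∃ n : ℕ, 2 ^ n • P = 0) → ∀ c : ℚ,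
      ν (px P - al a L 0) = (c : WithTop ℚ) → ∃ m : ℤ, c = m := by
    intro P hPt c hc
    have e : t (al a L 0) = al a L 0 := t.commutes (a 0)
    have h1 : t (px P - al a L 0) = px P - al a L 0 := by rw [map_sub, hfix P hPt, e]
    have h2 : px P - al a L 0 ≠ 0 := by
      intro h
      rw [(hp.top _).2 h] at hc
      exact absurd hc (by simp)
    obtain ⟨m, hm⟩ := hp.int _ h1 h2
    exact ⟨m, WithTop.coe_inj.1 (hc.symm.trans hm)⟩
  have tors : ∀ P Q : PA a L, Q + Q = P → (∃ n : ℕ, 2 ^ n • P = 0) → ∃ n : ℕ, 2 ^ n • Q = 0 := by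
    rintro P Q hQ ⟨n, hn⟩
    refine ⟨n + 1, ?_⟩
    rw [pow_succ, mul_nsmul', two_nsmul, hQ, hn]
  have claim : ∀ n : ℕ, ∀ P : PA a L, P ≠ 0 → (∃ N : ℕ, 2 ^ N • P = 0) →
      ν (px P - al a L 0) = ((n : ℚ) : WithTop ℚ) → 0 < n →
      ((n : ℚ) : WithTop ℚ) < ν (al a L 0 - al a L 1) → False := by
    intro n
    induction n using Nat.strong_induction_on with
    | _ n ih =>
    intro P hP0 hPt hPn hn hlt
    obtain ⟨x, y, hxy⟩ := (g1 P).resolve_left hP0
    obtain ⟨-, hpx, hpy, heq⟩ := g2 P x y hxy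
    rw [hpx] at hPn
    have hx1 : ν (x - al a L 1) = ((n : ℚ) : WithTop ℚ) := by
      have := (p6 (x - al a L 0) (al a L 0 - al a L 1) (by rw [hPn]; exact hlt)).1
      rw [sub_add_sub_cancel, hPn] at this
      exact this
    have hn0 : (0 : WithTop ℚ) < ((n : ℚ) : WithTop ℚ) := by
      rw [← WithTop.coe_zero, WithTop.coe_lt_coe]; exact_mod_cast hn
    have hx2 : ν (x - al a L 2) = 0 := by
      have := (p6 (al a L 0 - al a L 2) (x - al a L 0) (by rw [hPn, h02]; exact hn0)).1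
      rw [h02, add_comm, sub_add_sub_cancel] at this
      exact this
    have key : ∃ r : Fin 3 → L, (∀ i, r i ^ 2 = x - al a L i) ∧ r 0 * r 1 * r 2 = y ∧
        ν (r 0 + r 1) = ν (r 0) := by
      obtain ⟨r, hr, hry⟩ := tnt_sq hQC heq
      obtain ⟨c0, hc0, hc0'⟩ := tnt_half hp (r := r 0) (n := n) (by rw [hr]; exact hPn)
      obtain ⟨c1, hc1, hc1'⟩ := tnt_half hp (r := r 1) (n := n) (by rw [hr]; exact hx1)
      have hc : c0 = c1 := by linarith
      rcases tnt_or hp p2 (u := r 0) (v := r 1) (by rw [hc0, hc1, hc]) with h | h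
      · exact ⟨r, hr, hry, h⟩
      · refine ⟨![r 0, -r 1, -r 2], ?_, ?_, ?_⟩
        · intro i
          fin_cases i
          · exact hr 0
          · show (-r 1) ^ 2 = _
            rw [neg_sq]; exact hr 1
          · show (-r 2) ^ 2 = _
            rw [neg_sq]; exact hr 2
        · show r 0 * (-r 1) * (-r 2) = y
          linear_combination hry
        · show ν (r 0 + -r 1) = ν (r 0)
          rw [← sub_eq_add_neg]; exact h
    obtain ⟨r, hr, hry, hr01⟩ := key
    obtain ⟨c0, hc0, hc0'⟩ := tnt_half hp (r := r 0) (n := n) (by rw [hr]; exact hPn)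
    have hr2 : ν (r 2) = 0 := p13 _ (by rw [hr]; exact hx2)
    have hnQ : (0 : ℚ) < n := by exact_mod_cast hn
    have hc0pos : 0 < c0 := by linarith
    have hr02 : ν (r 0 + r 2) = 0 := by
      have := (p6 (r 2) (r 0) (by
        rw [hr2, hc0, ← WithTop.coe_zero, WithTop.coe_lt_coe]; exact hc0pos)).1
      rw [hr2, add_comm] at this
      exact this
    obtain ⟨Q, -, hQ, -, hQx⟩ := hH K a L hyp P x y hxy r hr hry
    have hQt := tors P Q hQ hPt
    have hQ0 : Q ≠ 0 := by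
      rintro rfl
      exact hP0 (by rw [← hQ, add_zero])
    have hQn : ν (px Q - al a L 0) = (c0 : WithTop ℚ) := by
      rw [hQx 0]
      show ν ((r 0 + r 1) * (r 0 + r 2)) = _
      rw [hp.mul, hr01, hr02, add_zero, hc0]
    obtain ⟨m, hm⟩ := hint Q hQt c0 hQn
    have hm0 : 0 < m := by
      have : (0 : ℚ) < m := by rw [← hm]; exact hc0pos
      exact_mod_cast this
    have hmn : ((m.toNat : ℕ) : ℚ) = c0 := by
      rw [hm]
      exact_mod_cast Int.toNat_of_nonneg hm0.le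
    have hltn : m.toNat < n := by
      have : ((m.toNat : ℕ) : ℚ) < n := by rw [hmn]; linarith
      exact_mod_cast this
    refine ih m.toNat hltn Q hQ0 hQt (by rw [hmn]; exact hQn) (by omega) (lt_trans ?_ hlt)
    rw [WithTop.coe_lt_coe]
    exact_mod_cast hltn
  -- start
  obtain ⟨r1, hr1⟩ := hQC (al a L 0 - al a L 1)
  obtain ⟨r2, hr2⟩ := hQC (al a L 0 - al a L 2)
  have hne : al a L 0 - al a L 1 ≠ 0 := by
    intro h
    have h3 : a 0 = a 1 := (algebraMap K L).injective (sub_eq_zero.1 h)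
    exact absurd (hyp.2 h3) (by decide)
  obtain ⟨d, hd⟩ : ∃ d : ℚ, ν (al a L 0 - al a L 1) = (d : WithTop ℚ) := by
    rcases hd : ν (al a L 0 - al a L 1) with _ | d
    · exact absurd ((hp.top _).1 hd) hne
    · exact ⟨d, rfl⟩
  obtain ⟨c, hc, hc'⟩ := tnt_half hp (r := r1) (n := d) (by rw [hr1]; exact hd)
  have hdpos : 0 < d := by
    rw [hd, ← WithTop.coe_zero, WithTop.coe_lt_coe] at h01; exact h01
  obtain ⟨Q, -, hQ, -, hQx⟩ := hH K a L hyp (ee a 0) (al a L 0) 0 (v1 0) ![0, r1, r2] (by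
    intro i
    fin_cases i
    · show (0 : L) ^ 2 = al a L 0 - al a L 0
      simp
    · exact hr1
    · exact hr2) (by show (0 : L) * r1 * r2 = 0; simp)
  have hQt : ∃ n : ℕ, 2 ^ n • Q = 0 := by
    refine tors (ee a 0) Q hQ ⟨1, ?_⟩
    rw [pow_one, two_nsmul]
    exact (v2 _).2 (Or.inr ⟨0, rfl⟩)
  have hQ0 : Q ≠ 0 := by
    rintro rfl
    exact v3 0 (by rw [← hQ, add_zero])
  have hQn : ν (px Q - al a L 0) = (c : WithTop ℚ) := by
    rw [hQx 0]
    show ν ((0 + r1) * (0 + r2)) = _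
    rw [zero_add, zero_add, hp.mul, p13 r2 (by rw [hr2]; exact h02), add_zero, hc]
  obtain ⟨m, hm⟩ := hint Q hQt c hQn
  have hc0 : 0 < c := by linarith
  have hm0 : 0 < m := by
    have : (0 : ℚ) < m := by rw [← hm]; exact hc0
    exact_mod_cast this
  have hmn : ((m.toNat : ℕ) : ℚ) = c := by
    rw [hm]
    exact_mod_cast Int.toNat_of_nonneg hm0.le
  refine claim m.toNat Q hQ0 hQt (by rw [hmn]; exact hQn) (by omega) ?_
  rw [hmn, hd, WithTop.coe_lt_coe]
  linarith

end Pool.Agent.MP72S.C
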