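import Pool.Agent.Lib.MP_72e2e6_nt.Sm.C.SpecC

/-!
# MP_72e2e6_nt, `Sm`, block C: module Twi (scaling, translation, permutation of the `a i`)
-/

set_option autoImplicit false

namespace Pool.Agent.MP72S.C

open Finset WeierstrassCurve Pool.Agent.MP72W

open scoped Classical

namespace Twi

private theorem xy_of {L : Type} [Field L] {W : WeierstrassCurve.Affine L} {P : W.Point}
    {a b x y : L} (hP : XY P a b) (hx : a = x) (hy : b = y) : XY P x y := by
  subst hx hy
  exact hP

private theorem psum {L : Type} [Field L] (π : Equiv.Perm (Fin 3)) (g : Fin 3 → L) :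
    g (π 0) + g (π 1) + g (π 2) = g 0 + g 1 + g 2 := by
  have := Equiv.sum_comp π g
  rwa [Fin.sum_univ_three, Fin.sum_univ_three] at this

private theorem pprod {L : Type} [Field L] (π : Equiv.Perm (Fin 3)) (g : Fin 3 → L) :
    g (π 0) * g (π 1) * g (π 2) = g 0 * g 1 * g 2 := by
  have := Equiv.prod_comp π g
  rwa [Fin.prod_univ_three, Fin.prod_univ_three] at this

private theorem pe2 {L : Type} [Field L] (h2 : (2 : L) ≠ 0) (π : Equiv.Perm (Fin 3))
    (g : Fin 3 → L) :
    g (π 0) * g (π 1) + g (π 0) * g (π 2) + g (π 1) * g (π 2) =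
      g 0 * g 1 + g 0 * g 2 + g 1 * g 2 := by
  have e1 := psum π g
  have e2 : g (π 0) ^ 2 + g (π 1) ^ 2 + g (π 2) ^ 2 = g 0 ^ 2 + g 1 ^ 2 + g 2 ^ 2 :=
    psum π (fun i => g i ^ 2)
  have e3 : 2 * (g (π 0) * g (π 1) + g (π 0) * g (π 2) + g (π 1) * g (π 2)) =
      2 * (g 0 * g 1 + g 0 * g 2 + g 1 * g 2) := by
    linear_combination (g (π 0) + g (π 1) + g (π 2) + (g 0 + g 1 + g 2)) * e1 - e2
  exact mul_left_cancel₀ h2 e3

section

variable {K : Type} [Field K] {a : Fin 3 → K} {L : Type} [Field L] [Algebra K L]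

private theorem act_xy (s : Gal(L/K)) {P : PA a L} {x y : L} (h : XY P x y) :
    XY (act a s P) (s x) (s y) := by
  obtain ⟨h, rfl⟩ := h
  exact ⟨_, rfl⟩

/-- The map on the points. -/
private noncomputable def F (a' : Fin 3 → K) (E B δ : L) (P : PA a L) : PA a' L :=
  if h : ∃ Q : PA a' L, P ≠ 0 ∧ XY Q (E * px P + B) (E * δ * py P) then h.choose else 0

end

private theorem core (h1 : S_Grp) (h2 : S_Vee) {K : Type} [Field K] (a a' : Fin 3 → K)
    (L : Type) [Field L] [Algebra K L] (hyp : Hyp a L) (hyp' : Hyp a' L) (D b : K)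
    (π : Equiv.Perm (Fin 3)) (ha' : ∀ i, a' i = D * a (π i) + b) (E B δ : L)
    (hE : algebraMap K L D = E) (hB : algebraMap K L b = B) (hE0 : E ≠ 0) (hδ : δ ^ 2 = E) :
    ∃ φ : PA a L ≃+ PA a' L,
      (∀ (P : PA a L) (x y : L), XY P x y → XY (φ P) (E * x + B) (E * δ * y)) ∧
      (∀ i, φ (ee a (π i)) = ee a' i) ∧
      ∀ s : Gal(L/K), (s δ = δ ∨ s δ = -δ) ∧
        (s δ = δ → ∀ P, act a' s (φ P) = φ (act a s P)) ∧
        (s δ = -δ → ∀ P, act a' s (φ P) = - φ (act a s P)) := by
  obtain ⟨g1, g2, g3, g4, g5, g6, g7, g8, g9⟩ := h1 K a L hyp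
  obtain ⟨g1', g2', g3', g4', g5', g6', g7', g8', g9'⟩ := h1 K a' L hyp'
  obtain ⟨v1, -⟩ := h2 K a L hyp
  obtain ⟨v1', -⟩ := h2 K a' L hyp'
  have hδ0 : δ ≠ 0 := by
    intro h
    apply hE0
    rw [← hδ, h]; ring
  have hEδ : E * δ ≠ 0 := mul_ne_zero hE0 hδ0
  have hal : ∀ i, al a' L i = E * al a L (π i) + B := by
    intro i
    rw [al, al, ha', map_add, map_mul, hE, hB]
  -- the equation
  have heq : ∀ x y : L, y ^ 2 = (x - al a L 0) * (x - al a L 1) * (x - al a L 2) ↔
      (E * δ * y) ^ 2 = (E * x + B - al a' L 0) * (E * x + B - al a' L 1) *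
        (E * x + B - al a' L 2) := by
    intro x y
    have e1 : (x - al a L (π 0)) * (x - al a L (π 1)) * (x - al a L (π 2)) =
        (x - al a L 0) * (x - al a L 1) * (x - al a L 2) := pprod π (fun i => x - al a L i)
    rw [hal, hal, hal]
    have e2 : (E * x + B - (E * al a L (π 0) + B)) * (E * x + B - (E * al a L (π 1) + B)) *
        (E * x + B - (E * al a L (π 2) + B)) =
        E ^ 3 * ((x - al a L 0) * (x - al a L 1) * (x - al a L 2)) := by
      rw [← e1]; ring
    have e3 : (E * δ * y) ^ 2 = E ^ 3 * y ^ 2 := by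
      rw [mul_pow, mul_pow, hδ]; ring
    rw [e2, e3]
    constructor
    · intro h; rw [h]
    · intro h; exact mul_left_cancel₀ (pow_ne_zero 3 hE0) h
  have hF : ∀ (P : PA a L) (x y : L), XY P x y →
      XY (F a' E B δ P) (E * x + B) (E * δ * y) := by
    intro P x y h
    obtain ⟨hP, hx, hy, he⟩ := g2 P x y h
    have hex : ∃ Q : PA a' L, P ≠ 0 ∧ XY Q (E * px P + B) (E * δ * py P) := by
      obtain ⟨Q, hQ⟩ := g3' (E * x + B) (E * δ * y) ((heq x y).1 he)
      exact ⟨Q, hP, by rw [hx, hy]; exact hQ⟩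
    rw [F, dif_pos hex]
    exact xy_of hex.choose_spec.2 (by rw [hx]) (by rw [hy])
  have hF0 : F a' E B δ (0 : PA a L) = 0 := by
    rw [F, dif_neg]
    rintro ⟨Q, h, -⟩
    exact h rfl
  have hFn : ∀ P : PA a L, P ≠ 0 → F a' E B δ P ≠ 0 := by
    intro P hP
    rcases g1 P with h | ⟨x, y, h⟩
    · exact absurd h hP
    · exact (g2' _ _ _ (hF P x y h)).1
  have hinj : Function.Injective (F a' E B δ : PA a L → PA a' L) := by
    intro P Q hPQ
    by_cases hP : P = 0
    · by_contra hne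
      have hQ : Q ≠ 0 := fun h => hne (hP.trans h.symm)
      apply hFn Q hQ
      rw [← hPQ, hP, hF0]
    · have hQ : Q ≠ 0 := by
        intro h
        apply hFn P hP
        rw [hPQ, h, hF0]
      rcases g1 P with h | ⟨x, y, h⟩
      · exact absurd h hP
      rcases g1 Q with h' | ⟨x', y', h'⟩
      · exact absurd h' hQ
      obtain ⟨-, a1, a2, -⟩ := g2' _ _ _ (hF P x y h)
      obtain ⟨-, b1, b2, -⟩ := g2' _ _ _ (hF Q x' y' h')
      rw [hPQ, b1] at a1
      rw [hPQ, b2] at a2
      have ex : x' = x := mul_left_cancel₀ hE0 (add_right_cancel a1)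
      have ey : y' = y := mul_left_cancel₀ hEδ a2
      rw [ex, ey] at h'
      exact g4 P Q x y h h'
  have hsur : Function.Surjective (F a' E B δ : PA a L → PA a' L) := by
    intro R
    rcases g1' R with h | ⟨X, Y, h⟩
    · exact ⟨0, by rw [hF0, h]⟩
    · obtain ⟨-, -, -, he⟩ := g2' R X Y h
      have e1 : E * ((X - B) / E) + B = X := by
        rw [mul_div_cancel₀ _ hE0]; ring
      have e2 : E * δ * (Y / (E * δ)) = Y := mul_div_cancel₀ _ hEδ
      obtain ⟨P, hP⟩ := g3 ((X - B) / E) (Y / (E * δ)) ((heq _ _).2 (by rw [e1, e2]; exact he))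
      refine ⟨P, ?_⟩
      have h3 := hF P _ _ hP
      rw [e1, e2] at h3
      exact g4' _ _ _ _ h3 h
  have hneg : ∀ P : PA a L, F a' E B δ (-P) = -F a' E B δ P := by
    intro P
    rcases g1 P with h | ⟨x, y, h⟩
    · rw [h, neg_zero, hF0, neg_zero]
    · have e1 := hF _ _ _ (g5 P x y h)
      have e2 := g5' _ _ _ (hF P x y h)
      exact g4' _ _ _ _ (xy_of e1 rfl (by ring)) e2
  have hsum : al a' L 0 + al a' L 1 + al a' L 2 =
      E * (al a L 0 + al a L 1 + al a L 2) + 3 * B := by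
    have e1 : al a L (π 0) + al a L (π 1) + al a L (π 2) = al a L 0 + al a L 1 + al a L 2 :=
      psum π (fun i => al a L i)
    rw [hal, hal, hal, ← e1]
    ring
  have hadd : ∀ P Q : PA a L, F a' E B δ (P + Q) = F a' E B δ P + F a' E B δ Q := by
    intro P Q
    by_cases hP : P = 0
    · rw [hP, zero_add, hF0, zero_add]
    by_cases hQ : Q = 0
    · rw [hQ, add_zero, hF0, add_zero]
    obtain ⟨x, y, hxy⟩ : ∃ x y, XY P x y := (g1 P).resolve_left hP
    obtain ⟨x', y', hxy'⟩ : ∃ x y, XY Q x y := (g1 Q).resolve_left hQ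
    obtain ⟨-, hx, hy, -⟩ := g2 P x y hxy
    obtain ⟨-, hx', hy', -⟩ := g2 Q x' y' hxy'
    by_cases hne : px P = px Q
    · rcases g6 P Q hP hQ hne with h | h
      · subst h
        by_cases hy0 : y = 0
        · have e1 : Q + Q = 0 := g9 Q x (by rw [← hy0]; exact hxy)
          have e2 : F a' E B δ Q + F a' E B δ Q = 0 := by
            refine g9' _ (E * x + B) (xy_of (hF Q x y hxy) rfl ?_)
            rw [hy0, mul_zero]
          rw [e1, hF0, e2]
        · obtain ⟨fd, hfd⟩ : ∃ fd : L, fd = (x - al a L 0) * (x - al a L 1) +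
              (x - al a L 0) * (x - al a L 2) + (x - al a L 1) * (x - al a L 2) := ⟨_, rfl⟩
          have h2y : 2 * y ≠ 0 := mul_ne_zero hyp.1 hy0
          obtain ⟨l, hl⟩ : ∃ l : L, l = fd / (2 * y) := ⟨_, rfl⟩
          have hl2 : 2 * l * y = fd := by
            have : 2 * l * y = l * (2 * y) := by ring
            rw [this, hl, div_mul_cancel₀ _ h2y]
          obtain ⟨X, hX⟩ : ∃ X : L, X = l ^ 2 + (al a L 0 + al a L 1 + al a L 2) - 2 * x :=
            ⟨_, rfl⟩
          have e1 := hF _ _ _ (g8 Q x y l X hxy hy0 (by rw [hl2, hfd]) hX)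
          have e3 : 2 * (δ * l) * (E * δ * y) = (E * x + B - al a' L 0) * (E * x + B - al a' L 1) +
              (E * x + B - al a' L 0) * (E * x + B - al a' L 2) +
              (E * x + B - al a' L 1) * (E * x + B - al a' L 2) := by
            have e4 : (x - al a L (π 0)) * (x - al a L (π 1)) +
                (x - al a L (π 0)) * (x - al a L (π 2)) + (x - al a L (π 1)) * (x - al a L (π 2)) =
                (x - al a L 0) * (x - al a L 1) + (x - al a L 0) * (x - al a L 2) +
                (x - al a L 1) * (x - al a L 2) := pe2 hyp.1 π (fun i => x - al a L i)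
            rw [hal, hal, hal]
            have e5 : 2 * (δ * l) * (E * δ * y) = E ^ 2 * (2 * l * y) := by
              have : 2 * (δ * l) * (E * δ * y) = E * δ ^ 2 * (2 * l * y) := by ring
              rw [this, hδ]; ring
            rw [e5, hl2, hfd, ← e4]
            ring
          have e6 := g8' (F a' E B δ Q) (E * x + B) (E * δ * y) (δ * l) (E * X + B)
            (hF Q x y hxy) (mul_ne_zero hEδ hy0) e3 (by
              rw [hsum, hX, mul_pow, hδ]; ring)
          exact g4' _ _ _ _ e1 (xy_of e6 rfl (by ring))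
      · rw [h, add_neg_cancel, hF0, hneg, add_neg_cancel]
    · rw [hx, hx'] at hne
      have hxne : x - x' ≠ 0 := sub_ne_zero.2 hne
      obtain ⟨l, hl⟩ : ∃ l : L, l = (y - y') / (x - x') := ⟨_, rfl⟩
      have hl2 : l * (x - x') = y - y' := by rw [hl, div_mul_cancel₀ _ hxne]
      obtain ⟨X, hX⟩ : ∃ X : L, X = l ^ 2 + (al a L 0 + al a L 1 + al a L 2) - x - x' :=
        ⟨_, rfl⟩
      have e1 := hF _ _ _ (g7 P Q x y x' y' l X hxy hxy' hne hl2 hX)
      have hne' : E * x + B ≠ E * x' + B := fun h =>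
        hne (mul_left_cancel₀ hE0 (add_right_cancel h))
      have e6 := g7' (F a' E B δ P) (F a' E B δ Q) (E * x + B) (E * δ * y) (E * x' + B)
        (E * δ * y') (δ * l) (E * X + B) (hF P x y hxy) (hF Q x' y' hxy') hne'
        (by linear_combination (E * δ) * hl2) (by rw [hsum, hX, mul_pow, hδ]; ring)
      exact g4' _ _ _ _ e1 (xy_of e6 rfl (by ring))
  refine ⟨AddEquiv.ofBijective (AddMonoidHom.mk' (F a' E B δ) hadd) ⟨hinj, hsur⟩, ?_, ?_, ?_⟩
  · exact hF
  · intro i
    have e1 := hF _ _ _ (v1 (π i))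
    exact g4' _ _ _ _ (xy_of e1 rfl (by rw [mul_zero])) (xy_of (v1' i) (hal i) rfl)
  · intro s
    have hsE : s E = E := by rw [← hE]; exact s.commutes D
    have hsB : s B = B := by rw [← hB]; exact s.commutes b
    refine ⟨?_, ?_, ?_⟩
    · have : (s δ) ^ 2 = δ ^ 2 := by rw [← map_pow, hδ, hsE]
      exact sq_eq_sq_iff_eq_or_eq_neg.1 this
    · intro hs P
      change act a' s (F a' E B δ P) = F a' E B δ (act a s P)
      rcases g1 P with h | ⟨x, y, h⟩
      · rw [h, hF0, map_zero, map_zero, hF0]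
      · have e1 := act_xy s (hF P x y h)
        have e2 := hF _ _ _ (act_xy s h)
        refine g4' _ _ _ _ (xy_of e1 ?_ ?_) e2
        · rw [map_add, map_mul, hsE, hsB]
        · rw [map_mul, map_mul, hsE, hs]
    · intro hs P
      change act a' s (F a' E B δ P) = - F a' E B δ (act a s P)
      rcases g1 P with h | ⟨x, y, h⟩
      · rw [h, hF0, map_zero, map_zero, hF0, neg_zero]
      · have e1 := act_xy s (hF P x y h)
        have e2 := g5' _ _ _ (hF _ _ _ (act_xy s h))
        refine g4' _ _ _ _ (xy_of e1 ?_ ?_) e2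
        · rw [map_add, map_mul, hsE, hsB]
        · rw [map_mul, map_mul, hsE, hs]; ring

end Twi

open Twi in
theorem tTwi (h1 : S_Grp) (h2 : S_Vee) : S_Twi := by
  intro K _ a L _ _ hyp D b hD δ hδ π
  have hyp' : Hyp (fun i => D * a (π i) + b) L := by
    refine ⟨hyp.1, fun i j h => ?_⟩
    have h3 : D * a (π i) = D * a (π j) := by
      have h4 : D * a (π i) + b = D * a (π j) + b := h
      exact add_right_cancel h4
    exact π.injective (hyp.2 (mul_left_cancel₀ hD h3))
  exact ⟨hyp', core h1 h2 a (fun i => D * a (π i) + b) L hyp hyp' D b π (fun _ => rfl) _ _ δ rfl rfl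
    ((map_ne_zero (algebraMap K L)).2 hD) hδ⟩

end Pool.Agent.MP72S.C
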