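import Pool.Agent.Lib.MP_72e2e6_nt.Sm.C.SpecC

/-!
# MP_72e2e6_nt, `Sm`, block C: module Uac (the action on the points with nonsingular reduction)
-/

set_option autoImplicit false

namespace Pool.Agent.MP72S.C

open Finset WeierstrassCurve Pool.Agent.MP72W

open scoped Classical

theorem tUac (h1 : S_Usg) (h2 : S_Tht) : S_Uac := by
  intro K _ a L _ _ k _ t f q ν res hyp hQ hpl hml
  obtain ⟨u0, uadd, uneg, -, -, -, uact⟩ := h1 K a L k t f q ν res hyp hpl hml
  obtain ⟨θ, tmul, tne, t0, tt, tf⟩ := h2 K a L k t f q ν res hyp hQ hpl hml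
  have hneg : ∀ P : PA a L, Us a ν P → θ P * θ (-P) = 1 := by
    intro P hP
    rw [← tmul P (-P) hP (uneg P hP), add_neg_cancel, t0]
  have hsub : ∀ P Q : PA a L, Us a ν P → Us a ν Q → θ P = θ Q → P = Q := by
    intro P Q hP hQ' h
    have h3 : θ (P + -Q) = 1 := by
      rw [tmul P (-Q) hP (uneg Q hQ'), h, hneg Q hQ']
    have h4 := (tne (P + -Q) (uadd _ _ hP (uneg Q hQ'))).2 h3
    rwa [← sub_eq_add_neg, sub_eq_zero] at h4
  have hmul : ∀ (n : ℕ) (P : PA a L), Us a ν P → Us a ν (n • P) ∧ θ (n • P) = θ P ^ n := by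
    intro n P hP
    induction n with
    | zero =>
      rw [zero_nsmul, pow_zero]
      exact ⟨u0, t0⟩
    | succ n ih =>
      rw [succ_nsmul, pow_succ]
      exact ⟨uadd _ _ ih.1 hP, by rw [tmul _ _ ih.1 hP, ih.2]⟩
  refine ⟨fun P hP => hsub _ _ (uact P hP).1 hP (tt P hP), ?_⟩
  rcases tf with h | h
  · refine ⟨1, Or.inl rfl, fun P hP => ?_⟩
    rw [one_mul, natCast_zsmul]
    apply hsub _ _ (uact P hP).2 (hmul q P hP).1
    rw [h P hP, (hmul q P hP).2]
  · refine ⟨-1, Or.inr rfl, fun P hP => ?_⟩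
    rw [neg_one_mul, neg_zsmul, natCast_zsmul]
    apply hsub _ _ (uact P hP).2 (uneg _ (hmul q P hP).1)
    have h3 := h P hP
    have h4 := hneg _ (hmul q P hP).1
    rw [(hmul q P hP).2] at h4
    have h5 : θ P ^ q ≠ 0 := pow_ne_zero q (tne P hP).1
    apply mul_right_cancel₀ h5
    rw [h3, ← h4, mul_comm]

end Pool.Agent.MP72S.C
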