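import Pool.Agent.Lib.MP_72e2e6_nt.Sm.C.SpecC

/-! # MP_72e2e6_nt, `Sm`, block C: halves with nonsingular reduction -/

set_option autoImplicit false

namespace Pool.Agent.MP72S.C

open Finset WeierstrassCurve Pool.Agent.MP72W

open scoped Classical

private theorem uhf_sq {K : Type} [Field K] {a : Fin 3 → K} {L : Type} [Field L] [Algebra K L]
    (hQC : QC L) {x y : L} (h : y ^ 2 = (x - al a L 0) * (x - al a L 1) * (x - al a L 2)) :
    ∃ r : Fin 3 → L, (∀ i, r i ^ 2 = x - al a L i) ∧ r 0 * r 1 * r 2 = y := by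
  choose r hr using fun i => hQC (x - al a L i)
  have h1 : (r 0 * r 1 * r 2) ^ 2 = y ^ 2 := by
    rw [h, mul_pow, mul_pow, hr, hr, hr]
  rcases sq_eq_sq_iff_eq_or_eq_neg.1 h1 with e | e
  · exact ⟨r, hr, e⟩
  · exact ⟨fun i => -r i, fun i => by rw [neg_sq, hr], by linear_combination -e⟩

private theorem uhf_or {K : Type} [Field K] {L : Type} [Field L] [Algebra K L] {k : Type} [Field k]
    {t f : Gal(L/K)} {q : ℕ} {ν : L → WithTop ℚ} {res : L → k} (hp : Plc t f q ν res)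
    (hn : ∀ x, ν (-x) = ν x) {u v : L} (h : ν u = ν v) : ν (u + v) = ν u ∨ ν (u - v) = ν u := by
  have h1 : ν u ≤ ν (u + v) := by simpa [← h] using hp.add u v
  have h2 : ν u ≤ ν (u - v) := by
    have := hp.add u (-v)
    rw [hn, ← h, min_self, ← sub_eq_add_neg] at this
    exact this
  have h3 := hp.add (u + v) (u - v)
  have h4 : ν ((u + v) + (u - v)) = ν u := by
    have : (u + v) + (u - v) = 2 * u := by ring
    rw [this, hp.mul, hp.two, zero_add]
  rw [h4] at h3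
  rcases min_le_iff.1 h3 with h5 | h5
  · exact Or.inl (le_antisymm h5 h1)
  · exact Or.inr (le_antisymm h5 h2)

theorem tUhf (hG : S_Grp) (_hV : S_Vee) (hH : S_Hal) (hP : S_Ppr) (_hI : S_Int) : S_Uhf := by
  intro K _ a L _ _ k _ t f q ν res hyp hQC hp hM P hU
  obtain ⟨g1, g2, -⟩ := hG K a L hyp
  obtain ⟨-, p2, p3, -, p5, p6, -, -, -, -, -, -, p13, p14, p15⟩ := hP K L k t f q ν res hp
  obtain ⟨⟨n, hn⟩, hU2⟩ := hU
  have tors : ∀ Q : PA a L, Q + Q = P → ∃ n : ℕ, 2 ^ n • Q = 0 := by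
    intro Q hQ
    refine ⟨n + 1, ?_⟩
    rw [pow_succ, mul_nsmul', two_nsmul, hQ, hn]
  rcases g1 P with rfl | ⟨x, y, hxy⟩
  · exact ⟨0, ⟨⟨0, by simp⟩, Or.inl rfl⟩, by simp⟩
  obtain ⟨hP0, hpx, hpy, heq⟩ := g2 P x y hxy
  have hx0 : ν (x - al a L 0) = 0 := by
    rcases hU2 with h | h
    · exact absurd h hP0
    · rwa [hpx] at h
  obtain ⟨h01, h02⟩ := hM
  have hx1 : ν (x - al a L 1) = 0 := by
    have := (p6 (x - al a L 0) (al a L 0 - al a L 1) (by rw [hx0]; exact h01)).1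
    rw [sub_add_sub_cancel, hx0] at this
    exact this
  have hx2 : 0 ≤ ν (x - al a L 2) := by
    have := (p5 (x - al a L 0) (al a L 0 - al a L 2) hx0.ge h02.ge).1
    rwa [sub_add_sub_cancel] at this
  have key : ∃ r : Fin 3 → L, (∀ i, r i ^ 2 = x - al a L i) ∧ r 0 * r 1 * r 2 = y ∧
      ν (r 0 + r 1) = 0 := by
    obtain ⟨r, hr, hry⟩ := uhf_sq hQC heq
    have r0 : ν (r 0) = 0 := p13 _ (by rw [hr]; exact hx0)
    have r1 : ν (r 1) = 0 := p13 _ (by rw [hr]; exact hx1)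
    rcases uhf_or hp p2 (r0.trans r1.symm) with h | h
    · exact ⟨r, hr, hry, h.trans r0⟩
    · refine ⟨![r 0, -r 1, -r 2], ?_, ?_, ?_⟩
      · intro i
        fin_cases i
        · exact hr 0
        · show (-r 1) ^ 2 = _
          rw [neg_sq]; exact hr 1
        · show (-r 2) ^ 2 = _
          rw [neg_sq]; exact hr 2
      · show r 0 * (-r 1) * (-r 2) = y
        linear_combination hry
      · show ν (r 0 + -r 1) = 0
        rw [← sub_eq_add_neg]; exact h.trans r0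
  obtain ⟨r, hr, hry, hr01⟩ := key
  have r0 : ν (r 0) = 0 := p13 _ (by rw [hr]; exact hx0)
  have r2 : 0 ≤ ν (r 2) := p14 _ (by rw [hr]; exact hx2)
  have hprod : (r 0 + r 2) * (r 0 - r 2) = -(al a L 0 - al a L 2) := by
    linear_combination hr 0 - hr 2
  have hr02 : ν (r 0 + r 2) = 0 := by
    refine (p15 (r 0 + r 2) (r 0 - r 2) ?_ (p5 _ _ r0.ge r2).1 (p5 _ _ r0.ge r2).2.1).1
    rw [hprod, p2, h02]
  obtain ⟨Q, -, hQ, -, hQx⟩ := hH K a L hyp P x y hxy r hr hry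
  refine ⟨Q, ⟨tors Q hQ, Or.inr ?_⟩, hQ⟩
  rw [hQx 0]
  exact p3 _ _ hr01 hr02

end Pool.Agent.MP72S.C
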