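import Pool.Agent.Lib.MP_72e2e6_nt.Sm.C.SpecC

/-! # MP_72e2e6_nt, `Sm`, block C: the points with nonsingular reduction form a subgroup -/

set_option autoImplicit false

namespace Pool.Agent.MP72S.C

open Finset WeierstrassCurve Pool.Agent.MP72W

open scoped Classical

private theorem usg_px {K : Type} [Field K] {a : Fin 3 → K} {L : Type} [Field L] [Algebra K L]
    (s : Gal(L/K)) (P : PA a L) : px (act a s P) = s (px P) := by
  cases P with
  | zero => exact (map_zero s).symm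
  | some x y h => rfl

private theorem usg_act {K : Type} [Field K] {a : Fin 3 → K} {L : Type} [Field L] [Algebra K L]
    {ν : L → WithTop ℚ} (s : Gal(L/K)) (hs : ∀ x, ν (s x) = ν x) (P : PA a L) (h : Us a ν P) :
    Us a ν (act a s P) := by
  refine ⟨act_mem h.1, ?_⟩
  rcases h.2 with h | h
  · left; rw [h, map_zero]
  · right
    have e : s (al a L 0) = al a L 0 := s.commutes (a 0)
    rw [← hs (px P - al a L 0), map_sub, e] at h
    rw [usg_px]; exact h

theorem tUsg (hG : S_Grp) (hV : S_Vee) (hP : S_Ppr) (hR : S_Prd) (hI : S_Int) : S_Usg := by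
  intro K _ a L _ _ k _ t f q ν res hyp hp hM
  obtain ⟨g1, g2, -, -, g5, g6, -⟩ := hG K a L hyp
  obtain ⟨v1, v2, -⟩ := hV K a L hyp
  obtain ⟨-, p2, p3, -, p5, p6, -, -, -, -, -, -, p13, p14, p15⟩ := hP K L k t f q ν res hp
  obtain ⟨r1, r2⟩ := hR K a L hyp
  obtain ⟨h01, h02⟩ := hM
  have h12 : ν (al a L 1 - al a L 2) = 0 := by
    have := (p6 (al a L 0 - al a L 2) (al a L 0 - al a L 1) (by rw [h02]; exact h01)).2.1
    rw [h02] at this
    have e : (al a L 0 - al a L 2) - (al a L 0 - al a L 1) = al a L 1 - al a L 2 := by ring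
    rwa [e] at this
  have hself : ∀ x : L, 0 ≤ ν (x - x) := by
    intro x; rw [sub_self, (hp.top 0).2 rfl]; exact le_top
  have hsw : ∀ i j, ν (al a L i - al a L j) = ν (al a L j - al a L i) := by
    intro i j; rw [← p2, neg_sub]
  have hint : ∀ i j, 0 ≤ ν (al a L i - al a L j) := by
    intro i j
    fin_cases i <;> fin_cases j
    · exact hself _
    · exact h01.le
    · exact h02.ge
    · exact (h01.le).trans_eq (hsw 0 1)
    · exact hself _
    · exact h12.ge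
    · exact (h02.ge).trans_eq (hsw 0 2)
    · exact (h12.ge).trans_eq (hsw 1 2)
    · exact hself _
  have hInt := hI K a L k t f q ν res hyp hp hint
  have pxn : ∀ P : PA a L, px (-P) = px P := by
    intro P
    rcases g1 P with rfl | ⟨x, y, hxy⟩
    · rw [neg_zero]
    · rw [(g2 _ _ _ (g5 _ _ _ hxy)).2.1, (g2 _ _ _ hxy).2.1]
  have ux : ∀ P : PA a L, Us a ν P → P ≠ 0 → ν (px P - al a L 0) = 0 := by
    intro P h h0
    rcases h.2 with h | h
    · exact absurd h h0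
    · exact h
  have hsq : ∀ z : L, ν z = 0 → ν (z ^ 2) = 0 := by
    intro z hz; rw [pow_two]; exact p3 _ _ hz hz
  have hBpos : ∀ u : L, ν u = 0 → ν ((u - (al a L 0 - al a L (0 + 1)) *
      (al a L 0 - al a L (0 + 2))) ^ 2) = 0 := by
    intro u hu
    apply hsq
    rw [(p6 u _ ?_).2.1, hu]
    rw [hu, hp.mul]
    show 0 < ν (al a L 0 - al a L 1) + ν (al a L 0 - al a L 2)
    rw [h02, add_zero]
    exact h01
  have neg_us : ∀ P : PA a L, Us a ν P → Us a ν (-P) := by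
    rintro P ⟨⟨n, hn⟩, h⟩
    refine ⟨⟨n, tors_neg hn⟩, ?_⟩
    rcases h with h | h
    · left; rw [h, neg_zero]
    · right; rw [pxn]; exact h
  -- different x coordinates
  have core : ∀ P Q : PA a L, Us a ν P → Us a ν Q → P ≠ 0 → Q ≠ 0 → px P ≠ px Q →
      ν (px (P + Q) - al a L 0) = 0 ∧ ν (px P - px Q) = 0 := by
    intro P Q hPu hQu hP0 hQ0 hne
    obtain ⟨n, hn⟩ := hPu.1
    obtain ⟨m, hm⟩ := hQu.1
    have e1 := r1 P Q 0 hP0 hQ0 hne
    have s0 : P + Q ≠ 0 := by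
      intro h
      apply hne
      rw [eq_neg_of_add_eq_zero_left h, pxn]
    have d0 : P - Q ≠ 0 := by
      intro h
      apply hne
      rw [sub_eq_zero.1 h]
    have i1 := (hInt (P + Q) ⟨n + m, tors_add hn hm⟩ s0).1 0
    have i2 := (hInt (P - Q) ⟨n + m, by rw [sub_eq_add_neg]; exact tors_add hn (tors_neg hm)⟩ d0).1 0
    have a1 := ux P hPu hP0
    have a2 := ux Q hQu hQ0
    have i3 : 0 ≤ ν (px P - px Q) := by
      have := (p5 _ _ a1.ge a2.ge).2.1
      rwa [sub_sub_sub_cancel_right] at this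
    have i4 : 0 ≤ ν ((px P - px Q) ^ 2) := by
      rw [pow_two]; exact (p5 _ _ i3 i3).2.2
    have e2 : ν ((px (P + Q) - al a L 0) * (px (P - Q) - al a L 0) * (px P - px Q) ^ 2) = 0 := by
      rw [e1]; exact hBpos _ (p3 _ _ a1 a2)
    obtain ⟨e3, e4⟩ := p15 _ _ e2 (p5 _ _ i1 i2).2.2 i4
    exact ⟨(p15 _ _ e3 i1 i2).1, p13 _ e4⟩
  have dbl : ∀ P : PA a L, Us a ν P → P + P ≠ 0 → ν (px (P + P) - al a L 0) = 0 ∧
      ν (py P) = 0 := by
    intro P hPu h2
    obtain ⟨n, hn⟩ := hPu.1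
    have hP0 : P ≠ 0 := by rintro rfl; exact h2 (by simp)
    have e1 := r2 P 0 h2
    have i1 := (hInt (P + P) ⟨n + n, tors_add hn hn⟩ h2).1 0
    have i2 := (hInt P ⟨n, hn⟩ hP0).2
    have a1 := ux P hPu hP0
    have e2 : ν ((px (P + P) - al a L 0) * (2 * py P) ^ 2) = 0 := by
      rw [e1]; exact hBpos _ (hsq _ a1)
    have i3 : 0 ≤ ν (2 * py P) := by rw [hp.mul, hp.two, zero_add]; exact i2
    have i4 : 0 ≤ ν ((2 * py P) ^ 2) := by
      rw [pow_two]; exact (p5 _ _ i3 i3).2.2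
    obtain ⟨e3, e4⟩ := p15 _ _ e2 i1 i4
    have e5 := p13 _ e4
    rw [hp.mul, hp.two, zero_add] at e5
    exact ⟨e3, e5⟩
  refine ⟨⟨⟨0, by simp⟩, Or.inl rfl⟩, ?_, neg_us, ?_, fun P Q hPu hQu hP0 hQ0 hne =>
    (core P Q hPu hQu hP0 hQ0 hne).2, fun P hPu h2 => (dbl P hPu h2).2, fun P hPu =>
    ⟨usg_act t hp.nt P hPu, usg_act f hp.nf P hPu⟩⟩
  · intro P Q hPu hQu
    obtain ⟨n, hn⟩ := hPu.1
    obtain ⟨m, hm⟩ := hQu.1
    refine ⟨⟨n + m, tors_add hn hm⟩, ?_⟩
    by_cases hP0 : P = 0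
    · rw [hP0, zero_add]; exact hQu.2
    by_cases hQ0 : Q = 0
    · rw [hQ0, add_zero]; exact hPu.2
    by_cases hne : px P = px Q
    · rcases g6 P Q hP0 hQ0 hne with h | h
      · by_cases h2 : P + P = 0
        · left; rw [h, h2]
        · right; rw [h]; exact (dbl P hPu h2).1
      · left; rw [h, add_neg_cancel]
    · right; exact (core P Q hPu hQu hP0 hQ0 hne).1
  · have hx := v1 2
    obtain ⟨-, hpx, -, -⟩ := g2 _ _ _ hx
    refine ⟨⟨1, ?_⟩, Or.inr ?_⟩
    · rw [pow_one, two_nsmul]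
      exact (v2 _).2 (Or.inr ⟨2, rfl⟩)
    · rw [hpx, ← hsw 0 2, h02]

end Pool.Agent.MP72S.C
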