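import Pool.Agent.Lib.MP_72e2e6_nt.Sm.C.SpecC

/-!
# MP_72e2e6_nt, `Sm`, block C: module Vee (the points of order two)
-/

set_option autoImplicit false

namespace Pool.Agent.MP72S.C

open Finset WeierstrassCurve Pool.Agent.MP72W

open scoped Classical

private theorem vee_tri : ∀ i j k : Fin 3, i ≠ j →
    (if -(i + j) = k then (0 : ZMod 2) else 1) =
      (if i = k then 0 else 1) + (if j = k then 0 else 1) := by
  decide

private theorem vee_ix : ∀ i j : Fin 3, i ≠ j →
    (j = i + 1 ∧ -(i + j) = i + 2) ∨ (i = j + 1 ∧ -(i + j) = j + 2) := by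
  decide

theorem tVee (h1 : S_Grp) : S_Vee := by
  intro K _ a L _ _ hyp
  obtain ⟨g1, g2, g3, g4, g5, -, g7, -, g9⟩ := h1 K a L hyp
  obtain ⟨h2, hinj⟩ := hyp
  have hal : ∀ i j, al a L i = al a L j → i = j := fun i j h =>
    hinj ((algebraMap K L).injective h)
  have e1 : ∀ i, XY (ee a i : PA a L) (al a L i) 0 := by
    intro i
    have h : ∃ P : PA a L, XY P (al a L i) 0 := by
      apply g3
      fin_cases i
      · change (0 : L) ^ 2 = (al a L 0 - al a L 0) * (al a L 0 - al a L 1) *
          (al a L 0 - al a L 2)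
        ring
      · change (0 : L) ^ 2 = (al a L 1 - al a L 0) * (al a L 1 - al a L 1) *
          (al a L 1 - al a L 2)
        ring
      · change (0 : L) ^ 2 = (al a L 2 - al a L 0) * (al a L 2 - al a L 1) *
          (al a L 2 - al a L 2)
        ring
    unfold ee
    rw [dif_pos h]
    exact h.choose_spec
  have e3 : ∀ i, (ee a i : PA a L) ≠ 0 := fun i => (g2 _ _ _ (e1 i)).1
  have e4 : ∀ i j, (ee a i : PA a L) = ee a j → i = j := by
    intro i j h
    apply hal
    rw [← (g2 _ _ _ (e1 i)).2.1, ← (g2 _ _ _ (e1 j)).2.1, h]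
  have e22 : ∀ P : PA a L, P + P = 0 ↔ P = 0 ∨ ∃ i, P = ee a i := by
    intro P
    constructor
    · intro hP
      rcases g1 P with h | ⟨x, y, h⟩
      · exact Or.inl h
      · right
        have hn : -P = P := neg_eq_of_add_eq_zero_left hP
        have hy : -y = y := by
          have h3 := (g2 _ _ _ (g5 P x y h)).2.2.1
          rw [hn, (g2 _ _ _ h).2.2.1] at h3
          exact h3.symm
        have hy0 : y = 0 := by
          have h4 : 2 * y = 0 := by linear_combination -hy
          exact (mul_eq_zero.1 h4).resolve_left h2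
        subst hy0
        have h5 := (g2 _ _ _ h).2.2.2
        have h6 : (x - al a L 0) * (x - al a L 1) * (x - al a L 2) = 0 := by
          rw [← h5]; ring
        rcases mul_eq_zero.1 h6 with h7 | h7
        · rcases mul_eq_zero.1 h7 with h8 | h8
          · have h9 := sub_eq_zero.1 h8
            exact ⟨0, g4 _ _ _ _ h (h9 ▸ e1 0)⟩
          · have h9 := sub_eq_zero.1 h8
            exact ⟨1, g4 _ _ _ _ h (h9 ▸ e1 1)⟩
        · have h9 := sub_eq_zero.1 h7
          exact ⟨2, g4 _ _ _ _ h (h9 ▸ e1 2)⟩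
    · rintro (h | ⟨i, h⟩)
      · rw [h, add_zero]
      · rw [h]
        exact g9 _ _ (e1 i)
  have hsum : ∀ i : Fin 3, al a L 0 + al a L 1 + al a L 2 =
      al a L i + al a L (i + 1) + al a L (i + 2) := by
    intro i
    fin_cases i
    · rfl
    · change _ = al a L 1 + al a L 2 + al a L 0
      ring
    · change _ = al a L 2 + al a L 0 + al a L 1
      ring
  have hi1 : ∀ i : Fin 3, i ≠ i + 1 := by decide
  have e5 : ∀ i, (ee a i : PA a L) + ee a (i + 1) = ee a (i + 2) := by
    intro i
    have hne : al a L i ≠ al a L (i + 1) := fun h => hi1 i (hal _ _ h)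
    have h3 := g7 (ee a i) (ee a (i + 1)) (al a L i) 0 (al a L (i + 1)) 0 0 (al a L (i + 2))
      (e1 i) (e1 (i + 1)) hne (by ring) (by rw [hsum i]; ring)
    rw [zero_mul, sub_zero] at h3
    exact g4 _ _ _ _ h3 (e1 (i + 2))
  have e5' : ∀ i j : Fin 3, i ≠ j → (ee a i : PA a L) + ee a j = ee a (-(i + j)) := by
    intro i j hij
    rcases vee_ix i j hij with ⟨h, h'⟩ | ⟨h, h'⟩
    · rw [h']
      subst h
      exact e5 i
    · rw [h', add_comm]
      subst h
      exact e5 j
  have z0 : ∀ z : PA a L, e2 (0 : PA a L) z = 0 := fun z => if_pos (Or.inl rfl)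
  have e10 : ∀ x : PA a L, e2 x (0 : PA a L) = 0 := fun x => if_pos (Or.inr (Or.inl rfl))
  have e8 : ∀ x : PA a L, e2 x x = 0 := fun x => if_pos (Or.inr (Or.inr rfl))
  have e9 : ∀ i j, e2 (ee a i : PA a L) (ee a j) = if i = j then 0 else 1 := by
    intro i j
    by_cases hij : i = j
    · subst hij
      rw [e8, if_pos rfl]
    · rw [if_neg hij]
      unfold e2
      rw [if_neg]
      rintro (h | h | h)
      · exact e3 i h
      · exact e3 j h
      · exact hij (e4 i j h)
  have e6 : ∀ x y z : PA a L, x + x = 0 → y + y = 0 → z + z = 0 →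
      e2 (x + y) z = e2 x z + e2 y z := by
    intro x y z hx hy hz
    rcases (e22 x).1 hx with rfl | ⟨i, rfl⟩
    · rw [zero_add, z0, zero_add]
    rcases (e22 y).1 hy with rfl | ⟨j, rfl⟩
    · rw [add_zero, z0, add_zero]
    rcases (e22 z).1 hz with rfl | ⟨k, rfl⟩
    · rw [e10, e10, e10, add_zero]
    by_cases hij : i = j
    · subst hij
      rw [hx, z0]
      exact (CharTwo.add_self_eq_zero _).symm
    · rw [e5' i j hij, e9, e9, e9]
      exact vee_tri i j k hij
  refine ⟨e1, e22, e3, e4, e5, e6, ?_, e8, e9, e10, ?_⟩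
  · intro x y
    unfold e2
    by_cases h : x = 0 ∨ y = 0 ∨ x = y
    · have h' : y = 0 ∨ x = 0 ∨ y = x := by
        rcases h with h | h | h
        · exact Or.inr (Or.inl h)
        · exact Or.inl h
        · exact Or.inr (Or.inr h.symm)
      rw [if_pos h, if_pos h']
    · have h' : ¬(y = 0 ∨ x = 0 ∨ y = x) := by
        rintro (h3 | h3 | h3)
        · exact h (Or.inr (Or.inl h3))
        · exact h (Or.inl h3)
        · exact h (Or.inr (Or.inr h3.symm))
      rw [if_neg h, if_neg h']
  · intro x hx hall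
    rcases (e22 x).1 hx with h | ⟨i, rfl⟩
    · exact h
    · exfalso
      have h3 := hall (ee a (i + 1)) ((e22 _).2 (Or.inr ⟨_, rfl⟩))
      rw [e9, if_neg (hi1 i)] at h3
      exact one_ne_zero h3

end Pool.Agent.MP72S.C
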