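import Pool.Agent.Lib.MP_72e2e6_nt.Sm.C.SpecA

/-!
# `Sm/C/WPb`: basic properties of the pairings
-/

set_option autoImplicit false

namespace Pool.Agent.MP72S.C

private theorem pw_zsmul {A : Type} [AddCommGroup A] {m : ℕ} {x : A} (h : 2 ^ m • x = 0) (k : ℤ) :
    2 ^ m • (k • x) = 0 := by
  rw [smul_comm, h, smul_zero]

private def Tm (A : Type) [AddCommGroup A] (m : ℕ) : AddSubgroup A where
  carrier := {x | 2 ^ m • x = 0}
  zero_mem' := smul_zero _
  add_mem' := fun {a b} ha hb => by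
    change 2 ^ m • (a + b) = 0
    have ha' : 2 ^ m • a = 0 := ha
    have hb' : 2 ^ m • b = 0 := hb
    rw [smul_add, ha', hb', add_zero]
  neg_mem' := fun {a} ha => by
    change 2 ^ m • (-a) = 0
    have ha' : 2 ^ m • a = 0 := ha
    rw [smul_neg, ha', neg_zero]

theorem tWPb (h1 : S_Bs2) : S_WPb := by
  intro N R _ _ hf e E hN hR he hE
  have H1 : ∀ m a b c, 2 ^ m • a = 0 → 2 ^ m • b = 0 → 2 ^ m • c = 0 →
      E m c (a + b) = E m c a + E m c b := by
    intro m a b c ha hb hc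
    have hab : 2 ^ m • (a + b) = 0 := by rw [smul_add, ha, hb, add_zero]
    rw [hE.anti m c (a + b) hc hab, hE.add m a b c ha hb hc, hE.anti m c a hc ha,
      hE.anti m c b hc hb, neg_add]
  have H2 : ∀ (m : ℕ) (k : ℤ) a b, 2 ^ m • a = 0 → 2 ^ m • b = 0 →
      E m (k • a) b = k • E m a b ∧ E m a (k • b) = k • E m a b := by
    intro m k a b ha hb
    have hL : ∀ a b, 2 ^ m • a = 0 → 2 ^ m • b = 0 → E m (k • a) b = k • E m a b := by
      intro a b ha hb
      let f : Tm N m →+ R := AddMonoidHom.mk' (fun x => E m x.1 b) (fun x y =>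
        hE.add m x.1 y.1 b x.2 y.2 hb)
      have := map_zsmul f k ⟨a, ha⟩
      exact this
    refine ⟨hL a b ha hb, ?_⟩
    rw [hE.anti m a (k • b) ha (pw_zsmul hb k), hL b a hb ha, hE.anti m a b ha hb, smul_neg]
  have H3 : ∀ m a b, 2 ^ m • a = 0 → 2 ^ (m + 1) • b = 0 → E (m + 1) a b = E m a (2 • b) := by
    intro m a b ha hb
    have ha' : 2 ^ (m + 1) • a = 0 := by rw [pow_succ, mul_smul, smul_comm, ha, smul_zero]
    have hb' : 2 ^ m • (2 • b) = 0 := by rw [← mul_smul, ← pow_succ, hb]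
    rw [hE.anti (m + 1) a b ha' hb, hE.two m b a hb ha, hE.anti m a (2 • b) ha hb']
  have H4 : ∀ m a b, 2 ^ m • a = 0 → 2 ^ m • b = 0 → 2 ^ m • E m a b = 0 := by
    intro m a b ha hb
    have h0 : E m 0 b = 0 := by
      have := (H2 m 0 a b ha hb).1
      rwa [zero_smul, zero_smul] at this
    have := (H2 m (2 ^ m : ℕ) a b ha hb).1
    rw [natCast_zsmul, natCast_zsmul, ha, h0] at this
    exact this.symm
  refine ⟨H1, H2, H3, H4, ?_⟩
  intro u w hB
  obtain ⟨hT, hK, hI, -, -⟩ := (h1 N hN).2.2 u w hB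
  have H5 : ∀ (m : ℕ) (α β γ δ : ℤ), E m (α • u m + β • w m) (γ • u m + δ • w m) =
      (α * δ - β * γ) • E m (u m) (w m) := by
    intro m α β γ δ
    obtain ⟨hu, hw⟩ := hT m
    have hau := pw_zsmul hu α
    have hbw := pw_zsmul hw β
    have hcu := pw_zsmul hu γ
    have hdw := pw_zsmul hw δ
    have hcd : 2 ^ m • (γ • u m + δ • w m) = 0 := by rw [smul_add, hcu, hdw, add_zero]
    rw [hE.add m _ _ _ hau hbw hcd, H1 m _ _ _ hcu hdw hau, H1 m _ _ _ hcu hdw hbw,
      (H2 m α (u m) _ hu hcu).1, (H2 m γ (u m) _ hu hu).2, hE.alt m _ hu,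
      (H2 m α (u m) _ hu hdw).1, (H2 m δ _ (w m) hu hw).2,
      (H2 m β (w m) _ hw hcu).1, (H2 m γ _ (u m) hw hu).2, hE.anti m (w m) (u m) hw hu,
      (H2 m β (w m) _ hw hdw).1, (H2 m δ _ (w m) hw hw).2, hE.alt m _ hw]
    module
  have H6 : ∀ (m : ℕ) (k : ℤ), k • E m (u m) (w m) = 0 ↔ (2 ^ m : ℤ) ∣ k := by
    intro m k
    obtain ⟨hu, hw⟩ := hT m
    constructor
    · intro h
      have hz : k • u m = 0 := by
        refine hE.nd m _ (pw_zsmul hu k) fun b hb => ?_
        obtain ⟨c, d, rfl⟩ := hK m b hb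
        have := H5 m k 0 c d
        rw [zero_smul, add_zero, natCast_zsmul, natCast_zsmul, zero_mul, sub_zero, mul_comm,
          mul_smul, h, smul_zero] at this
        exact this
      refine (hI m k 0 ?_).1
      rw [zero_smul, add_zero, hz]
    · rintro ⟨c, rfl⟩
      have := H4 m (u m) (w m) hu hw
      rw [mul_comm, mul_smul]
      have h' : (2 ^ m : ℤ) • E m (u m) (w m) = 0 := by
        rw [← this, ← natCast_zsmul]
        push_cast
        rfl
      rw [h', smul_zero]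
  refine ⟨H5, H6, ?_, ?_, ?_⟩
  · have := H4 0 (u 0) (w 0) (hT 0).1 (hT 0).2
    rwa [pow_zero, one_smul] at this
  · intro h
    have := (H6 1 1).1 (by rw [one_smul]; exact h)
    norm_num at this
  · intro n
    change 2 • E (n + 1) (u (n + 1)) (w (n + 1)) = E n (u n) (w n)
    have h := (H2 (n + 1) 2 (u (n + 1)) (w (n + 1)) (hT (n + 1)).1 (hT (n + 1)).2).2
    have h2 : (2 : ℤ) • w (n + 1) = w n := by
      rw [← hB.ws n, ← natCast_zsmul]
      rfl
    rw [h2, hE.two n _ _ (hT (n + 1)).1 (hT n).2, hB.us n] at h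
    rw [h, ← natCast_zsmul]
    rfl

end Pool.Agent.MP72S.C
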