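import Pool.Agent.Lib.MP_72e2e6_nt.Sm.C.Acp
import Pool.Agent.Lib.MP_72e2e6_nt.Sm.C.AxE
import Pool.Agent.Lib.MP_72e2e6_nt.Sm.C.AxN
import Pool.Agent.Lib.MP_72e2e6_nt.Sm.C.Bs1
import Pool.Agent.Lib.MP_72e2e6_nt.Sm.C.Bs2
import Pool.Agent.Lib.MP_72e2e6_nt.Sm.C.Cts
import Pool.Agent.Lib.MP_72e2e6_nt.Sm.C.Cyg
import Pool.Agent.Lib.MP_72e2e6_nt.Sm.C.Dga
import Pool.Agent.Lib.MP_72e2e6_nt.Sm.C.Dl4
import Pool.Agent.Lib.MP_72e2e6_nt.Sm.C.Dlt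
import Pool.Agent.Lib.MP_72e2e6_nt.Sm.C.Dtt
import Pool.Agent.Lib.MP_72e2e6_nt.Sm.C.Dvn
import Pool.Agent.Lib.MP_72e2e6_nt.Sm.C.Gl1
import Pool.Agent.Lib.MP_72e2e6_nt.Sm.C.Glo
import Pool.Agent.Lib.MP_72e2e6_nt.Sm.C.Goo
import Pool.Agent.Lib.MP_72e2e6_nt.Sm.C.Grp
import Pool.Agent.Lib.MP_72e2e6_nt.Sm.C.Hal
import Pool.Agent.Lib.MP_72e2e6_nt.Sm.C.Int
import Pool.Agent.Lib.MP_72e2e6_nt.Sm.C.LMl
import Pool.Agent.Lib.MP_72e2e6_nt.Sm.C.Lin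
import Pool.Agent.Lib.MP_72e2e6_nt.Sm.C.Lte
import Pool.Agent.Lib.MP_72e2e6_nt.Sm.C.MlS
import Pool.Agent.Lib.MP_72e2e6_nt.Sm.C.Msg
import Pool.Agent.Lib.MP_72e2e6_nt.Sm.C.Nis
import Pool.Agent.Lib.MP_72e2e6_nt.Sm.C.Ppr
import Pool.Agent.Lib.MP_72e2e6_nt.Sm.C.Prd
import Pool.Agent.Lib.MP_72e2e6_nt.Sm.C.RUp
import Pool.Agent.Lib.MP_72e2e6_nt.Sm.C.Rrq
import Pool.Agent.Lib.MP_72e2e6_nt.Sm.C.Slf
import Pool.Agent.Lib.MP_72e2e6_nt.Sm.C.Tam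
import Pool.Agent.Lib.MP_72e2e6_nt.Sm.C.Tfr
import Pool.Agent.Lib.MP_72e2e6_nt.Sm.C.Tht
import Pool.Agent.Lib.MP_72e2e6_nt.Sm.C.Tnt
import Pool.Agent.Lib.MP_72e2e6_nt.Sm.C.Twi
import Pool.Agent.Lib.MP_72e2e6_nt.Sm.C.Uac
import Pool.Agent.Lib.MP_72e2e6_nt.Sm.C.Uhf
import Pool.Agent.Lib.MP_72e2e6_nt.Sm.C.Usg
import Pool.Agent.Lib.MP_72e2e6_nt.Sm.C.Vee
import Pool.Agent.Lib.MP_72e2e6_nt.Sm.C.WPb
import Pool.Agent.Lib.MP_72e2e6_nt.Sm.C.WPe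

/-!
# MP_72e2e6_nt, `Sm`, block C: all the modules together
-/

set_option autoImplicit false

namespace Pool.Agent.MP72S.C

theorem aCyg : S_Cyg := tCyg

theorem aDga : S_Dga := tDga

theorem aBs1 : S_Bs1 := tBs1 aDga

theorem aBs2 : S_Bs2 := tBs2 aDga

theorem aGrp : S_Grp := tGrp

theorem aHal : S_Hal := tHal aGrp

theorem aLte : S_Lte := tLte

theorem aNis : S_Nis := tNis

theorem aPpr : S_Ppr := tPpr

theorem aRUp : S_RUp := tRUp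

theorem aTfr : S_Tfr := tTfr aDga

theorem aVee : S_Vee := tVee aGrp

theorem aAcp : S_Acp := tAcp aGrp aVee

theorem aCts : S_Cts := tCts aGrp aAcp

theorem aDvn : S_Dvn := tDvn aGrp aVee aHal

theorem aPrd : S_Prd := tPrd aGrp aVee

theorem aRrq : S_Rrq := tRrq aGrp aVee aHal

theorem aGoo : S_Goo := tGoo aGrp aVee aRrq aAcp aPpr

theorem aInt : S_Int := tInt aGrp aVee aRrq aPpr

theorem aMsg : S_Msg := tMsg aGrp aVee aRrq aAcp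

theorem aSlf : S_Slf := tSlf aVee aAcp aMsg

theorem aAxN : S_AxN := tAxN aGrp aVee aAcp aDvn aSlf aCts

theorem aTam : S_Tam := tTam aGrp aVee aAcp aMsg aPpr

theorem aTnt : S_Tnt := tTnt aGrp aVee aHal aAcp aDvn aPpr

theorem aTwi : S_Twi := tTwi aGrp aVee

theorem aUhf : S_Uhf := tUhf aGrp aVee aHal aPpr aInt

theorem aUsg : S_Usg := tUsg aGrp aVee aPpr aPrd aInt

theorem aTht : S_Tht := tTht aGrp aVee aAcp aPpr aInt aUsg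

theorem aUac : S_Uac := tUac aUsg aTht

theorem aWPb : S_WPb := tWPb aBs2

theorem aDlt : S_Dlt := tDlt aDga aBs1 aBs2 aWPb

theorem aDl4 : S_Dl4 := tDl4 aDga aBs2 aWPb aDlt

theorem aDtt : S_Dtt := tDtt aDga aTfr aDlt

theorem aGl1 : S_Gl1 := tGl1 aDga aTfr aBs1 aDlt aDl4 aDtt

theorem aGlo : S_Glo := tGlo aDga aTfr aBs1 aBs2 aWPb aDlt aGl1 aCyg aLte

theorem aLin : S_Lin := tLin aDga aBs1 aBs2 aWPb aDlt

theorem aLMl : S_LMl := tLMl aVee aDvn aRUp aPpr aUsg aUhf aUac aTnt aLin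

theorem aMlS : S_MlS := tMlS aVee aPpr aTwi aLMl

theorem aWPe : S_WPe := tWPe aDga aBs1 aBs2

theorem aAxE : S_AxE := tAxE aWPe aDlt aGl1 aGlo

end Pool.Agent.MP72S.C
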