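import Pool.Agent.Lib.MP_72e2e6_nt.Sm.C.SpecA

/-!
# MP_72e2e6_nt, `Sm`, block C, part C: the curve `y ^ 2 = (x - a 0) (x - a 1) (x - a 2)`

Format as in `SpecA`: `S_...` is proved in the file `Sm/C/<Name>.lean`, theorem `t<Name>`, the used statements are
hypotheses in the order of the docstring.  Use `open scoped Classical` (the group law on the points uses classical
decidability).  `α i = al a L i`, indices in `Fin 3` modulo three; `O = 0` is the point at infinity.  For a point `Q = (X, Y)`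
with `Y ≠ 0` let `s k = Y / (X - α k)`, so that `s k * s (k + 1) = X - α (k + 2)`, and `rr Q i = (s (i+1) + s (i+2) - s i) / 2`,
`rr Q i + rr Q (i + 1) = s (i + 2)`.
-/

set_option autoImplicit false

namespace Pool.Agent.MP72S.C

open Finset WeierstrassCurve Pool.Agent.MP72W

open scoped Classical

/-! ### 1. the group law, halving -/

/-- **Grp** (200 lines). The group law.

Proof. Unfold the definitions of Mathlib (`Affine/Formula.lean`, `Affine/Point.lean`: `equation_iff`, `nonsingular_iff`,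
`slope_of_X_ne`, `slope_of_Y_ne`, `add_some`, `addX`, `negAddY`, `addY`, `negY`); the coefficients of `(Wa a)⁄L` are
`0, -(α 0 + α 1 + α 2), 0, α 0 α 1 + α 0 α 2 + α 1 α 2, - α 0 α 1 α 2`.  (3) nonsingularity: `2 y = 0` and
`(x - α 0) (x - α 1) + .. = 0` would give `y = 0`, `x = α i` for some `i` and `(α i - α j) (α i - α k) = 0`.  (6)
`Y_eq_of_X_eq`.  (7) slope `(y - y') / (x - x')`.  (8) slope `f'(x) / (2 y)`.  (9) `negY x 0 = 0`, so `P = -P`.  (Compare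
the module `W2/D/Pts.lean`, the same in characteristic two.) -/
def S_Grp : Prop := ∀ (K : Type) [Field K] (a : Fin 3 → K) (L : Type) [Field L] [Algebra K L],
  Hyp a L →
    (∀ P : PA a L, P = 0 ∨ ∃ x y, XY P x y) ∧
    (∀ (P : PA a L) (x y : L), XY P x y → P ≠ 0 ∧ px P = x ∧ py P = y ∧
      y ^ 2 = (x - al a L 0) * (x - al a L 1) * (x - al a L 2)) ∧
    (∀ x y : L, y ^ 2 = (x - al a L 0) * (x - al a L 1) * (x - al a L 2) →
      ∃ P : PA a L, XY P x y) ∧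
    (∀ (P Q : PA a L) (x y : L), XY P x y → XY Q x y → P = Q) ∧
    (∀ (P : PA a L) (x y : L), XY P x y → XY (-P) x (-y)) ∧
    (∀ P Q : PA a L, P ≠ 0 → Q ≠ 0 → px P = px Q → Q = P ∨ Q = -P) ∧
    (∀ (P Q : PA a L) (x y x' y' l X : L), XY P x y → XY Q x' y' → x ≠ x' →
      l * (x - x') = y - y' → X = l ^ 2 + (al a L 0 + al a L 1 + al a L 2) - x - x' →
      XY (P + Q) X (l * (x - X) - y)) ∧
    (∀ (P : PA a L) (x y l X : L), XY P x y → y ≠ 0 →
      2 * l * y = (x - al a L 0) * (x - al a L 1) + (x - al a L 0) * (x - al a L 2) +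
        (x - al a L 1) * (x - al a L 2) →
      X = l ^ 2 + (al a L 0 + al a L 1 + al a L 2) - 2 * x → XY (P + P) X (l * (x - X) - y)) ∧
    ∀ (P : PA a L) (x : L), XY P x 0 → P + P = 0

/-- **Vee** (150 lines, uses `S_Grp`). The points of order two.

Proof. (1) `S_Grp` (3) with `y = 0`, and the definition of `ee`.  (2) `P + P = 0` iff `P = -P`; for `P = (x, y)`:
`-P = (x, -y)`, so `2 y = 0`, `y = 0`, `x = α i`.  (3), (4) from (1) and injectivity of `a` and of `K → L`.  (5) `S_Grp` (7)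
with `l = 0`.  (6) the points of order two are `0, ee 0, ee 1, ee 2`, with `ee i + ee i = 0` and (5); check all cases (the
values of `e2` are determined by (3), (4)). -/
def S_Vee : Prop := ∀ (K : Type) [Field K] (a : Fin 3 → K) (L : Type) [Field L] [Algebra K L],
  Hyp a L →
    (∀ i, XY (ee a i : PA a L) (al a L i) 0) ∧
    (∀ P : PA a L, P + P = 0 ↔ P = 0 ∨ ∃ i, P = ee a i) ∧
    (∀ i, (ee a i : PA a L) ≠ 0) ∧ (∀ i j, (ee a i : PA a L) = ee a j → i = j) ∧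
    (∀ i, (ee a i : PA a L) + ee a (i + 1) = ee a (i + 2)) ∧
    (∀ x y z : PA a L, x + x = 0 → y + y = 0 → z + z = 0 → e2 (x + y) z = e2 x z + e2 y z) ∧
    (∀ x y : PA a L, e2 x y = e2 y x) ∧ (∀ x : PA a L, e2 x x = 0) ∧
    (∀ i j, e2 (ee a i : PA a L) (ee a j) = if i = j then 0 else 1) ∧
    (∀ x : PA a L, e2 x 0 = 0) ∧
    ∀ x : PA a L, x + x = 0 → (∀ y : PA a L, y + y = 0 → e2 x y = 0) → x = 0

/-- **Hal** (150 lines, uses `S_Grp`). Halving.

Proof. Let `X = x + e₂`, `e₂ = r 0 r 1 + r 0 r 2 + r 1 r 2`, `Y = (r 0 + r 1) (r 0 + r 2) (r 1 + r 2)`.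
`X - α i = r i ^ 2 + e₂ = (r i + r (i + 1)) (r i + r (i + 2))`, so `Y ^ 2 = (X - α 0) (X - α 1) (X - α 2)` and there is
`Q = (X, Y)`; `Y ≠ 0` since `r i + r j = 0` would give `α i = α j`.  `Y / (X - α i) = r (i + 1) + r (i + 2)`, so
`rr Q = r`.  With `l = r 0 + r 1 + r 2`: `2 l Y = f'(X)` (put `s i = r (i+1) + r (i+2)`, `X - α i = s (i+1) s (i+2)`,
`Y = s 0 s 1 s 2`, `f'(X) = Y (s 0 + s 1 + s 2)`), `l ^ 2 + (α 0 + α 1 + α 2) - 2 X = x` (`α i = x - r i ^ 2`) and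
`l (X - x) - Y = l e₂ - Y = r 0 r 1 r 2 = y`.  So `2 Q = (x, y)` by `S_Grp` (8), (4). -/
def S_Hal : Prop := ∀ (K : Type) [Field K] (a : Fin 3 → K) (L : Type) [Field L] [Algebra K L],
  Hyp a L → ∀ (P : PA a L) (x y : L), XY P x y → ∀ r : Fin 3 → L,
    (∀ i, r i ^ 2 = x - al a L i) → r 0 * r 1 * r 2 = y → ∃ Q : PA a L,
      XY Q (x + (r 0 * r 1 + r 0 * r 2 + r 1 * r 2)) ((r 0 + r 1) * (r 0 + r 2) * (r 1 + r 2)) ∧
      Q + Q = P ∧ rr Q = r ∧ ∀ i, px Q - al a L i = (r i + r (i + 1)) * (r i + r (i + 2))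

/-- **Rrq** (200 lines, uses `S_Grp`, `S_Vee`, `S_Hal`). The square roots belonging to a half.

Proof. `Q = (X, Y)`, `Y ≠ 0` (else `2 Q = 0`), so `X ≠ α i`.  `s k` as above: `s k s (k+1) = X - α (k+2)` by the equation.
`r i = rr Q i`, `r i + r (i+1) = s (i+2)`: (5).  `l = r 0 + r 1 + r 2 = (s 0 + s 1 + s 2) / 2` satisfies `2 l Y = f'(X)`; so
`x = px (2 Q) = l ^ 2 + (α 0 + α 1 + α 2) - 2 X` (`S_Grp` (8)), and `α k = X - s (k+1) s (k+2)` gives
`x - α i = l ^ 2 - s i (s (i+1) + s (i+2)) = r i ^ 2`; `py (2 Q) = l (X - x) - Y = r 0 r 1 r 2`, `X = x + e₂`,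
`Y = s 0 s 1 s 2`.  (8): `Q'` and `Q` have the same coordinates by (6), (7).  (9): let `r' = (r i, - r (i+1), - r (i+2))`
(at the indices `i, i+1, i+2`); by `S_Hal` there is `Q'` with `rr Q' = r'`, and its coordinates are those of `Q + ee i`
by `S_Grp` (7) (slope `l = Y / (X - α i) = s i`): `px (Q + ee i) = s i ^ 2 + (α 0 + α 1 + α 2) - X - α i`. -/
def S_Rrq : Prop := ∀ (K : Type) [Field K] (a : Fin 3 → K) (L : Type) [Field L] [Algebra K L],
  Hyp a L → ∀ Q : PA a L, Q + Q ≠ 0 →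
    py Q ≠ 0 ∧ (∀ i, px Q ≠ al a L i) ∧ (∀ i, rr Q i ^ 2 = px (Q + Q) - al a L i) ∧
    rr Q 0 * rr Q 1 * rr Q 2 = py (Q + Q) ∧
    (∀ i, px Q - al a L i = (rr Q i + rr Q (i + 1)) * (rr Q i + rr Q (i + 2))) ∧
    px Q = px (Q + Q) + (rr Q 0 * rr Q 1 + rr Q 0 * rr Q 2 + rr Q 1 * rr Q 2) ∧
    py Q = (rr Q 0 + rr Q 1) * (rr Q 0 + rr Q 2) * (rr Q 1 + rr Q 2) ∧
    (∀ Q' : PA a L, Q' + Q' = Q + Q → rr Q' = rr Q → Q' = Q) ∧
    ∀ i, rr (Q + ee a i) i = rr Q i ∧ rr (Q + ee a i) (i + 1) = - rr Q (i + 1) ∧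
      rr (Q + ee a i) (i + 2) = - rr Q (i + 2)

/-- **Acp** (80 lines, uses `S_Grp`, `S_Vee`). The Galois action.

Proof. `Point.map_some`, `Point.map_injective`; `s (algebraMap K L c) = algebraMap K L c`.  (4) coordinates.  (5) apply `s`
to the definition of `rr`.  (6) the points of order two are the `ee i`. -/
def S_Acp : Prop := ∀ (K : Type) [Field K] (a : Fin 3 → K) (L : Type) [Field L] [Algebra K L],
  Hyp a L → ∀ s : Gal(L/K),
    (∀ (P : PA a L) (x y : L), XY P x y → XY (act a s P) (s x) (s y)) ∧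
    Function.Injective (act a s : PA a L → PA a L) ∧
    (∀ P : PA a L, px (act a s P) = s (px P) ∧ py (act a s P) = s (py P)) ∧
    (∀ i, act a s (ee a i : PA a L) = ee a i) ∧
    (∀ (Q : PA a L) i, rr (act a s Q) i = s (rr Q i)) ∧
    ∀ P : PA a L, P + P = 0 → act a s P = P

/-- **Dvn** (120 lines, uses `S_Grp`, `S_Vee`, `S_Hal`). Divisibility; `N` has rank two.

Proof. (1) `P = O`: `Q = O`.  `P = (x, y)`: choose `r i` with `r i ^ 2 = x - α i`; `(r 0 r 1 r 2) ^ 2 = y ^ 2`, so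
`r 0 r 1 r 2 = y` or `- y`; in the second case replace `r` by `- r`; `S_Hal`.  (2) `prim` is clear, `dvs` from (1), `four`:
the elements of order at most two are `0, ee 0, ee 1, ee 2` (`S_Vee`). -/
def S_Dvn : Prop := ∀ (K : Type) [Field K] (a : Fin 3 → K) (L : Type) [Field L] [Algebra K L],
  Hyp a L → QC L → (∀ P : PA a L, ∃ Q : PA a L, Q + Q = P) ∧ P2 (NN a L)

/-- **Msg** (120 lines, uses `S_Grp`, `S_Vee`, `S_Rrq`, `S_Acp`). The action on the points of order four.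

Proof. `2 (s x - x) = s (ee i) - ee i = 0`; let `t = s x - x`, one of `0, ee 0, ee 1, ee 2`, `act s x = x + t`.
`rr x j ^ 2 = px (ee i) - α j = α i - α j ≠ 0`.  `rr (act s x) j = s (rr x j)`.  `t = 0` or `t = ee j`: `rr (x + t) j = rr x j`
(`S_Rrq` (9)) and `e2 t (ee j) = 0`.  `t = ee k`, `k ≠ j`: `rr (x + t) j = - rr x j ≠ rr x j` and `e2 t (ee j) = 1`. -/
def S_Msg : Prop := ∀ (K : Type) [Field K] (a : Fin 3 → K) (L : Type) [Field L] [Algebra K L],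
  Hyp a L → ∀ (s : Gal(L/K)) (x : PA a L) (i j : Fin 3), i ≠ j → x + x = ee a i →
    (act a s x - x) + (act a s x - x) = 0 ∧ rr x j ^ 2 = al a L i - al a L j ∧ rr x j ≠ 0 ∧
    e2 (act a s x - x) (ee a j) = if s (rr x j) = rr x j then 0 else 1

/-- **Slf** (120 lines, uses `S_Vee`, `S_Acp`, `S_Msg`). Self-adjointness.

Proof. If `2 x = 0` then `s x = x` and both sides are `0`; the same for `y`.  Otherwise `2 x = ee i`, `2 y = ee j`.  `i = j`:
`2 (x - y) = 0`, so `s (x - y) = x - y` and `s x - x = s y - y =: t`, and `e2 t (ee i) = e2 (ee i) t`.  `i ≠ j`: by `S_Msg` the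
left side is `0` iff `s` fixes `ρ = rr x j`, `ρ ^ 2 = α i - α j`, the right side (symmetry of `e2`) is `0` iff `s` fixes
`ρ' = rr y i`, `ρ' ^ 2 = α j - α i = (ι ρ) ^ 2`; so `ρ' = ± ι ρ`, `s ι = ι`, and the conditions are equivalent. -/
def S_Slf : Prop := ∀ (K : Type) [Field K] (a : Fin 3 → K) (L : Type) [Field L] [Algebra K L],
  Hyp a L → (∃ ι : K, ι ^ 2 = -1) → ∀ (s : Gal(L/K)) (x y : PA a L),
    (x + x) + (x + x) = 0 → (y + y) + (y + y) = 0 →
      e2 (act a s x - x) (y + y) = e2 (x + x) (act a s y - y)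

/-- **Cts** (80 lines, uses `S_Grp`, `S_Acp`). Continuity of the action.

Proof. For `P = (x, y)` the subgroup of the `s` fixing `x`, `y` is open (the fixing subgroup of the finite extension
`K(x, y)`, Krull topology), and `s ↦ s P` is constant on its left cosets.  The same for `r ∈ RU L`. -/
def S_Cts : Prop := ∀ (K : Type) [Field K] (a : Fin 3 → K) (L : Type) [Field L] [Algebra K L]
  [Algebra.IsAlgebraic K L], Hyp a L →
    (∀ P : PA a L, IsLocallyConstant fun s : Gal(L/K) => act a s P) ∧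
    (∀ x : NN a L, IsLocallyConstant fun s : Gal(L/K) => s • x) ∧
    ∀ r : RU L, IsLocallyConstant fun s : Gal(L/K) => s • r

/-- **AxN** (100 lines, uses `S_Grp`, `S_Vee`, `S_Acp`, `S_Dvn`, `S_Slf`, `S_Cts`). The axioms of `Ax` on `N`.

Proof. Translate (`pt` is injective and additive, `pt (s • x) = act a s (pt x)`, `eN u v = e2 (pt u) (pt v)`). -/
def S_AxN : Prop := ∀ (K : Type) [Field K] (a : Fin 3 → K) (L : Type) [Field L] [Algebra K L]
  [Algebra.IsAlgebraic K L], Hyp a L → QC L → (∃ ι : K, ι ^ 2 = -1) →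
    P2 (NN a L) ∧ PV (eN : NN a L → NN a L → ZMod 2) ∧
    (∀ x : NN a L, IsLocallyConstant fun s : Gal(L/K) => s • x) ∧
    (∀ (s : Gal(L/K)) (x : NN a L), 2 • x = 0 → s • x = x) ∧
    ∀ (s : Gal(L/K)) (x y : NN a L), 4 • x = 0 → 4 • y = 0 →
      eN (s • x - x) (2 • y) = eN (2 • x) (s • y - y)

/-- **RUp** (60 lines). The roots of unity of `2`-power order.

Proof. `prim`: definition.  `dvs`: a square root of a root of unity of order `2 ^ n` is one of order `2 ^ (n + 1)`.  `hf0`: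
`-1 ≠ 1`.  `two`: `x ^ 2 = 1` iff `x = 1` or `x = -1`. -/
def S_RUp : Prop := ∀ (L : Type) [Field L], (2 : L) ≠ 0 → QC L → P1 (RU L) (hfU L)

/-- **Twi** (250 lines, uses `S_Grp`, `S_Vee`). Scaling, translation, permutation of the `a i`.

Proof. Let `a' i = D a (π i) + b`, `α' i = D α (π i) + b`.  `(x, y) ↦ (D x + b, D δ y)` maps solutions of the equation for
`a` to solutions for `a'` (`(D δ y) ^ 2 = D ^ 3 y ^ 2 = ∏ (D x + b - α' i)`, `π` a permutation) and is bijective (inverse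
`(x, y) ↦ ((x - b) / D, y / (D δ))`); `O ↦ O`.  Additive: cases `P = O`, `Q = O`, `Q = -P`, `Q = P`, `px P ≠ px Q` with
`S_Grp` (5)-(8): if `l` is the slope for `P, Q`, then `δ l` is the slope for the images.  (2) coordinates, `S_Vee`.
(3) `s (δ) ^ 2 = δ ^ 2`.  (4) coordinates. -/
def S_Twi : Prop := ∀ (K : Type) [Field K] (a : Fin 3 → K) (L : Type) [Field L] [Algebra K L],
  Hyp a L → ∀ (D b : K), D ≠ 0 → ∀ δ : L, δ ^ 2 = algebraMap K L D → ∀ π : Equiv.Perm (Fin 3),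
    Hyp (fun i => D * a (π i) + b) L ∧
    ∃ φ : PA a L ≃+ PA (fun i => D * a (π i) + b) L,
      (∀ (P : PA a L) (x y : L), XY P x y →
        XY (φ P) (algebraMap K L D * x + algebraMap K L b) (algebraMap K L D * δ * y)) ∧
      (∀ i, φ (ee a (π i)) = ee (fun i => D * a (π i) + b) i) ∧
      ∀ s : Gal(L/K), (s δ = δ ∨ s δ = -δ) ∧
        (s δ = δ → ∀ P, act (fun i => D * a (π i) + b) s (φ P) = φ (act a s P)) ∧
        (s δ = -δ → ∀ P, act (fun i => D * a (π i) + b) s (φ P) = - φ (act a s P))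

/-! ### 2. places -/

/-- **Ppr** (200 lines). Properties of places.

Proof. `ν 1 = 0`: `ν 1 = ν 1 + ν 1` and `ν 1 ≠ ⊤`; `ν (-1) = 0`: `2 ν (-1) = 0`.  (2)-(5): usual.  (6) `ν x = ν y` and so on
from `add`.  (7) `s x = x` for `x` in the image of `K` and `int`.  (8) `res (-x) = res (-1) res x`, `res (-1) + res 1 =
res 0 = 0`; `res 0 = 0` by `r0`.  (9) `res x res (x⁻¹) = res 1`.  (10) additivity of `f` and `radd`.  (11) `res 2 ≠ 0` by
`two`, `r0`.  (12) Let `r` be a root of unity of `2`-power order: `ν (ul r) = 0`; if `res (ul r) = 1` and `r ≠ 1`, then some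
power `r ^ (2 ^ j)` is `-1` and `res (-1) = -1 ≠ 1`: contradiction.  So `res` is injective on `RU L`; `t r`, `f r` and `r`,
`r ^ q` have the same residues. -/
def S_Ppr : Prop := ∀ (K : Type) [Field K] (L : Type) [Field L] [Algebra K L] (k : Type) [Field k]
  (t f : Gal(L/K)) (q : ℕ) (ν : L → WithTop ℚ) (res : L → k), Plc t f q ν res →
    ν 1 = 0 ∧ (∀ x, ν (-x) = ν x) ∧ (∀ x y, ν x = 0 → ν y = 0 → ν (x * y) = 0) ∧
    (∀ x, ν x = 0 → ν x⁻¹ = 0) ∧ (∀ x y, 0 ≤ ν x → 0 ≤ ν y → 0 ≤ ν (x + y) ∧ 0 ≤ ν (x - y) ∧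
      0 ≤ ν (x * y)) ∧ (∀ x y, ν x < ν y → ν (x + y) = ν x ∧ ν (x - y) = ν x ∧ ν (y - x) = ν x) ∧
    (∀ c : K, c ≠ 0 → ∃ m : ℤ, ν (algebraMap K L c) = ((m : ℚ) : WithTop ℚ)) ∧
    (∀ x, 0 ≤ ν x → res (-x) = - res x) ∧ (∀ x, ν x = 0 → res x⁻¹ = (res x)⁻¹ ∧ res x ≠ 0) ∧
    (∀ x y, 0 ≤ ν x → 0 ≤ ν y → (res x + res y) ^ q = res x ^ q + res y ^ q ∧
      (res x - res y) ^ q = res x ^ q - res y ^ q) ∧ (2 : k) ≠ 0 ∧
    (∀ r : RU L, t • r = r ∧ f • r = q • r) ∧ (∀ x, ν (x ^ 2) = 0 → ν x = 0) ∧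
    (∀ x, 0 ≤ ν (x ^ 2) → 0 ≤ ν x) ∧
    ∀ x y, ν (x * y) = 0 → 0 ≤ ν x → 0 ≤ ν y → ν x = 0 ∧ ν y = 0

/-- **Goo** (150 lines, uses `S_Grp`, `S_Vee`, `S_Rrq`, `S_Acp`, `S_Ppr`). Good places: inertia acts trivially.

Proof. By induction on `n`: for `2 ^ n P = 0`: `t P = P`, and if `2 P ≠ 0` then `ν (px P - α i) = 0` for all `i`.  If
`2 P = 0`: `S_Acp` (6).  Let `2 P = P' = (x', y') ≠ 0`, `r i = rr P i`, `r i ^ 2 = x' - α i`.  For `P' = ee j` one of the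
`x' - α i` is `0` and the other two have `ν = 0`; otherwise all have `ν = 0` (induction).  `x' - α i` is fixed by `t`, so
`t (r i) = r i` (`Plc.sq` with `m = 0`, or `r i = 0`), and `P` is fixed (`S_Rrq` (6), (7): its coordinates are polynomials
in `x'` and the `r i`).  `ν (r i) ≥ 0`, `(r i + r j) (r i - r j) = α j - α i` has `ν = 0`, so `ν (r i + r j) = 0`, and
`ν (px P - α i) = 0` by `S_Rrq` (5). -/
def S_Goo : Prop := ∀ (K : Type) [Field K] (a : Fin 3 → K) (L : Type) [Field L] [Algebra K L]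
  (k : Type) [Field k] (t f : Gal(L/K)) (q : ℕ) (ν : L → WithTop ℚ) (res : L → k), Hyp a L →
    Plc t f q ν res → (∀ i j, i ≠ j → ν (al a L i - al a L j) = 0) → ∀ x : NN a L, t • x = x

/-- **Tam** (120 lines, uses `S_Grp`, `S_Vee`, `S_Acp`, `S_Msg`, `S_Ppr`). Tame places.

Proof. Suppose `2 x ≠ 0`; let `2 ^ n x = 0`, `n` minimal, `n ≥ 2`, `y = 2 ^ (n - 2) x`: `2 y ≠ 0`, `4 y = 0`, and
`sg c (t y) = y`.  `2 (pt y) = ee i`; choose `j`, `m` by the hypothesis, `ρ = rr (pt y) j`, `ρ ^ 2 = α i - α j`, fixed by `t`,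
`ν = m`.  So `t ρ = ρ` iff `m` is even (`Plc.sq`, `ρ ≠ -ρ`).  By `S_Msg` `e2 (t y - y) (ee j) = 0` iff `m` is even.  `c = 0`:
`t y = y`, so `m` is even, but `m + c = 1` in `ZMod 2`.  `c = 1`: `t y = -y`, `t y - y = - 2 y = ee i`, `e2 (ee i) (ee j) = 1`,
so `m` is odd, again a contradiction. -/
def S_Tam : Prop := ∀ (K : Type) [Field K] (a : Fin 3 → K) (L : Type) [Field L] [Algebra K L]
  (k : Type) [Field k] (t f : Gal(L/K)) (q : ℕ) (ν : L → WithTop ℚ) (res : L → k), Hyp a L →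
    Plc t f q ν res → ∀ c : ZMod 2,
    (∀ i, ∃ j, j ≠ i ∧ ∃ m : ℤ, ν (al a L i - al a L j) = ((m : ℚ) : WithTop ℚ) ∧
      (m : ZMod 2) + c = 1) → ∀ x : NN a L, sg c (t • x) = x → 2 • x = 0

/-! ### 3. places of multiplicative reduction -/

/-- **Prd** (150 lines, uses `S_Grp`, `S_Vee`). The product formula.

Proof. Let `P = (x, y)`, `Q = (x', y')`, `x ≠ x'`.  By `S_Grp` (7), (5) `px (P + Q) = l ^ 2 + σ - x - x'`,
`l (x - x') = y - y'`, and `px (P - Q) = l' ^ 2 + σ - x - x'`, `l' (x - x') = y + y'`, `σ = α 0 + α 1 + α 2`.  Multiply the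
claim by `(x - x') ^ 2` and use `y ^ 2 = f(x)`, `y' ^ 2 = f(x')` (`field_simp`, `linear_combination`; for `α i = 0` the formula
is `x(P+Q) x(P-Q) (x - x') ^ 2 = (x x' - B) ^ 2` for the curve `y ^ 2 = x (x ^ 2 + A x + B)`).  (2) `S_Grp` (8):
`(px (2P) - α i) 4 y ^ 2 = ((x - α i) ^ 2 - (α i - α (i+1)) (α i - α (i+2))) ^ 2`. -/
def S_Prd : Prop := ∀ (K : Type) [Field K] (a : Fin 3 → K) (L : Type) [Field L] [Algebra K L],
  Hyp a L →
    (∀ (P Q : PA a L) i, P ≠ 0 → Q ≠ 0 → px P ≠ px Q →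
      (px (P + Q) - al a L i) * (px (P - Q) - al a L i) * (px P - px Q) ^ 2 =
        ((px P - al a L i) * (px Q - al a L i) -
          (al a L i - al a L (i + 1)) * (al a L i - al a L (i + 2))) ^ 2) ∧
    ∀ (P : PA a L) i, P + P ≠ 0 → (px (P + P) - al a L i) * (2 * py P) ^ 2 =
      ((px P - al a L i) ^ 2 -
        (al a L i - al a L (i + 1)) * (al a L i - al a L (i + 2))) ^ 2

/-- **Int** (100 lines, uses `S_Grp`, `S_Vee`, `S_Rrq`, `S_Ppr`). The torsion points are integral.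

Proof. Induction on `n` for `2 ^ n P = 0`, `P ≠ 0`.  `P = ee j`: `px P - α i = α j - α i`.  `2 P ≠ 0`: `rr P i ^ 2 =
px (2 P) - α i` has `ν ≥ 0`, so `ν (rr P i) ≥ 0` and `px P - α i` is a product of sums of two of them.  (2)
`(py P) ^ 2 = ∏ (px P - α i)`. -/
def S_Int : Prop := ∀ (K : Type) [Field K] (a : Fin 3 → K) (L : Type) [Field L] [Algebra K L]
  (k : Type) [Field k] (t f : Gal(L/K)) (q : ℕ) (ν : L → WithTop ℚ) (res : L → k), Hyp a L →
    Plc t f q ν res → (∀ i j, 0 ≤ ν (al a L i - al a L j)) → ∀ P : PA a L,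
      (∃ n : ℕ, 2 ^ n • P = 0) → P ≠ 0 → (∀ i, 0 ≤ ν (px P - al a L i)) ∧ 0 ≤ ν (py P)

/-- **Usg** (150 lines, uses `S_Grp`, `S_Vee`, `S_Ppr`, `S_Prd`, `S_Int`). The points with nonsingular reduction form a
subgroup.

Proof. `ν (α 0 - α 1) > 0`, `ν (α 0 - α 2) = 0`, so `ν (α 1 - α 2) = 0`; all `ν (α i - α j) ≥ 0`; `S_Int` applies.  Let `P`, `Q`
be nonzero with `Us`.  If `px P ≠ px Q`: in `S_Prd` (1) for `i = 0` the right side is the square of a unit (`ν = 0`) minus an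
element with `ν > 0`, so it has `ν = 0`; the factors `px (P ± Q) - α 0` (`P ± Q ≠ 0`) and `px P - px Q =
(px P - α 0) - (px Q - α 0)` have `ν ≥ 0`, so all have `ν = 0`.  If `px P = px Q`: `Q = P` or `Q = -P`; `P + P` is `0` or by
`S_Prd` (2), `i = 0`: `(px (2P) - α 0) (2 py P) ^ 2` has `ν = 0`, both factors are integral, so `ν (px (2P) - α 0) = 0` and
`ν (py P) = 0`.  (3) `ee 2`: `ν (α 2 - α 0) = 0`.  (6) `Us` is preserved by `act a s` if `ν (s x) = ν x`. -/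
def S_Usg : Prop := ∀ (K : Type) [Field K] (a : Fin 3 → K) (L : Type) [Field L] [Algebra K L]
  (k : Type) [Field k] (t f : Gal(L/K)) (q : ℕ) (ν : L → WithTop ℚ) (res : L → k), Hyp a L →
    Plc t f q ν res → Mlt a ν →
      Us a ν (0 : PA a L) ∧ (∀ P Q : PA a L, Us a ν P → Us a ν Q → Us a ν (P + Q)) ∧
      (∀ P : PA a L, Us a ν P → Us a ν (-P)) ∧ Us a ν (ee a 2 : PA a L) ∧
      (∀ P Q : PA a L, Us a ν P → Us a ν Q → P ≠ 0 → Q ≠ 0 → px P ≠ px Q → ν (px P - px Q) = 0) ∧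
      (∀ P : PA a L, Us a ν P → P + P ≠ 0 → ν (py P) = 0) ∧
      ∀ P : PA a L, Us a ν P → Us a ν (act a t P) ∧ Us a ν (act a f P)

/-- **Uhf** (150 lines, uses `S_Grp`, `S_Vee`, `S_Hal`, `S_Ppr`, `S_Int`). Halves with nonsingular reduction.

Proof. `P = O`: `Q = O`.  `P = (x, y)`, `ν (x - α 0) = 0`; choose `r i`, `r i ^ 2 = x - α i`, `r 0 r 1 r 2 = y` (`QC`, change the
sign of all `r i` if necessary).  `x - α 1 = (x - α 0) + (α 0 - α 1)` has `ν = 0`; so `ν (r 0) = 0 = ν (r 1)`, `ν (r 2) ≥ 0`.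
`ν (2 r 0) = 0` and `2 r 0 = (r 0 + r 1) + (r 0 - r 1)`, so one of `r 0 ± r 1` has `ν = 0`; if it is `r 0 - r 1` replace
`r 1`, `r 2` by `- r 1`, `- r 2` (the product is unchanged).  So `ν (r 0 + r 1) = 0`.  `(r 0 + r 2) (r 0 - r 2) = α 2 - α 0`
has `ν = 0`, so `ν (r 0 + r 2) = 0`.  `Q` from `S_Hal`: `px Q - α 0 = (r 0 + r 1) (r 0 + r 2)`. -/
def S_Uhf : Prop := ∀ (K : Type) [Field K] (a : Fin 3 → K) (L : Type) [Field L] [Algebra K L]
  (k : Type) [Field k] (t f : Gal(L/K)) (q : ℕ) (ν : L → WithTop ℚ) (res : L → k), Hyp a L →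
    QC L → Plc t f q ν res → Mlt a ν → ∀ P : PA a L, Us a ν P → ∃ Q : PA a L, Us a ν Q ∧ Q + Q = P

/-- **Tht** (300 lines, uses `S_Grp`, `S_Vee`, `S_Acp`, `S_Ppr`, `S_Int`, `S_Usg`). The parametrization of the
nonsingular points of the reduction.

Proof. Let `d ^ 2 = α 0 - α 2` (`QC`), `κ = res d ≠ 0`; for `P ≠ 0` with `Us` let `z P = res (py P / (px P - α 0))` and
`θ P = (z - κ) / (z + κ)`, `θ O = 1`.  Let `X = res (px P - α 0) ≠ 0`.  The equation gives `z ^ 2 = res (px P - α 2) ·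
res (px P - α 1) / X = X + κ ^ 2` (`res (px P - α 1) = X`), so `X = z ^ 2 - κ ^ 2`, `z ≠ ± κ`, and `res (py P) = z X`.
(a) `θ (-P) = θ (P) ^ (-1)`.  (b) Let `P, Q ≠ 0`, `px P ≠ px Q`; `ν (px P - px Q) = 0` (`S_Usg`), so the slope
`l = (py P - py Q) / (px P - px Q)` is integral; write `z, w` for `z P`, `z Q`: `X_P - X_Q = z ^ 2 - w ^ 2 ≠ 0` and
`res l = (z ^ 2 + z w + w ^ 2 - κ ^ 2) / (z + w)`.  With `S_Grp` (7): `res (px (P+Q) - α 0) = (res l) ^ 2 + κ ^ 2 - z ^ 2 -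
w ^ 2` (`res (α 2 - α 0) = - κ ^ 2`, `res (α 1 - α 0) = 0`) `= u ^ 2 - κ ^ 2` with `u = (κ ^ 2 + z w) / (z + w)`, and
`res (py (P+Q)) = res l (X_P - X_(P+Q)) - z X_P = u (u ^ 2 - κ ^ 2)`; so `z (P + Q) = u`.
(`u ∓ κ = (z ∓ κ) (w ∓ κ) / (z + w)`: `θ (P + Q) = θ P θ Q`.)  (c) `2 P ≠ 0`: `ν (py P) = 0`, so `z ≠ 0`; the slope
`f'(x) / (2 y)` is integral with `res l = (3 z ^ 2 - κ ^ 2) / (2 z)` and `z (2 P) = (κ ^ 2 + z ^ 2) / (2 z)` as in (b).  `2 P = 0`,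
`P ≠ 0`: then `P = ee 2` (`ee 0`, `ee 1` are not `Us`), `z = 0`, `θ P = -1`.  (d) `θ P = 1` would give `- κ = κ`.
(e) `z (t P) = z P` (`rt`), `z (f P) = (z P) ^ q` (`rf`; `f` fixes `α 0`).  `f d = ± d`, so `κ ^ q = ± κ`.  If `κ ^ q = κ`:
`θ (f P) = (z ^ q - κ ^ q) / (z ^ q + κ ^ q) = θ (P) ^ q`; if `κ ^ q = - κ` it is `θ (P) ^ (-q)` (`S_Ppr` (10); all
elements are residues of integral elements). -/
def S_Tht : Prop := ∀ (K : Type) [Field K] (a : Fin 3 → K) (L : Type) [Field L] [Algebra K L]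
  (k : Type) [Field k] (t f : Gal(L/K)) (q : ℕ) (ν : L → WithTop ℚ) (res : L → k), Hyp a L →
    QC L → Plc t f q ν res → Mlt a ν → ∃ θ : PA a L → k,
      (∀ P Q : PA a L, Us a ν P → Us a ν Q → θ (P + Q) = θ P * θ Q) ∧
      (∀ P : PA a L, Us a ν P → θ P ≠ 0 ∧ (θ P = 1 → P = 0)) ∧ θ 0 = 1 ∧
      (∀ P : PA a L, Us a ν P → θ (act a t P) = θ P) ∧
      ((∀ P : PA a L, Us a ν P → θ (act a f P) = θ P ^ q) ∨
        ∀ P : PA a L, Us a ν P → θ (act a f P) * θ P ^ q = 1)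

/-- **Uac** (80 lines, uses `S_Usg`, `S_Tht`). The action on the points with nonsingular reduction.

Proof. `t P - P` is `Us` and `θ (t P - P) = θ (t P) / θ P = 1`, so it is `0`.  First case of `S_Tht`: `ε = 1`,
`f P - q P` is `Us` with `θ = 1`.  Second case: `ε = -1`, `f P + q P`. -/
def S_Uac : Prop := ∀ (K : Type) [Field K] (a : Fin 3 → K) (L : Type) [Field L] [Algebra K L]
  (k : Type) [Field k] (t f : Gal(L/K)) (q : ℕ) (ν : L → WithTop ℚ) (res : L → k), Hyp a L →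
    QC L → Plc t f q ν res → Mlt a ν → (∀ P : PA a L, Us a ν P → act a t P = P) ∧
      ∃ ε : ℤ, (ε = 1 ∨ ε = -1) ∧ ∀ P : PA a L, Us a ν P → act a f P = (ε * q) • P

/-- **Tnt** (150 lines, uses `S_Grp`, `S_Vee`, `S_Hal`, `S_Acp`, `S_Dvn`, `S_Ppr`). Inertia does not act trivially.

Proof. Suppose that `t` fixes all `x ∈ NN a L`.  Then the `px P` of all `2`-power torsion points `P ≠ 0` are fixed by `t`, so
`ν (px P - α 0)` is an integer (or `⊤`).  Let `m = ν (α 0 - α 1)`, `0 < m < ⊤`, an integer.  CLAIM: there is no torsion point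
`P` with `0 < ν (px P - α 0) < m`; by strong induction on the natural number `ℓ = ν (px P - α 0)`.  Let `r i ^ 2 =
px P - α i`, `r 0 r 1 r 2 = py P`: `ν (r 0) = ℓ / 2`, `px P - α 1 = (px P - α 0) + (α 0 - α 1)` has `ν = ℓ`, so
`ν (r 1) = ℓ / 2`, `ν (px P - α 2) = 0 = ν (r 2)`.  `2 r 0 = (r 0 + r 1) + (r 0 - r 1)`: one of the two has `ν = ℓ / 2`
(both have `ν ≥ ℓ / 2`); as in `S_Uhf` we may suppose that it is `r 0 + r 1`.  `ν (r 0 + r 2) = 0` (`ν (r 0) > 0`).  The half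
`Q` of `S_Hal` has `ν (px Q - α 0) = ℓ / 2 < ℓ`, `< m`: contradiction to the induction hypothesis (it is an integer).  Start:
a half of `ee 0`: `r 0 = 0`, `r 1 ^ 2 = α 0 - α 1`, `r 2 ^ 2 = α 0 - α 2`, `px Q - α 0 = r 1 r 2` has `ν = m / 2`. -/
def S_Tnt : Prop := ∀ (K : Type) [Field K] (a : Fin 3 → K) (L : Type) [Field L] [Algebra K L]
  (k : Type) [Field k] (t f : Gal(L/K)) (q : ℕ) (ν : L → WithTop ℚ) (res : L → k), Hyp a L →
    QC L → Plc t f q ν res → Mlt a ν → ∃ x : NN a L, t • x ≠ x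

/-- **LMl** (100 lines, uses `S_Vee`, `S_Dvn`, `S_RUp`, `S_Ppr`, `S_Usg`, `S_Uhf`, `S_Uac`, `S_Tnt`, `S_Lin`).
Multiplicative places.

Proof. `S_Lin` for `U = {x : NN a L | Us a ν (pt x)}` (a subgroup by `S_Usg`), `ee 2 ∈ U`, halves by `S_Uhf`, the actions by
`S_Uac` (`(ε * q) • x` in `NN`), `S_Tnt`; `t r = r`, `f r = q r` on `RU L` by `S_Ppr` (12); `PV eN` from `S_Vee`. -/
def S_LMl : Prop := ∀ (K : Type) [Field K] (a : Fin 3 → K) (L : Type) [Field L] [Algebra K L]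
  (k : Type) [Field k] (t f : Gal(L/K)) (q : ℕ) (ν : L → WithTop ℚ) (res : L → k), Hyp a L →
    QC L → Plc t f q ν res → Mlt a ν →
    ∀ E : ℕ → NN a L → NN a L → RU L, WP eN (hfU L) E → IsDl E t 1 → IsDl E f 1

/-- **MlS** (200 lines, uses `S_Vee`, `S_Ppr`, `S_Twi`, `S_LMl`). Places with `ν (α i - α j) > ν (α i - α k)`.

Proof. Let `i, j, k'` be different (`k' = ` the third index), `π` the permutation `0 ↦ i`, `1 ↦ j`, `2 ↦ k'`,
`D = 1 / (a k' - a i)`, `b = - D a i`, `δ ^ 2 = D`.  For `a' = D a (π ·) + b`: `a' 0 = 0`, `a' 2 = 1`,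
`a' 1 = (a j - a i) / (a k' - a i)`, so `Mlt a' ν` (`ν (α' 0 - α' 1) = ν (α i - α j) - ν (α i - α k') > 0`).  Let `φ` be as in
`S_Twi`; it induces `φ : NN a L ≃+ NN a' L`, `eN (φ u) (φ v) = eN u v` (definition of `e2`), and for every `s` there is a
sign `η = ± 1` with `s φ(x) = η φ(s x)` for all `x`.  `E' m x y = E m (φ⁻¹ x) (φ⁻¹ y)` satisfies `WP`, and
`E' m (s φ x) (s φ y) = E' m (η φ(s x)) (η φ(s y)) = E m (s x) (s y)` (`η ^ 2 = 1`, additivity in both variables).  So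
`IsDl E s 1` iff `IsDl E' s 1`, for `s = t`, `f`; `S_LMl` for `a'`. -/
def S_MlS : Prop := ∀ (K : Type) [Field K] (a : Fin 3 → K) (L : Type) [Field L] [Algebra K L]
  (k : Type) [Field k] (t f : Gal(L/K)) (q : ℕ) (ν : L → WithTop ℚ) (res : L → k), Hyp a L →
    QC L → Plc t f q ν res → ∀ i j l : Fin 3, i ≠ j → i ≠ l → j ≠ l →
    ν (al a L i - al a L l) < ν (al a L i - al a L j) →
    ∀ E : ℕ → NN a L → NN a L → RU L, WP eN (hfU L) E → IsDl E t 1 → IsDl E f 1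

/-- **Nis** (100 lines). Existence of a place of multiplicative reduction (up to a quadratic twist).

Proof. Suppose that for all monic irreducible `P` and all different `i, j, l` the multiplicity of `P` in `a i - a j` is at
most the one in `a i - a l`.  Then (exchange `j`, `l`) they are equal, so `a 0 - a 1` and `a 0 - a 2` (nonzero) are
associated (unique factorization), `a 0 - a 1 = c (a 0 - a 2)` with a constant `c`, and
`(a 0 - a 1) (a 0 - a 2) = c (a 0 - a 2) ^ 2`. -/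
def S_Nis : Prop := ∀ (F : Type) [Field F] (a : Fin 3 → Polynomial F), Function.Injective a →
  (∀ i j l : Fin 3, i ≠ j → i ≠ l → j ≠ l → ∀ (c : F) (z : Polynomial F),
    (a i - a j) * (a i - a l) ≠ Polynomial.C c * z ^ 2) →
  ∃ (P : Polynomial F) (i j l : Fin 3), P.Monic ∧ Irreducible P ∧ i ≠ j ∧ i ≠ l ∧ j ≠ l ∧
    multiplicity P (a i - a l) < multiplicity P (a i - a j)

end Pool.Agent.MP72S.C
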