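import Pool.Agent.Lib.MP_72e2e6_nt.Sm.C.SpecC

/-!
# MP_72e2e6_nt, `Sm`, block C: module Acp (the Galois action)
-/

set_option autoImplicit false

namespace Pool.Agent.MP72S.C

open Finset WeierstrassCurve Pool.Agent.MP72W

open scoped Classical

private theorem al_fix {K : Type} [Field K] (a : Fin 3 → K) {L : Type} [Field L] [Algebra K L]
    (s : Gal(L/K)) (i : Fin 3) : s (al a L i) = al a L i := s.commutes (a i)

private theorem act_xy {K : Type} [Field K] (a : Fin 3 → K) {L : Type} [Field L] [Algebra K L]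
    (s : Gal(L/K)) {P : PA a L} {x y : L} (h : XY P x y) : XY (act a s P) (s x) (s y) := by
  obtain ⟨h, rfl⟩ := h
  exact ⟨_, rfl⟩

theorem tAcp (hG : S_Grp) (hV : S_Vee) : S_Acp := by
  intro K _ a L _ _ hyp s
  obtain ⟨g1, g2, g3, g4, g5, g6, g7, g8, g9⟩ := hG K a L hyp
  obtain ⟨v1, v2, v3, v4, v5, v6, v7, v8, v9, v10, v11⟩ := hV K a L hyp
  have hpx : ∀ P : PA a L, px (act a s P) = s (px P) ∧ py (act a s P) = s (py P) := by
    intro P
    cases P with
    | zero => exact ⟨(map_zero s).symm, (map_zero s).symm⟩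
    | some x y h => exact ⟨rfl, rfl⟩
  have hee : ∀ i, act a s (ee a i : PA a L) = ee a i := by
    intro i
    have h1 := act_xy a s (v1 i)
    rw [al_fix, map_zero] at h1
    exact g4 _ _ _ _ h1 (v1 i)
  refine ⟨fun P x y h => act_xy a s h, ?_, hpx, hee, ?_, ?_⟩
  · exact Affine.Point.map_injective (s : L →ₐ[K] L)
  · intro Q i
    simp only [rr, (hpx Q).1, (hpx Q).2, map_div₀, map_sub, map_add, al_fix, map_ofNat]
  · intro P hP
    rcases (v2 P).1 hP with rfl | ⟨i, rfl⟩
    · exact map_zero _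
    · exact hee i

end Pool.Agent.MP72S.C
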