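import Pool.Agent.Lib.MP_72e2e6_nt.W2.D.Defs
import Pool.Agent.Lib.MP_72e2e6_nt.Sm.Base

/-!
# MP_72e2e6_nt, `Sm`, block C (torsion points of `y ^ 2 = (x - a 0) (x - a 1) (x - a 2)`): definitions

`L` is an extension of the field `K`; `Hyp a L`: `2 ≠ 0` in `L`, the `a i` are different; `QC L`: every element of
`L` is a square.  `PA a L`: the points over `L`; `ee i = (a i, 0)`; `act s`: the action of `s ∈ Gal(L/K)`; `e2`: the Weil
pairing on the points of order two; `rr Q i`: the square roots of `x(2 Q) - a i` belonging to `Q`; `NN a L`: the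
`2`-power torsion points; `RU L`: the roots of unity of `2`-power order (additive), `hfU = -1`.
`Plc t f q ν res`: a place of `L` with valuation `ν`, residue map `res`, generator `t` of the inertia group and Frobenius
automorphism `f`.

Abstract part: `P2 N`: `N` is a `2`-primary divisible group with four elements of order at most two; `P1 R hf`: `R` is
one with the two elements `0`, `hf`; `Bas u w`: a basis of `N` (compatible elements of order `2 ^ n`); `WP e hf E`: a family
of alternating perfect pairings `E n` on the elements killed by `2 ^ n`, extending `e`; `IsDl E s δ`: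
`E n (s x) (s y) = δ (s (E n x y))`, `δ` a `2`-adic integer.
-/

set_option autoImplicit false

namespace Pool.Agent.MP72S.C

open WeierstrassCurve Pool.Agent.MP72W

open scoped Classical

/-! ### Abstract algebra -/

theorem tors_add {A : Type} [AddCommGroup A] {P Q : A} {n m : ℕ} (hn : 2 ^ n • P = 0)
    (hm : 2 ^ m • Q = 0) : 2 ^ (n + m) • (P + Q) = 0 := by
  rw [nsmul_add, pow_add, mul_nsmul, hn, nsmul_zero, mul_nsmul', hm, nsmul_zero, add_zero]

theorem tors_neg {A : Type} [AddCommGroup A] {P : A} {n : ℕ} (hn : 2 ^ n • P = 0) :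
    2 ^ n • (-P) = 0 := by
  rw [neg_nsmul, hn, neg_zero]

section

variable {N R G : Type} [AddCommGroup N] [AddCommGroup R]

/-- `2`-primary divisible groups of rank two. -/
structure P2 (N : Type) [AddCommGroup N] : Prop where
  prim : ∀ x : N, ∃ k : ℕ, 2 ^ k • x = 0
  dvs : ∀ x : N, ∃ y : N, 2 • y = x
  four : Nat.card {x : N // 2 • x = 0} = 4

/-- `2`-primary divisible groups of rank one, `hf` the element of order two. -/
structure P1 (R : Type) [AddCommGroup R] (hf : R) : Prop where
  prim : ∀ x : R, ∃ k : ℕ, 2 ^ k • x = 0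
  dvs : ∀ x : R, ∃ y : R, 2 • y = x
  hf0 : hf ≠ 0
  two : ∀ x : R, 2 • x = 0 ↔ x = 0 ∨ x = hf

/-- A basis of a group of rank two. -/
structure Bas (u w : ℕ → N) : Prop where
  u0 : u 0 = 0
  w0 : w 0 = 0
  u1 : u 1 ≠ 0
  w1 : w 1 ≠ 0
  uw : u 1 ≠ w 1
  us : ∀ n, 2 • u (n + 1) = u n
  ws : ∀ n, 2 • w (n + 1) = w n

/-- A basis of a group of rank one. -/
structure Ba1 (z : ℕ → R) : Prop where
  z0 : z 0 = 0
  z1 : z 1 ≠ 0
  zs : ∀ n, 2 • z (n + 1) = z n

/-- The number `c mod 2 ^ n` of a `2`-adic integer `c`. -/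
noncomputable def dg (n : ℕ) (c : ℤ_[2]) : ℕ := (PadicInt.toZModPow n c).val

/-- A perfect alternating pairing on the elements of order two. -/
structure PV (e : N → N → ZMod 2) : Prop where
  add : ∀ x y z : N, 2 • x = 0 → 2 • y = 0 → 2 • z = 0 → e (x + y) z = e x z + e y z
  sym : ∀ x y : N, 2 • x = 0 → 2 • y = 0 → e x y = e y x
  alt : ∀ x : N, 2 • x = 0 → e x x = 0
  nd : ∀ x : N, 2 • x = 0 → (∀ y : N, 2 • y = 0 → e x y = 0) → x = 0

/-- Alternating perfect pairings on the elements killed by `2 ^ m`, compatible for different `m`. -/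
structure WP (e : N → N → ZMod 2) (hf : R) (E : ℕ → N → N → R) : Prop where
  add : ∀ m a b c, 2 ^ m • a = 0 → 2 ^ m • b = 0 → 2 ^ m • c = 0 →
    E m (a + b) c = E m a c + E m b c
  alt : ∀ m a, 2 ^ m • a = 0 → E m a a = 0
  anti : ∀ m a b, 2 ^ m • a = 0 → 2 ^ m • b = 0 → E m a b = - E m b a
  nd : ∀ m a, 2 ^ m • a = 0 → (∀ b, 2 ^ m • b = 0 → E m a b = 0) → a = 0
  two : ∀ m a b, 2 ^ (m + 1) • a = 0 → 2 ^ m • b = 0 → E (m + 1) a b = E m (2 • a) b
  one : ∀ a b, 2 • a = 0 → 2 • b = 0 → E 1 a b = if e a b = 0 then 0 else hf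

/-- `E m (s x) (s y) = δ (s (E m x y))`. -/
def IsDl [Group G] [DistribMulAction G N] [DistribMulAction G R] (E : ℕ → N → N → R) (s : G)
    (δ : ℤ_[2]) : Prop :=
  ∀ m x y, 2 ^ m • x = 0 → 2 ^ m • y = 0 → E m (s • x) (s • y) = dg m δ • (s • E m x y)

end

/-! ### The curve -/

/-- The curve `y ^ 2 = (x - a 0) (x - a 1) (x - a 2)`. -/
def Wa {K : Type} [Field K] (a : Fin 3 → K) : WeierstrassCurve K :=
  ⟨0, -(a 0 + a 1 + a 2), 0, a 0 * a 1 + a 0 * a 2 + a 1 * a 2, -(a 0 * a 1 * a 2)⟩

/-- The points over `L`. -/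
abbrev PA {K : Type} [Field K] (a : Fin 3 → K) (L : Type) [Field L] [Algebra K L] : Type :=
  ((Wa a)⁄L).toAffine.Point

/-- Every element is a square. -/
def QC (L : Type) [Field L] : Prop := ∀ x : L, ∃ y : L, y ^ 2 = x

section

variable {K : Type} [Field K] (a : Fin 3 → K)

/-- The images of the `a i` in `L`. -/
def al (L : Type) [Field L] [Algebra K L] (i : Fin 3) : L := algebraMap K L (a i)

/-- The general hypotheses. -/
def Hyp (L : Type) [Field L] [Algebra K L] : Prop := (2 : L) ≠ 0 ∧ Function.Injective a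

variable {L : Type} [Field L] [Algebra K L]

/-- The point `(a i, 0)`. -/
noncomputable def ee (i : Fin 3) : PA a L :=
  if h : ∃ P : PA a L, XY P (al a L i) 0 then h.choose else 0

/-- The action of the Galois group on the points. -/
noncomputable def act (s : Gal(L/K)) : PA a L →+ PA a L := pmap (Wa a) (s : L →ₐ[K] L)

theorem act_one (P : PA a L) : act a (1 : Gal(L/K)) P = P := by
  cases P with
  | zero => rfl
  | some x y h => rfl

theorem act_mul (s t : Gal(L/K)) (P : PA a L) : act a (s * t) P = act a s (act a t P) := by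
  cases P with
  | zero => rfl
  | some x y h => rfl

variable {a}

/-- The Weil pairing on the points of order two. -/
noncomputable def e2 (u v : PA a L) : ZMod 2 := if u = 0 ∨ v = 0 ∨ u = v then 0 else 1

/-- The square roots of `x(2 Q) - a i` belonging to `Q`. -/
noncomputable def rr (Q : PA a L) (i : Fin 3) : L :=
  (py Q / (px Q - al a L (i + 1)) + py Q / (px Q - al a L (i + 2)) - py Q / (px Q - al a L i)) / 2

variable (a)

/-- The subgroup of the `2`-power torsion points. -/
noncomputable def NS (L : Type) [Field L] [Algebra K L] : AddSubgroup (PA a L) where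
  carrier := {P | ∃ n : ℕ, 2 ^ n • P = 0}
  zero_mem' := ⟨0, smul_zero _⟩
  add_mem' := fun ⟨n, hn⟩ ⟨m, hm⟩ => ⟨n + m, tors_add hn hm⟩
  neg_mem' := fun ⟨n, hn⟩ => ⟨n, tors_neg hn⟩

/-- The group of the `2`-power torsion points (a type of its own, so that its group structure does not
depend on decidability instances of the concrete field). -/
def NN (L : Type) [Field L] [Algebra K L] : Type := NS a L

noncomputable instance (L : Type) [Field L] [Algebra K L] : AddCommGroup (NN a L) :=
  inferInstanceAs (AddCommGroup (NS a L))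

variable {a}

/-- The point over `L`. -/
def pt (x : NN a L) : PA a L := Subtype.val x

theorem pt_mem (x : NN a L) : ∃ n : ℕ, 2 ^ n • pt x = 0 := Subtype.property x

/-- The element of `NN` belonging to a torsion point. -/
def mkN (P : PA a L) (h : ∃ n : ℕ, 2 ^ n • P = 0) : NN a L := (⟨P, h⟩ : NS a L)

theorem pt_mkN (P : PA a L) (h : ∃ n : ℕ, 2 ^ n • P = 0) : pt (mkN P h) = P := rfl

theorem pt_inj {x y : NN a L} (h : pt x = pt y) : x = y := Subtype.ext h

theorem pt_zero : pt (0 : NN a L) = 0 := rfl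

theorem pt_add (x y : NN a L) : pt (x + y) = pt x + pt y := rfl

theorem pt_neg (x : NN a L) : pt (-x) = -pt x := rfl

theorem pt_sub (x y : NN a L) : pt (x - y) = pt x - pt y := rfl

theorem pt_nsmul (n : ℕ) (x : NN a L) : pt (n • x) = n • pt x := rfl

theorem act_mem {s : Gal(L/K)} {P : PA a L} (h : ∃ n : ℕ, 2 ^ n • P = 0) :
    ∃ n : ℕ, 2 ^ n • act a s P = 0 := by
  obtain ⟨n, hn⟩ := h
  exact ⟨n, by rw [← map_nsmul, hn, map_zero]⟩

noncomputable instance : DistribMulAction Gal(L/K) (NN a L) where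
  smul s x := mkN (act a s (pt x)) (act_mem (pt_mem x))
  one_smul x := pt_inj (act_one a (pt x))
  mul_smul s t x := pt_inj (act_mul a s t (pt x))
  smul_zero s := pt_inj (map_zero (act a s))
  smul_add s x y := pt_inj (map_add (act a s) (pt x) (pt y))

theorem pt_smul (s : Gal(L/K)) (x : NN a L) : pt (s • x) = act a s (pt x) := rfl

/-- The Weil pairing on the points of order two. -/
noncomputable def eN (u v : NN a L) : ZMod 2 := e2 (pt u) (pt v)

end

section

variable {K : Type} [Field K] (L : Type) [Field L] [Algebra K L]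

/-- The subgroup of the roots of unity of `2`-power order. -/
def RS : AddSubgroup (Additive Lˣ) where
  carrier := {r | ∃ n : ℕ, 2 ^ n • r = 0}
  zero_mem' := ⟨0, smul_zero _⟩
  add_mem' := fun ⟨n, hn⟩ ⟨m, hm⟩ => ⟨n + m, tors_add hn hm⟩
  neg_mem' := fun ⟨n, hn⟩ => ⟨n, tors_neg hn⟩

/-- The group of the roots of unity of `2`-power order. -/
def RU : Type := RS L

instance : AddCommGroup (RU L) := inferInstanceAs (AddCommGroup (RS L))

variable {L}

/-- The value of an element of `RU L`. -/
def uv (r : RU L) : Additive Lˣ := Subtype.val r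

theorem uv_mem (r : RU L) : ∃ n : ℕ, 2 ^ n • uv r = 0 := Subtype.property r

/-- The element of `RU L` belonging to a root of unity. -/
def mkU (r : Additive Lˣ) (h : ∃ n : ℕ, 2 ^ n • r = 0) : RU L := (⟨r, h⟩ : RS L)

theorem uv_mkU (r : Additive Lˣ) (h : ∃ n : ℕ, 2 ^ n • r = 0) : uv (mkU r h) = r := rfl

theorem uv_inj {x y : RU L} (h : uv x = uv y) : x = y := Subtype.ext h

theorem uv_zero : uv (0 : RU L) = 0 := rfl

theorem uv_add (x y : RU L) : uv (x + y) = uv x + uv y := rfl

theorem uv_neg (x : RU L) : uv (-x) = -uv x := rfl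

theorem uv_nsmul (n : ℕ) (x : RU L) : uv (n • x) = n • uv x := rfl

/-- The action of the Galois group on the units. -/
def uact (s : Gal(L/K)) : Additive Lˣ →+ Additive Lˣ :=
  MonoidHom.toAdditive (Units.map ((s : L →ₐ[K] L) : L →* L))

theorem uact_mem {s : Gal(L/K)} {r : Additive Lˣ} (h : ∃ n : ℕ, 2 ^ n • r = 0) :
    ∃ n : ℕ, 2 ^ n • uact s r = 0 := by
  obtain ⟨n, hn⟩ := h
  exact ⟨n, by rw [← map_nsmul, hn, map_zero]⟩

instance : DistribMulAction Gal(L/K) (RU L) where
  smul s r := mkU (uact s (uv r)) (uact_mem (uv_mem r))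
  one_smul r := uv_inj (Additive.toMul.injective (Units.ext rfl))
  mul_smul s t r := uv_inj (Additive.toMul.injective (Units.ext rfl))
  smul_zero s := uv_inj (map_zero (uact s))
  smul_add s r r' := uv_inj (map_add (uact s) (uv r) (uv r'))

/-- The value of an element of `RU L` in `L`. -/
def ul (r : RU L) : L := ((Additive.toMul (uv r) : Lˣ) : L)

theorem ul_smul (s : Gal(L/K)) (r : RU L) : ul (s • r) = s (ul r) := rfl

theorem ul_inj {x y : RU L} (h : ul x = ul y) : x = y :=
  uv_inj (Additive.toMul.injective (Units.ext h))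

theorem ul_add (x y : RU L) : ul (x + y) = ul x * ul y := rfl

theorem ul_zero : ul (0 : RU L) = 1 := rfl

variable (L)

/-- The element `-1`. -/
def hfU : RU L := mkU (Additive.ofMul (-1)) ⟨1, by
  rw [pow_one, two_nsmul, ← ofMul_mul, neg_mul_neg, one_mul, ofMul_one]⟩

end

/-! ### Places -/

/-- A place of `L`: `t` generates the inertia group, `f` is a Frobenius automorphism, `q` the number
of elements of the residue field of `K`, `ν` the valuation, `res` the residue map. -/
structure Plc {K : Type} [Field K] {L : Type} [Field L] [Algebra K L] {k : Type} [Field k]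
    (t f : Gal(L/K)) (q : ℕ) (ν : L → WithTop ℚ) (res : L → k) : Prop where
  q1 : 1 < q
  top : ∀ x, ν x = ⊤ ↔ x = 0
  mul : ∀ x y, ν (x * y) = ν x + ν y
  add : ∀ x y, min (ν x) (ν y) ≤ ν (x + y)
  two : ν 2 = 0
  nt : ∀ x, ν (t x) = ν x
  nf : ∀ x, ν (f x) = ν x
  int : ∀ x, t x = x → x ≠ 0 → ∃ m : ℤ, ν x = ((m : ℚ) : WithTop ℚ)
  sq : ∀ x y, y ^ 2 = x → t x = x → ∀ m : ℤ, ν x = ((m : ℚ) : WithTop ℚ) →
    t y = if Even m then y else -y
  rel : f * t = t ^ q * f
  r1 : res 1 = 1
  radd : ∀ x y, 0 ≤ ν x → 0 ≤ ν y → res (x + y) = res x + res y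
  rmul : ∀ x y, 0 ≤ ν x → 0 ≤ ν y → res (x * y) = res x * res y
  r0 : ∀ x, 0 ≤ ν x → (res x = 0 ↔ 0 < ν x)
  rt : ∀ x, 0 ≤ ν x → res (t x) = res x
  rf : ∀ x, 0 ≤ ν x → res (f x) = res x ^ q

/-- A place where the curve has multiplicative reduction: `a 0 ≡ a 1`, `a 0 ≢ a 2`. -/
structure Mlt {K : Type} [Field K] {L : Type} [Field L] [Algebra K L] (a : Fin 3 → K)
    (ν : L → WithTop ℚ) : Prop where
  h01 : 0 < ν (al a L 0 - al a L 1)
  h02 : ν (al a L 0 - al a L 2) = 0

/-- The `2`-power torsion points with nonsingular reduction at such a place. -/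
def Us {K : Type} [Field K] {L : Type} [Field L] [Algebra K L] (a : Fin 3 → K)
    (ν : L → WithTop ℚ) (P : PA a L) : Prop :=
  (∃ n : ℕ, 2 ^ n • P = 0) ∧ (P = 0 ∨ ν (px P - al a L 0) = 0)

end Pool.Agent.MP72S.C
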