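import Pool.Agent.Lib.MP_72e2e6_nt.Sm.C.SpecA

/-!
# MP_72e2e6_nt, `Sm`, block C: the multiplier
-/

set_option autoImplicit false

namespace Pool.Agent.MP72S.C

private theorem bas_smul {N G : Type} [AddCommGroup N] [Group G] [DistribMulAction G N]
    {u w : ℕ → N} (hb : Bas u w) (s : G) : Bas (fun n => s • u n) (fun n => s • w n) := by
  constructor
  · rw [hb.u0, smul_zero]
  · rw [hb.w0, smul_zero]
  · exact (smul_ne_zero_iff_ne s).mpr hb.u1
  · exact (smul_ne_zero_iff_ne s).mpr hb.w1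
  · exact fun h => hb.uw (smul_left_cancel s h)
  · intro n; rw [smul_comm, hb.us]
  · intro n; rw [smul_comm, hb.ws]

private theorem ba1_smul {R G : Type} [AddCommGroup R] [Group G] [DistribMulAction G R]
    {z : ℕ → R} (hz : Ba1 z) (s : G) : Ba1 (fun n => s • z n) := by
  constructor
  · rw [hz.z0, smul_zero]
  · exact (smul_ne_zero_iff_ne s).mpr hz.z1
  · intro n; rw [smul_comm, hz.zs]

theorem tDlt (h1 : S_Dga) (h2 : S_Bs1) (h3 : S_Bs2) (h4 : S_WPb) : S_Dlt := by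
  intro N R G _ _ _ _ _ hf e E hN hR he hE
  obtain ⟨hga, hgu, _, _⟩ := h1
  obtain ⟨_, hzz⟩ := h2 R hf hR
  obtain ⟨⟨u, w, hb⟩, _, hbb⟩ := h3 N hN
  obtain ⟨_, _, _, hkill, hbas⟩ := h4 N R hf e E hN hR he hE
  have s4 : ∀ (u w : ℕ → N), Bas u w → ∀ (s : G) (δ : ℤ_[2]),
      (∀ m, E m (s • u m) (s • w m) = dg m δ • (s • E m (u m) (w m))) → IsDl E s δ := by
    intro u w hb s δ h m x y hx hy
    obtain ⟨_, hg, _⟩ := hbb u w hb
    obtain ⟨k, l, hx'⟩ := hg m x hx
    obtain ⟨k', l', hy'⟩ := hg m y hy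
    rw [← natCast_zsmul, ← natCast_zsmul] at hx' hy'
    have e1 : E m x y = ((k : ℤ) * l' - l * k') • E m (u m) (w m) := by
      rw [hx', hy']
      exact (hbas u w hb).1 m k l k' l'
    have e2 : E m (s • x) (s • y) = ((k : ℤ) * l' - l * k') • E m (s • u m) (s • w m) := by
      rw [hx', hy', smul_add, smul_add, smul_comm s (k : ℤ), smul_comm s (l : ℤ),
        smul_comm s (k' : ℤ), smul_comm s (l' : ℤ)]
      exact (hbas _ _ (bas_smul hb s)).1 m k l k' l'
    rw [e2, h m, e1, smul_comm s, smul_comm]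
  refine ⟨?_, ?_, ?_, s4, ?_⟩
  · intro s
    have hz : Ba1 fun m => E m (u m) (w m) := (hbas u w hb).2.2
    have hy : Ba1 fun m => E m (s • u m) (s • w m) := (hbas _ _ (bas_smul hb s)).2.2
    obtain ⟨_, _, _, _, h⟩ := hzz _ (ba1_smul hz s)
    obtain ⟨δ, hδ⟩ := h (fun m => E m (s • u m) (s • w m)) hy.z0 hy.zs
    exact ⟨δ, s4 u w hb s δ hδ⟩
  · intro s δ δ' h h'
    refine hgu _ _ fun m => ?_
    have hz : Ba1 fun m => E m (u m) (w m) := (hbas u w hb).2.2
    obtain ⟨_, _, _, hk, _⟩ := hzz _ (ba1_smul hz s)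
    have e1 := h m (u m) (w m) ((hbb u w hb).1 m).1 ((hbb u w hb).1 m).2
    have e2 := h' m (u m) (w m) ((hbb u w hb).1 m).1 ((hbb u w hb).1 m).2
    have e3 : ((dg m δ' : ℤ) - dg m δ) • (s • E m (u m) (w m)) = 0 := by
      rw [sub_smul, natCast_zsmul, natCast_zsmul, ← e1, ← e2, sub_self]
    rw [hk] at e3
    exact (Nat.modEq_iff_dvd).mpr (by push_cast; exact e3)
  · intro s s' δ δ' h h' m x y hx hy
    have hx' : 2 ^ m • (s' • x) = 0 := by rw [smul_comm, hx, smul_zero]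
    have hy' : 2 ^ m • (s' • y) = 0 := by rw [smul_comm, hy, smul_zero]
    have hr : 2 ^ m • ((s * s') • E m x y) = 0 := by
      rw [smul_comm, hkill m x y hx hy, smul_zero]
    rw [mul_smul, mul_smul, h m _ _ hx' hy', h' m x y hx hy,
      (hga R m _ hr δ δ').2.1, smul_comm s, ← mul_smul s]
  · intro s
    have h1 : ∀ m x y, 2 ^ m • x = 0 → 2 ^ m • y = 0 → dg m 1 • (s • E m x y) = s • E m x y := by
      intro m x y hx hy
      have hr : 2 ^ m • (s • E m x y) = 0 := by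
        rw [smul_comm, hkill m x y hx hy, smul_zero]
      exact (hga R m _ hr 0 0).2.2.2.2.1
    constructor
    · intro h m x y hx hy
      rw [h m x y hx hy, h1 m x y hx hy]
    · intro h m x y hx hy
      rw [h m x y hx hy, h1 m x y hx hy]

end Pool.Agent.MP72S.C
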