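import Pool.Agent.Lib.MP_72e2e6_nt.Sm.C.SpecA

/-!
# MP_72e2e6_nt, `Sm/C`: linear algebra at a place of multiplicative reduction
-/

set_option autoImplicit false

namespace Pool.Agent.MP72S.C

open Finset

private theorem lin_seq {N : Type} [AddCommGroup N] (U : AddSubgroup N)
    (hU : ∀ x ∈ U, ∃ y ∈ U, 2 • y = x) (h1 : ∃ x ∈ U, x ≠ 0 ∧ 2 • x = 0) :
    ∃ u : ℕ → N, u 0 = 0 ∧ u 1 ≠ 0 ∧ (∀ n, 2 • u (n + 1) = u n) ∧ ∀ n, u n ∈ U := by
  obtain ⟨x0, hx0, hne, htwo⟩ := h1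
  have hU' : ∀ x : U, ∃ y : U, 2 • (y : N) = x := by
    intro x
    obtain ⟨y, hy, hyx⟩ := hU x x.2
    exact ⟨⟨y, hy⟩, hyx⟩
  choose h hh using hU'
  let v : ℕ → U := fun n => h^[n] (⟨x0, hx0⟩ : U)
  have hv : ∀ n : ℕ, 2 • ((v (n + 1) : U) : N) = ((v n : U) : N) := by
    intro n
    have e : v (n + 1) = h (v n) := Function.iterate_succ_apply' h n _
    rw [e]
    exact hh (v n)
  refine ⟨fun n => match n with
    | 0 => 0
    | n + 1 => (v n : N), rfl, hne, ?_, ?_⟩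
  · intro n
    cases n with
    | zero => exact htwo
    | succ n => exact hv n
  · intro n
    cases n with
    | zero => exact U.zero_mem
    | succ n => exact (v n).2

theorem tLin (h1 : S_Dga) (_h2 : S_Bs1) (h3 : S_Bs2) (h4 : S_WPb) (h5 : S_Dlt) : S_Lin := by
  intro N R G _ _ _ _ _ hf e E hN hR he hE t f q hq hrel U hUd hU2 hUt ε hε hUf hex hRt hRf hEt
  obtain ⟨g1, g2, -, g4⟩ := h1
  obtain ⟨-, d2, -, d4, d5⟩ := h5 N R G hf e E hN hR he hE
  obtain ⟨u, hu0, hu1, hus, huU⟩ := lin_seq U hUd hU2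
  obtain ⟨-, b2, b3⟩ := h3 N hN
  obtain ⟨w, hB⟩ := b2 u hu0 hu1 hus
  obtain ⟨c1, c2, c3, -, c5⟩ := b3 u w hB
  obtain ⟨-, -, -, -, w5⟩ := h4 N R hf e E hN hR he hE
  obtain ⟨p1, p2, -⟩ := w5 u w hB
  have htE := (d5 t).1 hEt
  -- the sequence `t w - w`
  obtain ⟨ν, ν', hν⟩ := c5 (fun m => t • w m - w m) (by
    rw [hB.w0, smul_zero, sub_zero]) (by
    intro n
    rw [smul_sub, smul_comm, hB.ws n])
  have hν0 : ∀ m, dg m ν' = 0 := by
    intro m
    have e1 : E m (u m) (t • w m) = E m (u m) (w m) := by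
      have := htE m (u m) (w m) (c1 m).1 (c1 m).2
      rw [hUt (u m) (huU m), hRt] at this
      exact this
    have e2 : t • w m = (dg m ν : ℤ) • u m + ((1 : ℤ) + dg m ν') • w m := by
      have := hν m
      rw [sub_eq_iff_eq_add] at this
      rw [this, add_smul, one_smul, natCast_zsmul, natCast_zsmul]
      abel
    have e3 := p1 m 1 0 (dg m ν) (1 + dg m ν')
    rw [← e2, one_smul, zero_smul, add_zero, e1, one_mul, zero_mul, sub_zero, add_smul,
      one_smul] at e3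
    have e4 : ((dg m ν' : ℕ) : ℤ) • E m (u m) (w m) = 0 := by
      have := left_eq_add.1 e3
      exact this
    rw [p2] at e4
    have e5 : 2 ^ m ∣ dg m ν' := by exact_mod_cast e4
    exact Nat.eq_zero_of_dvd_of_lt e5 (g4 m ν')
  have htw : ∀ m, t • w m = w m + dg m ν • u m := by
    intro m
    have := hν m
    rw [hν0 m, zero_smul, add_zero, sub_eq_iff_eq_add] at this
    rw [this, add_comm]
  have hνne : ν ≠ 0 := by
    rintro rfl
    obtain ⟨x, hx⟩ := hex
    obtain ⟨k, hk⟩ := hN.prim x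
    obtain ⟨a, b, hab⟩ := c2 k x hk
    apply hx
    have h0 : dg k (0 : ℤ_[2]) = 0 := by
      unfold dg
      rw [map_zero, ZMod.val_zero]
    have hw : t • w k = w k := by
      rw [htw k, h0, zero_smul, add_zero]
    rw [hab, smul_add, smul_comm t a, smul_comm t b, hUt (u k) (huU k), hw]
  -- the sequence `f w`
  obtain ⟨γ, β, hβ⟩ := c5 (fun m => f • w m) (by
    rw [hB.w0, smul_zero]) (by
    intro n
    rw [smul_comm, hB.ws n])
  have htk : ∀ (k m : ℕ), t ^ k • w m = w m + (k * dg m ν) • u m := by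
    intro k m
    induction k with
    | zero => rw [pow_zero, one_smul, zero_mul, zero_smul, add_zero]
    | succ k ih =>
      rw [pow_succ', mul_smul, ih, smul_add, htw m, smul_comm, hUt (u m) (huU m), add_mul,
        one_mul, add_smul]
      abel
  have htku : ∀ (k m : ℕ), t ^ k • u m = u m := by
    intro k m
    induction k with
    | zero => rw [pow_zero, one_smul]
    | succ k ih => rw [pow_succ', mul_smul, ih, hUt (u m) (huU m)]
  have hmain : ∀ m, dg m ν • ((ε * q) • u m) = dg m β • ((q * dg m ν) • u m) := by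
    intro m
    have e1 : (f * t) • w m = (t ^ q * f) • w m := by rw [hrel]
    rw [mul_smul, mul_smul, htw m, smul_add, smul_comm f (dg m ν), hUf (u m) (huU m), hβ m,
      smul_add, smul_comm (t ^ q) (dg m γ), smul_comm (t ^ q) (dg m β), htk q m, htku q m,
      smul_add, add_assoc, add_left_cancel_iff, add_left_cancel_iff] at e1
    exact e1
  have hAB : ν * ((ε * q : ℤ) : ℤ_[2]) = β * ((q : ℤ_[2]) * ν) := by
    apply g2
    intro n
    have hun := (c1 n).1
    have a1 := (g1 N n (u n) hun ν ((ε * q : ℤ) : ℤ_[2])).2.1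
    have a2 := (g1 N n (u n) hun ν 0).2.2.2.1 (ε * q)
    have a3 := (g1 N n (u n) hun β ((q : ℤ_[2]) * ν)).2.1
    have a4 := (g1 N n (u n) hun ((q : ℕ) : ℤ_[2]) ν).2.1
    have hdu : 2 ^ n • (dg n ν • u n) = 0 := by
      rw [smul_comm, hun, smul_zero]
    have a5 := (g1 N n (dg n ν • u n) hdu ν 0).2.2.1 q
    rw [a2, hmain n] at a1
    rw [a4, a5, ← mul_smul q] at a3
    have a6 : dg n (ν * ((ε * q : ℤ) : ℤ_[2])) • u n = dg n (β * ((q : ℤ_[2]) * ν)) • u n := by
      rw [a1, a3]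
    have a7 := c3 n ((dg n (β * ((q : ℤ_[2]) * ν)) : ℕ) - (dg n (ν * ((ε * q : ℤ) : ℤ_[2])) : ℕ) : ℤ)
      0 (by
        rw [sub_smul, natCast_zsmul, natCast_zsmul, a6, sub_self, zero_smul, add_zero])
    exact (Nat.modEq_iff_dvd.2 (by exact_mod_cast a7.1))
  have hβε : β = ((ε : ℤ) : ℤ_[2]) := by
    have hq0 : (q : ℤ_[2]) ≠ 0 := Nat.cast_ne_zero.2 (by omega)
    have h0 : (q : ℤ_[2]) * ν ≠ 0 := mul_ne_zero hq0 hνne
    apply mul_right_cancel₀ h0
    rw [← hAB]
    push_cast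
    ring
  apply d4 u w hB f 1
  intro m
  have hzt : 2 ^ m • (f • E m (u m) (w m)) = 0 := by
    have e1 : ((2 ^ m : ℤ)) • E m (u m) (w m) = 0 := (p2 m (2 ^ m)).2 (dvd_refl _)
    have e2 : (2 ^ m : ℕ) • E m (u m) (w m) = 0 := by
      rw [← natCast_zsmul]
      push_cast
      exact e1
    rw [smul_comm, e2, smul_zero]
  have e1 := (g1 R m (f • E m (u m) (w m)) hzt 0 0).2.2.2.2.1
  rw [e1, hRf]
  have e2 : dg m β • w m = ε • w m := by
    rw [hβε]
    exact (g1 N m (w m) (c1 m).2 0 0).2.2.2.1 ε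
  rw [hβ m, e2, hUf (u m) (huU m)]
  have e3 := p1 m (ε * q) 0 (dg m γ) ε
  rw [zero_smul, add_zero, natCast_zsmul, zero_mul, sub_zero] at e3
  rw [e3]
  have e4 : ε * q * ε = (q : ℤ) := by
    rcases hε with h | h <;> rw [h] <;> ring
  rw [e4, natCast_zsmul]

end Pool.Agent.MP72S.C
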