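import Pool.Agent.Lib.MP_72e2e6_nt.Sm.C.Defs

/-!
# MP_72e2e6_nt, `Sm`, block C, part A: abstract algebra (pairings on `2`-primary groups of rank two)

Every `S_...` is a statement to be proved in its own file `Sm/C/<Name>.lean` (import this file or `SpecC`), theorem
`t<Name> : S_<Name>`, or `t<Name> (h1 : S_X) (h2 : S_Y) .. : S_<Name>` for the used statements (in the order of the
docstring), namespace `Pool.Agent.MP72S.C`, other declarations `private`.  All modules are independent.  The docstrings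
contain complete proofs.

For a `2`-adic integer `δ` and `x` with `2 ^ n • x = 0` we write `δ x = dg n δ • x` (independent of `n`, `S_Dga`).
-/

set_option autoImplicit false

namespace Pool.Agent.MP72S.C

open Finset

/-- **Dga** (150 lines). The action of the `2`-adic integers on `2`-primary groups.

Proof. `dg n δ = (toZModPow n δ).val`, so `(dg n δ : ZMod (2 ^ n)) = toZModPow n δ` (`ZMod.natCast_zmod_val`), and
`k • x` depends only on `k` modulo `2 ^ n` if `2 ^ n • x = 0`.  (1)-(5): `toZModPow n` is a ring homomorphism.  (6):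
`toZModPow n` is the reduction of `toZModPow m` (`PadicInt.zmod_cast_comp_toZModPow` / `PadicInt.cast_toZModPow`).  (7):
`PadicInt.ext_of_toZModPow`.  (8): the integers `c n` form a Cauchy sequence in `ℤ_[2]` (`‖(c (n + 1) : ℤ_[2]) - c n‖ ≤
2 ^ (- n)`, e.g. `cauchySeq_of_le_geometric`), let `δ` be the limit; the set `{x | 2 ^ n ∣ x - c n}` is closed
(`PadicInt.norm_le_pow_iff_mem_span_pow`, `‖x‖ ≤ 2 ^ (-n)`) and contains `c m`, `m ≥ n`; and `toZModPow n` kills the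
multiples of `2 ^ n`. -/
def S_Dga : Prop :=
  (∀ (A : Type) [AddCommGroup A] (n : ℕ) (x : A), 2 ^ n • x = 0 → ∀ α β : ℤ_[2],
    dg n (α + β) • x = dg n α • x + dg n β • x ∧ dg n (α * β) • x = dg n α • dg n β • x ∧
    (∀ k : ℕ, dg n (k : ℤ_[2]) • x = k • x) ∧ (∀ k : ℤ, dg n (k : ℤ_[2]) • x = k • x) ∧
    dg n 1 • x = x ∧ (∀ m, n ≤ m → dg m α • x = dg n α • x)) ∧
  (∀ α β : ℤ_[2], (∀ n, dg n α ≡ dg n β [MOD 2 ^ n]) → α = β) ∧
  (∀ c : ℕ → ℕ, (∀ n, c (n + 1) ≡ c n [MOD 2 ^ n]) →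
    ∃ δ : ℤ_[2], ∀ n, dg n δ ≡ c n [MOD 2 ^ n]) ∧
  ∀ (n : ℕ) (α : ℤ_[2]), dg n α < 2 ^ n

/-- **Tfr** (80 lines, uses `S_Dga`). There are no roots of unity `≡ 1` modulo four in `ℤ_[2]` except for `1`.

Proof. `dg 2 δ = 1` means `toZModPow 2 δ = 1`, also for all powers of `δ`.  If `x ^ 2 = 1` and `toZModPow 2 x = 1` then
`(x - 1) (x + 1) = 0` and `x ≠ -1`, so `x = 1`.  If `x ^ m = 1`, `m` odd: `(x - 1) (1 + x + ... + x ^ (m - 1)) = 0`, and the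
second factor is mapped to `m ≠ 0` by `toZModPow 1`; so `x = 1`.  Let `k = 2 ^ a * m` with `m` odd: `(δ ^ (2 ^ a)) ^ m = 1`
gives `δ ^ (2 ^ a) = 1`; then `δ ^ (2 ^ (a - 1)) = 1`, etc. -/
def S_Tfr : Prop := ∀ δ : ℤ_[2], dg 2 δ = 1 → ∀ k : ℕ, 1 ≤ k → δ ^ k = 1 → δ = 1

/-- **Bs1** (120 lines, uses `S_Dga`). Groups of rank one.

Proof. (1) choose halves, starting with `z 0 = 0`, `z 1 = hf`.  (2) `2 ^ n • z n = 0`, and `z n` has order `2 ^ n` as
`2 ^ (n - 1) • z n = z 1 ≠ 0`; by induction on `n` every `x` with `2 ^ n • x = 0` is a multiple of `z n`: for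
`2 ^ (n + 1) • x = 0` `2 • x = k • z n = 2 • (k • z (n + 1))`, so `x - k • z (n + 1) ∈ {0, hf}`, `hf = z 1 =
2 ^ n • z (n + 1)`.  (3) `k • z n = 0` iff `2 ^ n ∣ k` (order).  (4) coordinates `c n ∈ ℕ` of `x n`; `2 • x (n + 1) = x n`
gives `c (n + 1) ≡ c n` modulo `2 ^ n`; use (8) of `S_Dga`. -/
def S_Bs1 : Prop := ∀ (R : Type) [AddCommGroup R] (hf : R), P1 R hf →
  (∃ z : ℕ → R, Ba1 z) ∧
  ∀ z : ℕ → R, Ba1 z → z 1 = hf ∧ (∀ n, 2 ^ n • z n = 0) ∧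
    (∀ n x, 2 ^ n • x = 0 → ∃ k : ℕ, x = k • z n) ∧ (∀ (n : ℕ) (k : ℤ), k • z n = 0 ↔ (2 ^ n : ℤ) ∣ k) ∧
    ∀ x : ℕ → R, x 0 = 0 → (∀ n, 2 • x (n + 1) = x n) → ∃ α : ℤ_[2], ∀ n, x n = dg n α • z n

/-- **Bs2** (200 lines, uses `S_Dga`). Groups of rank two.

Proof. `V = {x | 2 • x = 0}` has four elements.  (1) `u`: choose halves starting with some `u 1 ∈ V`, `u 1 ≠ 0`.  (2) `w`:
choose halves starting with `w 1 ∈ V`, `w 1 ≠ 0, u 1`.  (3) By induction on `n`: every `x` with `2 ^ n • x = 0` is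
`k • u n + l • w n`: for `2 ^ (n + 1) • x = 0`: `2 • x = 2 • (k • u (n + 1) + l • w (n + 1))`, and the difference is in
`V = {0, u 1, w 1, u 1 + w 1}`, `u 1 = 2 ^ n • u (n + 1)`, `w 1 = 2 ^ n • w (n + 1)`.  (4) If `k • u n + l • w n = 0` then
`2 ^ n ∣ k, l`, by induction on `n`: for `n + 1`: multiply by `2`: `k • u n + l • w n = 0`, so `k = 2 ^ n k'`,
`l = 2 ^ n l'`, `k' • u 1 + l' • w 1 = 0`, so `k'`, `l'` are even (`u 1, w 1, u 1 + w 1 ≠ 0`).  (5) as in `S_Bs1`. -/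
def S_Bs2 : Prop := ∀ (N : Type) [AddCommGroup N], P2 N →
  (∃ u w : ℕ → N, Bas u w) ∧
  (∀ u : ℕ → N, u 0 = 0 → u 1 ≠ 0 → (∀ n, 2 • u (n + 1) = u n) → ∃ w : ℕ → N, Bas u w) ∧
  ∀ u w : ℕ → N, Bas u w →
    (∀ n, 2 ^ n • u n = 0 ∧ 2 ^ n • w n = 0) ∧
    (∀ n x, 2 ^ n • x = 0 → ∃ k l : ℕ, x = k • u n + l • w n) ∧
    (∀ (n : ℕ) (k l : ℤ), k • u n + l • w n = 0 → (2 ^ n : ℤ) ∣ k ∧ (2 ^ n : ℤ) ∣ l) ∧
    (∀ x : N, 2 • x = 0 → x = 0 ∨ x = u 1 ∨ x = w 1 ∨ x = u 1 + w 1) ∧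
    ∀ x : ℕ → N, x 0 = 0 → (∀ n, 2 • x (n + 1) = x n) →
      ∃ α β : ℤ_[2], ∀ n, x n = dg n α • u n + dg n β • w n

/-- **WPe** (200 lines, uses `S_Dga`, `S_Bs1`, `S_Bs2`). Existence of the pairings.

Proof. `u, w` a basis of `N`, `z` a basis of `R`, `z 1 = hf`.  For `2 ^ m • x = 0 = 2 ^ m • y` choose `x = α u m + β w m`,
`y = γ u m + δ w m` (natural numbers, by choice functions depending on `m`, `x`) and let
`E m x y = (α δ - β γ : ℤ) • z m`; it does not depend on the choices (`S_Bs2`: the coordinates are unique modulo `2 ^ m`).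
`add`, `alt`, `anti` are clear.  `nd`: `E m x (w m) = α • z m = 0` and `E m x (u m) = - β • z m = 0` give `x = 0`.  `two`:
`x = α u (m+1) + β w (m+1)`, `y = γ u m + δ w m = 2 γ u (m+1) + 2 δ w (m+1)`, `E (m+1) x y = 2 (α δ - β γ) z (m+1) =
(α δ - β γ) z m`, and `2 x = α u m + β w m`.  `one`: `e (u 1) (w 1) = 1` (otherwise `e (u 1)` vanishes on `V`, which is
`{0, u 1, w 1, u 1 + w 1}`), so `e (α u 1 + β w 1) (γ u 1 + δ w 1) = α δ + β γ`; check the sixteen cases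
`a, b ∈ {0, u 1, w 1, u 1 + w 1}`, or use bilinearity on both sides. -/
def S_WPe : Prop := ∀ (N R : Type) [AddCommGroup N] [AddCommGroup R] (hf : R) (e : N → N → ZMod 2),
  P2 N → P1 R hf → PV e → ∃ E : ℕ → N → N → R, WP e hf E

/-- **WPb** (100 lines, uses `S_Bs2`). Basic properties of the pairings.

Proof. (1), (2): `E m 0 c = 0` by additivity, `anti`.  (3) from `two` and `anti`.  (4): additivity in both variables
(`anti`).  (5): if `k • E m (u m) (w m) = 0` then `E m (k • u m) y = 0` for all `y = γ u m + δ w m` (`alt`), so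
`k • u m = 0` by `nd` and `2 ^ m ∣ k`. -/
def S_WPb : Prop := ∀ (N R : Type) [AddCommGroup N] [AddCommGroup R] (hf : R) (e : N → N → ZMod 2)
  (E : ℕ → N → N → R), P2 N → P1 R hf → PV e → WP e hf E →
    (∀ m a b c, 2 ^ m • a = 0 → 2 ^ m • b = 0 → 2 ^ m • c = 0 →
      E m c (a + b) = E m c a + E m c b) ∧
    (∀ (m : ℕ) (k : ℤ) a b, 2 ^ m • a = 0 → 2 ^ m • b = 0 →
      E m (k • a) b = k • E m a b ∧ E m a (k • b) = k • E m a b) ∧
    (∀ m a b, 2 ^ m • a = 0 → 2 ^ (m + 1) • b = 0 → E (m + 1) a b = E m a (2 • b)) ∧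
    (∀ m a b, 2 ^ m • a = 0 → 2 ^ m • b = 0 → 2 ^ m • E m a b = 0) ∧
    ∀ u w : ℕ → N, Bas u w →
      (∀ (m : ℕ) (α β γ δ : ℤ), E m (α • u m + β • w m) (γ • u m + δ • w m) =
        (α * δ - β * γ) • E m (u m) (w m)) ∧
      (∀ (m : ℕ) (k : ℤ), k • E m (u m) (w m) = 0 ↔ (2 ^ m : ℤ) ∣ k) ∧
      Ba1 fun m => E m (u m) (w m)

/-- **Dlt** (200 lines, uses `S_Dga`, `S_Bs1`, `S_Bs2`, `S_WPb`). The multiplier `δ(s)`.

Proof. Let `u, w` be a basis, `z m = E m (u m) (w m)`, a `Ba1` (`S_WPb`).  `s z m = s • z m` is also a `Ba1`.  The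
sequence `y m = E m (s u m) (s w m)` satisfies `y 0 = 0`, `2 y (m + 1) = y m`:
`2 E (m+1) (s u (m+1)) (s w (m+1)) = E (m+1) (s u (m+1)) (s w m) = E m (s u m) (s w m)` (`two`).  So (`S_Bs1` for the basis
`s • z`) there is `δ` with `y m = dg m δ • s • z m`.  By bilinearity (`S_WPb` (5) for the basis `s u, s w`)
`E m (s x) (s y) = (α δ' - β γ) • y m = dg m δ • s • E m x y`.  (2) unique: `z m` has order `2 ^ m`, `S_Dga` (7).  (3)
`E m (s s' x) (s s' y) = δ (s E m (s' x) (s' y)) = δ (s (δ' (s' E m x y)))`.  (4) as in (1).  (5) is clear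
(`dg m 1 • r = r`). -/
def S_Dlt : Prop := ∀ (N R G : Type) [AddCommGroup N] [AddCommGroup R] [Group G]
  [DistribMulAction G N] [DistribMulAction G R] (hf : R) (e : N → N → ZMod 2)
  (E : ℕ → N → N → R), P2 N → P1 R hf → PV e → WP e hf E →
    (∀ s : G, ∃ δ, IsDl E s δ) ∧
    (∀ (s : G) (δ δ' : ℤ_[2]), IsDl E s δ → IsDl E s δ' → δ = δ') ∧
    (∀ (s s' : G) (δ δ' : ℤ_[2]), IsDl E s δ → IsDl E s' δ' → IsDl E (s * s') (δ * δ')) ∧
    (∀ (u w : ℕ → N), Bas u w → ∀ (s : G) (δ : ℤ_[2]),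
      (∀ m, E m (s • u m) (s • w m) = dg m δ • (s • E m (u m) (w m))) → IsDl E s δ) ∧
    ∀ s : G, IsDl E s 1 ↔ ∀ m x y, 2 ^ m • x = 0 → 2 ^ m • y = 0 →
      E m (s • x) (s • y) = s • E m x y

/-- **Dl4** (120 lines, uses `S_Dga`, `S_Bs2`, `S_WPb`, `S_Dlt`). `δ(s) ≡ 1` modulo four.

Proof. For `4 x = 0 = 4 y`: `s x = x + x'`, `s y = y + y'` with `x' = s x - x`, `y' = s y - y` of order at most two (`s`
fixes `2 x`).  `E 2 (s x) (s y) = E 2 x y + E 2 x' y + E 2 x y' + E 2 x' y'`, `E 2 x' y = E 1 x' (2 y)`,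
`E 2 x y' = E 1 (2 x) y'` (`two`, `S_WPb` (3)), `E 2 x' y' = E 1 x' (2 y') = E 1 x' 0 = 0`.  By `one` and the hypothesis
`E 1 x' (2 y) = E 1 (2 x) y'`, and twice it is `0`.  So `E 2 (s x) (s y) = E 2 x y = s E 2 x y` (`4 E 2 x y = 0`).  For
`x = u 2`, `y = w 2`: `dg 2 δ • r = r`, `r = E 2 (u 2) (w 2)`, so `4 ∣ dg 2 δ - 1`, `dg 2 δ < 4`. -/
def S_Dl4 : Prop := ∀ (N R G : Type) [AddCommGroup N] [AddCommGroup R] [Group G]
  [DistribMulAction G N] [DistribMulAction G R] (hf : R) (e : N → N → ZMod 2)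
  (E : ℕ → N → N → R), P2 N → P1 R hf → PV e → WP e hf E → ∀ s : G,
    (∀ x : N, 2 • x = 0 → s • x = x) →
    (∀ x y : N, 4 • x = 0 → 4 • y = 0 → e (s • x - x) (2 • y) = e (2 • x) (s • y - y)) →
    (∀ r : R, 4 • r = 0 → s • r = r) → ∀ δ, IsDl E s δ → dg 2 δ = 1

/-- **Dtt** (60 lines, uses `S_Dga`, `S_Tfr`, `S_Dlt`). `δ = 1` on inertia.

Proof. Let `δ, φ` be the multipliers of `t`, `f`.  `f t` has the multiplier `φ δ`, `t ^ q f` has `δ ^ q φ` (`S_Dlt` (3),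
induction), so `φ δ = δ ^ q φ` (`S_Dlt` (2)); `φ ≠ 0` as `dg 2 φ = 1`, so `δ = δ ^ q`, `δ ≠ 0`, `δ ^ (q - 1) = 1`, `δ = 1` by
`S_Tfr`. -/
def S_Dtt : Prop := ∀ (N R G : Type) [AddCommGroup N] [AddCommGroup R] [Group G]
  [DistribMulAction G N] [DistribMulAction G R] (hf : R) (e : N → N → ZMod 2)
  (E : ℕ → N → N → R), P2 N → P1 R hf → PV e → WP e hf E →
    (∀ (s : G) (δ : ℤ_[2]), IsDl E s δ → dg 2 δ = 1) → ∀ (t f : G) (q : ℕ), 1 < q →
      f * t = t ^ q * f → IsDl E t 1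

/-- **Lin** (250 lines, uses `S_Dga`, `S_Bs1`, `S_Bs2`, `S_WPb`, `S_Dlt`). Linear algebra at a place of multiplicative
reduction.

Proof. Choose `u` in `U`: `u 0 = 0`, `u 1 ∈ U` of order two, `u (n + 1) ∈ U` a half of `u n`; `w` with `Bas u w` (`S_Bs2`);
`z m = E m (u m) (w m)`.  (i) `d m = t w m - w m`: `E m (u m) (t w m) = E m (t u m) (t w m) = t z m = z m` (`IsDl E t 1`), so
`E m (u m) (d m) = 0`; `d m` is a compatible sequence, so (`S_Bs2` (5)) `d m = ν (u m) + ν' (w m)` with `ν, ν' ∈ ℤ_[2]`, and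
`0 = E m (u m) (d m) = dg m ν' • z m`, so `2 ^ m ∣ dg m ν'` for all `m` and `ν' = 0`: `t w m = w m + ν (u m)`.  `ν ≠ 0`,
otherwise `t` fixes all `u m`, `w m` and so all of `N`.  (ii) `f w m = γ (u m) + β (w m)` with `γ, β ∈ ℤ_[2]`.  (iii) apply
`f t = t ^ q f` to `w m`: `t ^ q (w m) = w m + q ν (u m)`; the left side is
`f (w m + ν u m) = γ u m + β w m + ν (ε q u m)`, the right side `t ^ q (γ u m + β w m) = γ u m + β (w m + q ν u m)`.  So
`(ν ε q - β q ν) u m = 0` for all `m`; `u m` has order `2 ^ m`, hence `ν ε q = β q ν` in `ℤ_[2]` and `β = ε` (a domain of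
characteristic zero).  (iv) `E m (f u m) (f w m) = E m (ε q u m) (γ u m + ε w m) = ε ^ 2 q z m = q z m = f z m`, so
`IsDl E f 1` by `S_Dlt` (4). -/
def S_Lin : Prop := ∀ (N R G : Type) [AddCommGroup N] [AddCommGroup R] [Group G]
  [DistribMulAction G N] [DistribMulAction G R] (hf : R) (e : N → N → ZMod 2)
  (E : ℕ → N → N → R), P2 N → P1 R hf → PV e → WP e hf E → ∀ (t f : G) (q : ℕ), 1 < q →
    f * t = t ^ q * f → ∀ U : AddSubgroup N, (∀ x ∈ U, ∃ y ∈ U, 2 • y = x) →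
    (∃ x ∈ U, x ≠ 0 ∧ 2 • x = 0) → (∀ x ∈ U, t • x = x) → ∀ ε : ℤ, (ε = 1 ∨ ε = -1) →
    (∀ x ∈ U, f • x = (ε * q) • x) → (∃ x : N, t • x ≠ x) → (∀ r : R, t • r = r) →
    (∀ r : R, f • r = q • r) → IsDl E t 1 → IsDl E f 1

/-- **Cyg** (150 lines). Finite abelian `2`-groups.

Proof. `B` = the range of `ψ`, `C` = the subgroup generated by `ψ g` (both in `A`).  Suppose `C ≠ B`.  `B / C` is a
nontrivial finite abelian `2`-group, so the squaring is not injective on it, hence not surjective, and there is a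
nontrivial homomorphism `B / C → ZMod 2` (`(B/C) / (B/C)²` is a nonzero vector space over `ZMod 2`; or by induction on the
order; or: a maximal proper subgroup of a finite abelian `2`-group has index two).  The composition with `ψ` is a
homomorphism `f : G → ZMod 2`, a function of `ψ`, with `f g = 0`, not identically zero: against the hypothesis.  So every
`ψ s` is a power of `ψ g` (finite order: a natural power). -/
def S_Cyg : Prop := ∀ (G A : Type) [Group G] [CommGroup A] [Finite A] (ψ : G →* A) (g : G),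
  (∀ a : A, ∃ k : ℕ, a ^ 2 ^ k = 1) →
  (∀ c : A → ZMod 2, (∀ s t : G, c (ψ (s * t)) = c (ψ s) + c (ψ t)) → c (ψ g) = 0 →
    ∀ s, c (ψ s) = 0) → ∀ s : G, ∃ j : ℕ, ψ s = ψ g ^ j

/-- **Lte** (60 lines). Powers of `q ≡ 1` modulo four.

Proof. `v_2(q ^ m - 1) = v_2(q - 1) + v_2(m)` (Mathlib: `Int.two_pow_sub_pow`, `padicValNat`, or directly: `q ^ (2 ^ a m')`,
`m'` odd, by induction on `a`).  Let `2 ^ c` be the exact power of `2` in `q - 1`. -/
def S_Lte : Prop := ∀ q : ℕ, q % 4 = 1 → 1 < q → ∃ c : ℕ, ∀ (n i j : ℕ),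
  q ^ i ≡ q ^ j [MOD 2 ^ (n + c)] → i ≡ j [MOD 2 ^ n]

/-- **Gl1** (120 lines, uses `S_Dga`, `S_Tfr`, `S_Bs1`, `S_Dlt`, `S_Dl4`, `S_Dtt`). Roots of unity of order four are
fixed, `δ ≡ 1` modulo four, `δ(tau v) = 1`.

Proof. `P2 N`, `PV D.e` from `Ax`.  `z` a basis of `R`, `z 2` of order four; `s z 2` is of order four, a multiple of `z 2`, so
`s z 2 = z 2` or `s z 2 = - z 2`.  The function `s ↦ 0` resp. `1` is an `IsCh` (locally constant by `hact`), it is `0` at all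
`tau v`, and at `phi inf`, since `phi inf • z 2 = nq inf • z 2 = z 2` (`Ax.q4`).  By `Ax.uni` it is `0`.  So (1): the
elements `r` with `4 • r = 0` are the multiples of `z 2`.  (2): `S_Dl4` with `Ax.tri`, `Ax.sa`.  (3): `S_Dtt` with
`Ax.rel`, `1 < nq v = nq inf ^ d`. -/
def S_Gl1 : Prop := ∀ (G N P R : Type) [Group G] [TopologicalSpace G] [AddCommGroup N]
  [DistribMulAction G N] [AddCommGroup R] [DistribMulAction G R] (D : Dat G N P) (hf : R)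
  (E : ℕ → N → N → R), Ax D → P1 R hf → WP D.e hf E →
    (∀ r : R, IsLocallyConstant fun σ : G => σ • r) → (∀ v (r : R), D.tau v • r = r) →
    (∀ v (r : R), D.phi v • r = D.nq v • r) → 1 < D.nq D.inf →
    (∀ v, ∃ d : ℕ, 1 ≤ d ∧ D.nq v = D.nq D.inf ^ d) →
    (∀ (σ : G) (r : R), 4 • r = 0 → σ • r = r) ∧
    (∀ (σ : G) (δ : ℤ_[2]), IsDl E σ δ → dg 2 δ = 1) ∧ ∀ v, IsDl E (D.tau v) 1

/-- **Glo** (300 lines, uses `S_Dga`, `S_Tfr`, `S_Bs1`, `S_Bs2`, `S_WPb`, `S_Dlt`, `S_Gl1`, `S_Cyg`, `S_Lte`). The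
global argument: `δ = 1`.

Proof. `P2 N`, `PV D.e` from `Ax`.  `z` a basis of `R`.  For `s ∈ G` let `δ(s)` be the multiplier (`S_Dlt`), and `κ(s) ∈ ℤ_[2]`
with `s z n = κ(s) z n` for all `n` (`S_Bs1`; the sequence `s z n` is compatible); `κ` is multiplicative,
`κ(phi v) = nq v`, `κ(tau v) = 1`, and `dg 2 (κ s) = 1` by `S_Gl1` (1) (`z 2` has order four).  `dg 2 (δ s) = 1` and
`δ(tau v) = 1` by `S_Gl1`.
For `n, N` let `ψ : G → (ZMod (2 ^ n))ˣ × (ZMod (2 ^ N))ˣ`, `s ↦ (δ(s), κ(s))` modulo `2 ^ n`, `2 ^ N`, a homomorphism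
to a finite abelian `2`-group (the order of `(ZMod (2 ^ n))ˣ` is a power of two), and a locally constant function:
`s u n`, `s w n`, `s z n`, `s z N` are locally constant (`Ax.act`, `hact`) and determine it.  `ψ (tau v) = 1`.  For
`S_Cyg` with `g = phi inf`: a function `c` of `ψ` which is a homomorphism is an `IsCh`, `0` at the `tau v`, so
`Ax.uni` applies.  So for every `s` there is `j` with `δ(s) ≡ w ^ j` modulo `2 ^ n`, `κ(s) ≡ q ^ j` modulo `2 ^ N`,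
where `w = δ(phi inf)`, `q = nq inf = κ(phi inf)`.  For `s = phi v₁`, `κ(s) = nq v₁ = q ^ d`: with `N = n + c`
(`S_Lte`) `j ≡ d` modulo `2 ^ n`, and as `w ^ (2 ^ n) ≡ 1` modulo `2 ^ n` (`w` odd): `1 = δ(phi v₁) ≡ w ^ d` modulo `2 ^ n`,
for all `n`; so `w ^ d = 1`, `w = 1` by `S_Tfr`, and `δ(s) ≡ 1` modulo `2 ^ n` for all `s`, `n`. -/
def S_Glo : Prop := ∀ (G N P R : Type) [Group G] [TopologicalSpace G] [AddCommGroup N]
  [DistribMulAction G N] [AddCommGroup R] [DistribMulAction G R] (D : Dat G N P) (hf : R)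
  (E : ℕ → N → N → R), Ax D → P1 R hf → WP D.e hf E →
    (∀ r : R, IsLocallyConstant fun σ : G => σ • r) → (∀ v (r : R), D.tau v • r = r) →
    (∀ v (r : R), D.phi v • r = D.nq v • r) → 1 < D.nq D.inf →
    (∀ v, ∃ d : ℕ, 1 ≤ d ∧ D.nq v = D.nq D.inf ^ d) → ∀ v₁, IsDl E (D.phi v₁) 1 →
      ∀ σ : G, IsDl E σ 1

/-- **AxE** (60 lines, uses `S_WPe`, `S_Dlt`, `S_Gl1`, `S_Glo`). The pairings for `Ax3`.

Proof. `E` from `S_WPe` (`P2 N`, `PV D.e` from `Ax D`).  By `S_Gl1` (3), the hypothesis on `v₁` and `S_Glo` `IsDl E σ 1` for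
all `σ`; `S_Dlt` (5). -/
def S_AxE : Prop := ∀ (G N P R : Type) [Group G] [TopologicalSpace G] [AddCommGroup N]
  [DistribMulAction G N] [AddCommGroup R] [DistribMulAction G R] (D : Dat G N P) (hf : R),
  Ax D → P1 R hf →
    (∀ r : R, IsLocallyConstant fun σ : G => σ • r) → (∀ v (r : R), D.tau v • r = r) →
    (∀ v (r : R), D.phi v • r = D.nq v • r) → 1 < D.nq D.inf →
    (∀ v, ∃ d : ℕ, 1 ≤ d ∧ D.nq v = D.nq D.inf ^ d) → ∀ v₁,
    (∀ E : ℕ → N → N → R, WP D.e hf E → IsDl E (D.tau v₁) 1 → IsDl E (D.phi v₁) 1) →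
    ∃ E : ℕ → N → N → R,
      (∀ m (a b c : N), 2 ^ m • a = 0 → 2 ^ m • b = 0 → 2 ^ m • c = 0 →
        E m (a + b) c = E m a c + E m b c) ∧
      (∀ m (a : N), 2 ^ m • a = 0 → E m a a = 0) ∧
      (∀ m (a b : N), 2 ^ m • a = 0 → 2 ^ m • b = 0 → E m a b = - E m b a) ∧
      (∀ m (σ : G) (a b : N), 2 ^ m • a = 0 → 2 ^ m • b = 0 →
        E m (σ • a) (σ • b) = σ • E m a b) ∧
      (∀ m (a b : N), 1 ≤ m → 2 ^ (m + 1) • a = 0 → 2 ^ m • b = 0 →
        E (m + 1) a b = E m (2 • a) b) ∧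
      ∀ a b : N, 2 • a = 0 → 2 • b = 0 → E 1 a b = if D.e a b = 0 then 0 else hf

end Pool.Agent.MP72S.C
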