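import Pool.Agent.Lib.MP_72e2e6_nt.Sm.C.SpecC

/-!
# MP_72e2e6_nt, `Sm`, block C: module Tam (tame places)
-/

set_option autoImplicit false

namespace Pool.Agent.MP72S.C

open Finset WeierstrassCurve Pool.Agent.MP72W

open scoped Classical

private theorem tam_sg {A : Type} [AddCommGroup A] (c : ZMod 2) (m : ℕ) (z : A) :
    sg c (m • z) = m • sg c z := by
  unfold sg
  split_ifs
  · rfl
  · rw [neg_nsmul]

theorem tTam (_h1 : S_Grp) (h2 : S_Vee) (_h3 : S_Acp) (h4 : S_Msg) (_h5 : S_Ppr) : S_Tam := by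
  intro K _ a L _ _ k _ t f q ν res hyp hpl c hc x hx
  obtain ⟨-, v2, -, -, -, -, -, -, v9, -, -⟩ := h2 K a L hyp
  have two : (2 : L) ≠ 0 := hyp.1
  by_contra hne
  have hex : ∃ n : ℕ, 2 ^ n • x = 0 := by
    obtain ⟨n, hn⟩ := pt_mem x
    exact ⟨n, pt_inj (by rw [pt_nsmul, hn, pt_zero])⟩
  obtain ⟨n, hn, hmin⟩ : ∃ n : ℕ, 2 ^ n • x = 0 ∧ ∀ m < n, 2 ^ m • x ≠ 0 :=
    ⟨Nat.find hex, Nat.find_spec hex, fun m hm => Nat.find_min hex hm⟩
  have hn2 : 2 ≤ n := by
    by_contra hlt
    apply hne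
    have : n = 0 ∨ n = 1 := by omega
    rcases this with rfl | rfl
    · rw [pow_zero, one_nsmul] at hn
      rw [hn, nsmul_zero]
    · rwa [pow_one] at hn
  obtain ⟨m', rfl⟩ : ∃ m', n = m' + 2 := ⟨n - 2, by omega⟩
  set y : NN a L := 2 ^ m' • x with hy
  have hy2 : 2 • y ≠ 0 := by
    have h := hmin (m' + 1) (by omega)
    rw [pow_succ, mul_nsmul] at h
    exact h
  have hy4 : 2 • (2 • y) = 0 := by
    rw [pow_succ, pow_succ, mul_nsmul, mul_nsmul] at hn
    exact hn
  have hty : sg c (t • y) = y := by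
    have h : t • (2 ^ m' • x) = 2 ^ m' • (t • x) :=
      map_nsmul (DistribSMul.toAddMonoidHom (NN a L) t) (2 ^ m') x
    rw [hy, h, tam_sg, hx]
  have hp4 : (pt y + pt y) + (pt y + pt y) = 0 := by
    rw [← pt_add, ← pt_add, ← two_nsmul, ← two_nsmul, hy4, pt_zero]
  have hp2 : pt y + pt y ≠ 0 := by
    rw [← pt_add, ← two_nsmul]
    intro h
    exact hy2 (pt_inj h)
  obtain ⟨i, hi⟩ := ((v2 _).1 hp4).resolve_left hp2
  obtain ⟨j, hji, m, hm, hmc⟩ := hc i
  obtain ⟨-, m2, m3, m4⟩ := h4 K a L hyp t (pt y) i j (Ne.symm hji) hi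
  have hfix : t (al a L i - al a L j) = al a L i - al a L j := by
    rw [map_sub]
    congr 1
    · exact AlgEquiv.commutes t (a i)
    · exact AlgEquiv.commutes t (a j)
  have hsq := hpl.sq _ _ m2 hfix m hm
  have hci : c = 0 ∨ c = 1 := by
    revert c
    intro c
    fin_cases c
    · intros; left; rfl
    · intros; right; rfl
  rcases hci with rfl | rfl
  · have e1 : t • y = y := by
      have h : sg (0 : ZMod 2) (t • y) = t • y := if_pos rfl
      rwa [h] at hty
    have e2' : act a t (pt y) = pt y := by rw [← pt_smul, e1]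
    rw [e2', sub_self] at m4
    have e3 : e2 (0 : PA a L) (ee a j) = 0 := if_pos (Or.inl rfl)
    rw [e3] at m4
    have e4 : t (rr (pt y) j) = rr (pt y) j := by
      by_contra h
      rw [if_neg h] at m4
      exact zero_ne_one m4
    have hodd : ¬ Even m := by
      intro hev
      rw [add_zero] at hmc
      have h := (ZMod.intCast_zmod_eq_zero_iff_dvd m 2).2 (by
        exact_mod_cast hev.two_dvd)
      rw [h] at hmc
      exact zero_ne_one hmc
    rw [if_neg hodd, e4] at hsq
    apply m3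
    have h : 2 * rr (pt y) j = 0 := by linear_combination hsq
    exact (mul_eq_zero.1 h).resolve_left two
  · have e1 : -(t • y) = y := by
      have h : sg (1 : ZMod 2) (t • y) = -(t • y) := if_neg one_ne_zero
      rwa [h] at hty
    have e2' : act a t (pt y) = -pt y := by
      rw [← pt_smul, ← pt_neg]
      congr 1
      rw [← neg_eq_iff_eq_neg]
      exact e1
    have hee : (ee a i : PA a L) + ee a i = 0 := (v2 _).2 (Or.inr ⟨i, rfl⟩)
    have e3 : act a t (pt y) - pt y = ee a i := by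
      rw [e2', ← neg_add', hi]
      exact neg_eq_of_add_eq_zero_left hee
    rw [e3, v9, if_neg (Ne.symm hji)] at m4
    have hev : Even m := by
      rw [add_eq_right] at hmc
      rw [ZMod.intCast_zmod_eq_zero_iff_dvd] at hmc
      exact even_iff_two_dvd.2 (by exact_mod_cast hmc)
    rw [if_pos hev] at hsq
    rw [if_pos hsq] at m4
    exact one_ne_zero m4

end Pool.Agent.MP72S.C
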