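import Pool.Agent.Lib.MP_72e2e6_nt.Sm.C.SpecA

/-!
# MP_72e2e6_nt, `Sm`, block C: existence of the pairings
-/

set_option autoImplicit false

namespace Pool.Agent.MP72S.C

private theorem e_nsmul {N : Type} [AddCommGroup N] {e : N → N → ZMod 2} (he : PV e)
    {x y : N} (hx : 2 • x = 0) (hy : 2 • y = 0) (n : ℕ) : e (n • x) y = n * e x y := by
  have h0 : e 0 y = 0 := by
    have h := he.add 0 0 y (smul_zero _) (smul_zero _) hy
    rw [add_zero] at h
    exact (left_eq_add.mp h)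
  induction n with
  | zero => simp [h0]
  | succ n ih =>
    rw [succ_nsmul, he.add _ _ _ (by rw [smul_comm, hx, smul_zero]) hx hy, ih]
    push_cast
    ring

private theorem e_lin {N : Type} [AddCommGroup N] {e : N → N → ZMod 2} (he : PV e)
    {x y : N} (hx : 2 • x = 0) (hy : 2 • y = 0) (a b c d : ℕ) :
    e (a • x + b • y) (c • x + d • y) = (a * d + b * c : ZMod 2) * e x y := by
  have hs : ∀ (n : ℕ) (v : N), 2 • v = 0 → 2 • (n • v) = 0 := fun n v h => by
    rw [smul_comm, h, smul_zero]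
  have hcd : 2 • (c • x + d • y) = 0 := by rw [smul_add, hs c x hx, hs d y hy, add_zero]
  rw [he.add _ _ _ (hs a x hx) (hs b y hy) hcd, e_nsmul he hx hcd, e_nsmul he hy hcd,
    he.sym _ _ hx hcd, he.sym _ _ hy hcd, he.add _ _ _ (hs c x hx) (hs d y hy) hx,
    he.add _ _ _ (hs c x hx) (hs d y hy) hy, e_nsmul he hx hx, e_nsmul he hy hx,
    e_nsmul he hx hy, e_nsmul he hy hy, he.alt x hx, he.alt y hy, he.sym y x hy hx]
  ring

theorem tWPe (_h1 : S_Dga) (h2 : S_Bs1) (h3 : S_Bs2) : S_WPe := by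
  intro N R _ _ hf e hN hR he
  obtain ⟨⟨z, hz⟩, hz2⟩ := h2 R hf hR
  obtain ⟨hz1, hzt, hzg, hzk, _⟩ := hz2 z hz
  obtain ⟨⟨u, w, hb⟩, _, hb2⟩ := h3 N hN
  obtain ⟨hut, hg, hk, hV, _⟩ := hb2 u w hb
  have hg' := hg
  choose! K L hKL using hg'
  -- independence of the coordinates
  have key : ∀ (m : ℕ) (x y : N) (α β γ δ : ℤ), 2 ^ m • x = 0 → 2 ^ m • y = 0 →
      x = α • u m + β • w m → y = γ • u m + δ • w m →
      ((K m x : ℤ) * L m y - L m x * K m y) • z m = (α * δ - β * γ) • z m := by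
    intro m x y α β γ δ hx hy hxe hye
    have h1 := hKL m x hx
    have h2 := hKL m y hy
    have e1 : ((K m x : ℤ) - α) • u m + ((L m x : ℤ) - β) • w m = 0 := by
      rw [sub_smul, sub_smul, natCast_zsmul, natCast_zsmul]
      have : K m x • u m + L m x • w m = α • u m + β • w m := by rw [← h1, hxe]
      rw [← sub_eq_zero] at this
      rw [← this]; abel
    have e2 : ((K m y : ℤ) - γ) • u m + ((L m y : ℤ) - δ) • w m = 0 := by
      rw [sub_smul, sub_smul, natCast_zsmul, natCast_zsmul]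
      have : K m y • u m + L m y • w m = γ • u m + δ • w m := by rw [← h2, hye]
      rw [← sub_eq_zero] at this
      rw [← this]; abel
    obtain ⟨d1, d2⟩ := hk m _ _ e1
    obtain ⟨d3, d4⟩ := hk m _ _ e2
    rw [← sub_eq_zero, ← sub_smul, hzk]
    have : ((K m x : ℤ) * L m y - L m x * K m y) - (α * δ - β * γ) =
        ((K m x : ℤ) - α) * L m y + α * ((L m y : ℤ) - δ) - (((L m x : ℤ) - β) * K m y +
          β * ((K m y : ℤ) - γ)) := by ring
    rw [this]
    exact dvd_sub (dvd_add (Dvd.dvd.mul_right d1 _) (Dvd.dvd.mul_left d4 _))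
      (dvd_add (Dvd.dvd.mul_right d2 _) (Dvd.dvd.mul_left d3 _))
  have co : ∀ (m : ℕ) (x : N), 2 ^ m • x = 0 → ∃ α β : ℤ, x = α • u m + β • w m := by
    intro m x hx
    obtain ⟨k, l, hkl⟩ := hg m x hx
    exact ⟨k, l, by rw [natCast_zsmul, natCast_zsmul]; exact hkl⟩
  have hum : ∀ m, 2 ^ m • u m = 0 := fun m => (hut m).1
  have hwm : ∀ m, 2 ^ m • w m = 0 := fun m => (hut m).2
  refine ⟨fun m x y => ((K m x : ℤ) * L m y - L m x * K m y) • z m, ?_⟩
  constructor
  · intro m a b c ha hb' hc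
    obtain ⟨α, β, h1⟩ := co m a ha
    obtain ⟨α', β', h2⟩ := co m b hb'
    obtain ⟨γ, δ, h3⟩ := co m c hc
    rw [key m a c α β γ δ ha hc h1 h3, key m b c α' β' γ δ hb' hc h2 h3,
      key m (a + b) c (α + α') (β + β') γ δ (by rw [smul_add, ha, hb', add_zero]) hc
        (by rw [h1, h2, add_smul, add_smul]; abel) h3, ← add_smul]
    congr 1
    ring
  · intro m a ha
    rw [mul_comm, sub_self, zero_smul]
  · intro m a b _ _
    rw [← neg_smul]
    congr 1
    ring
  · intro m a ha hab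
    obtain ⟨α, β, h1⟩ := co m a ha
    have e1 := hab (w m) (hwm m)
    have e2 := hab (u m) (hum m)
    rw [key m a (w m) α β 0 1 ha (hwm m) h1 (by simp), hzk] at e1
    rw [key m a (u m) α β 1 0 ha (hum m) h1 (by simp), hzk] at e2
    rw [mul_one, mul_zero, sub_zero] at e1
    rw [mul_one, mul_zero, zero_sub, dvd_neg] at e2
    obtain ⟨c1, rfl⟩ := e1
    obtain ⟨c2, rfl⟩ := e2
    have p : ∀ (c : ℤ) (x : N), 2 ^ m • x = 0 → ((2 ^ m : ℤ) * c) • x = 0 := by
      intro c x hx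
      rw [mul_comm, mul_smul]
      have : (2 ^ m : ℤ) • x = 0 := by
        have h : ((2 ^ m : ℕ) : ℤ) • x = 0 := by rw [natCast_zsmul, hx]
        rwa [Nat.cast_pow, Nat.cast_ofNat] at h
      rw [this, smul_zero]
    rw [h1, p c1 _ (hum m), p c2 _ (hwm m), add_zero]
  · intro m a b ha hb'
    obtain ⟨α, β, h1⟩ := co (m + 1) a ha
    obtain ⟨γ, δ, h2⟩ := co m b hb'
    have h2' : b = (2 * γ) • u (m + 1) + (2 * δ) • w (m + 1) := by
      rw [h2, ← hb.us, ← hb.ws, mul_comm 2 γ, mul_comm 2 δ, mul_smul, mul_smul,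
        ← natCast_zsmul (u (m + 1)), ← natCast_zsmul (w (m + 1)), Nat.cast_ofNat]
    have h1' : 2 • a = α • u m + β • w m := by
      rw [h1, ← hb.us m, ← hb.ws m, smul_add, smul_comm 2 α, smul_comm 2 β]
    rw [key (m + 1) a b α β (2 * γ) (2 * δ) ha
        (by rw [pow_succ, mul_comm, mul_smul, hb', smul_zero]) h1 h2',
      key m (2 • a) b α β γ δ (by rw [← mul_smul, ← pow_succ, ha]) hb' h1' h2]
    rw [← hz.zs m, ← natCast_zsmul, ← mul_smul]
    congr 1
    push_cast
    ring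
  · intro a b ha hb'
    have ha' : 2 ^ 1 • a = 0 := by rwa [pow_one]
    have hb'' : 2 ^ 1 • b = 0 := by rwa [pow_one]
    have hu1 : 2 • u 1 = 0 := by have := hum 1; rwa [pow_one] at this
    have hw1 : 2 • w 1 = 0 := by have := hwm 1; rwa [pow_one] at this
    have huw : e (u 1) (w 1) = 1 := by
      by_contra hne
      have h0 : e (u 1) (w 1) = 0 := by
        generalize e (u 1) (w 1) = v at hne ⊢
        revert hne
        fin_cases v
        · intro _; rfl
        · intro h; exact absurd rfl h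
      refine hb.u1 (he.nd (u 1) hu1 fun y hy => ?_)
      obtain ⟨k, l, hkl⟩ := hg 1 y (by rwa [pow_one])
      have := e_lin he hu1 hw1 1 0 k l
      rw [one_smul, zero_smul, add_zero] at this
      rw [hkl, this, h0, mul_zero]
    obtain ⟨α, β, h1⟩ := hg 1 a ha'
    obtain ⟨γ, δ, h2⟩ := hg 1 b hb''
    rw [key 1 a b α β γ δ ha' hb'' (by rw [natCast_zsmul, natCast_zsmul]; exact h1)
      (by rw [natCast_zsmul, natCast_zsmul]; exact h2)]
    have he1 : e a b = (α * δ + β * γ : ZMod 2) := by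
      rw [h1, h2, e_lin he hu1 hw1, huw, mul_one]
    have hpar : e a b = ((α * δ - β * γ : ℤ) : ZMod 2) := by
      rw [he1]
      push_cast
      rw [sub_eq_add_neg, ← CharTwo.neg_eq ((β : ZMod 2) * γ), neg_neg, CharTwo.neg_eq]
    by_cases h0 : e a b = 0
    · rw [if_pos h0, hzk]
      rw [hpar] at h0
      rw [pow_one]
      exact (ZMod.intCast_zmod_eq_zero_iff_dvd _ 2).mp h0
    · rw [if_neg h0]
      rw [hpar] at h0
      have hodd : ¬ (2 : ℤ) ∣ ((α : ℤ) * δ - β * γ) := fun h =>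
        h0 ((ZMod.intCast_zmod_eq_zero_iff_dvd _ 2).mpr h)
      obtain ⟨j, hj⟩ := Int.not_even_iff_odd.mp (fun h => hodd h.two_dvd)
      rw [hj, add_smul, one_smul, hz1, ← hz1, (hzk 1 (2 * j)).mpr (by rw [pow_one]; exact ⟨j, rfl⟩),
        zero_add]

end Pool.Agent.MP72S.C
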